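import Mathlib

/-!
# Generators and the rank of a free group
-/

set_option autoImplicit false

namespace Pool.Agent.Helper166_PQ

/-- TARGET -/
theorem card_basis_le {G : Type} [Group G] {ι : Type} (b : FreeGroupBasis ι G) (t : Finset G)
    (ht : Subgroup.closure (t : Set G) = ⊤) : Finite ι ∧ Nat.card ι ≤ t.card := by
  classical
  have hinj : Function.Injective (fun (f : ι → Multiplicative (ZMod 2)) (x : t) =>
      b.lift f (x : G)) := by
    intro f g hfg
    apply b.lift.injective
    apply MonoidHom.eq_of_eqOn_dense ht
    intro x hx
    exact congrFun hfg ⟨x, hx⟩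
  have hfinF : Finite (ι → Multiplicative (ZMod 2)) := Finite.of_injective _ hinj
  have hfin : Finite ι := by
    have : Function.Injective (fun i : ι =>
        (Pi.mulSingle i (Multiplicative.ofAdd (1 : ZMod 2)) : ι → Multiplicative (ZMod 2))) := by
      intro i j hij
      by_contra hne
      have h1 := congrFun hij i
      simp only [Pi.mulSingle_eq_same, Pi.mulSingle_eq_of_ne hne] at h1
      exact absurd h1 (by decide)
    exact Finite.of_injective _ this
  refine ⟨hfin, ?_⟩
  have : Fintype ι := Fintype.ofFinite ι
  have h1 := Fintype.card_le_of_injective _ hinj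
  rw [Fintype.card_fun, Fintype.card_fun, Fintype.card_coe] at h1
  have h2 : Fintype.card (Multiplicative (ZMod 2)) = 2 := by decide
  rw [h2] at h1
  rw [Nat.card_eq_fintype_card]
  exact (Nat.pow_le_pow_iff_right (by norm_num)).1 h1

end Pool.Agent.Helper166_PQ
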