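import Mathlib

/-!
# Common definitions for the comparison of the primitivity rank and the `q`-primitivity rank
-/

set_option autoImplicit false

namespace Pool.Agent.Helper166_PQ

open Module

section RightIdeals

variable {A : Type*} [Ring A]

/-- The right ideal generated by a set. -/
abbrev rI (S : Set A) : Submodule Aᵐᵒᵖ A := Submodule.span Aᵐᵒᵖ S

theorem mul_mem_right' {I : Submodule Aᵐᵒᵖ A} {a : A} (h : a ∈ I) (b : A) : a * b ∈ I :=
  I.smul_mem (MulOpposite.op b) h

theorem subset_rI {S : Set A} {a : A} (h : a ∈ S) : a ∈ rI S := Submodule.subset_span h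

theorem rI_le {S : Set A} {I : Submodule Aᵐᵒᵖ A} (h : ∀ a ∈ S, a ∈ I) : rI S ≤ I :=
  Submodule.span_le.2 h

/-- `GW ω I k`: the right ideal `I` is generated by `ω` and at most `k` further elements. -/
def GW (ω : A) (I : Submodule Aᵐᵒᵖ A) (k : ℕ) : Prop :=
  ∃ t : Finset A, t.card ≤ k ∧ rI (insert ω (t : Set A)) = I

end RightIdeals

section Functions

variable {K V : Type*} [Field K] [DecidableEq V]

/-- Restriction of a function to a finite set (zero outside). -/
def res (S : Finset V) : (V → K) →ₗ[K] (V → K) where
  toFun x v := if v ∈ S then x v else 0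
  map_add' x y := by ext v; by_cases h : v ∈ S <;> simp [h]
  map_smul' c x := by ext v; by_cases h : v ∈ S <;> simp [h]

theorem res_apply (S : Finset V) (x : V → K) (v : V) : res S x v = if v ∈ S then x v else 0 := rfl

/-- The functions which vanish outside `S`. -/
def supp (K : Type*) [Field K] {V : Type*} [DecidableEq V] (S : Finset V) : Submodule K (V → K) where
  carrier := {x | ∀ v, v ∉ S → x v = 0}
  zero_mem' := fun _ _ => rfl
  add_mem' := fun {x y} hx hy v hv => by simp [hx v hv, hy v hv]
  smul_mem' := fun c x hx v hv => by simp [hx v hv]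

theorem mem_supp {S : Finset V} {x : V → K} : x ∈ supp K S ↔ ∀ v, v ∉ S → x v = 0 := Iff.rfl

/-- The dimension of the space of elements of `R` supported on `S`. -/
noncomputable def rk (R : Submodule K (V → K)) (S : Finset V) : ℕ :=
  finrank K (R ⊓ supp K S : Submodule K (V → K))

/-- The nodes at the elements of `c`, for `a b : V → ℕ`. -/
def nodes (c : Finset V) (a b : V → ℕ) : Finset ℕ := c.image a ∪ c.image b

/-- The star of a node. -/
def star (c : Finset V) (a b : V → ℕ) (n : ℕ) : Finset V := c.filter fun v => a v = n ∨ b v = n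

end Functions

section Cycles

/-- A (bipartite) labelled graph in which every vertex has exactly two edges, with different
labels. `en false e` and `en true e` are the ends of the edge `e`. -/
structure Cyc (V Ed : Type) where
  /-- the ends of an edge -/
  en : Bool → Ed → V
  /-- the kind of a vertex -/
  kind : V → Bool
  /-- the first edge at a vertex -/
  i0 : V → Ed
  /-- the second edge at a vertex -/
  i1 : V → Ed
  /-- the labels of the edges -/
  lab : Ed → ℕ
  kind_en : ∀ β e, kind (en β e) = β
  en_i0 : ∀ v, en (kind v) (i0 v) = v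
  en_i1 : ∀ v, en (kind v) (i1 v) = v
  en_eq : ∀ v e, en (kind v) e = v → e = i0 v ∨ e = i1 v
  lab_ne : ∀ v, lab (i0 v) ≠ lab (i1 v)

variable {V Ed : Type} [Fintype V] [DecidableEq V] [Fintype Ed] [DecidableEq Ed]
variable {K : Type*} [Field K]

namespace Cyc

variable (C : Cyc V Ed)

/-- Push forward of functions on edges to the ends of kind `β`. -/
def P (β : Bool) : (Ed → K) →ₗ[K] (V → K) where
  toFun r v := ∑ e, if C.en β e = v then r e else 0
  map_add' x y := by
    ext v
    simp only [Pi.add_apply, ← Finset.sum_add_distrib]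
    refine Finset.sum_congr rfl fun e _ => ?_
    split_ifs <;> simp
  map_smul' c x := by
    ext v
    simp only [Pi.smul_apply, smul_eq_mul, RingHom.id_apply, Finset.mul_sum]
    refine Finset.sum_congr rfl fun e _ => ?_
    split_ifs <;> simp

/-- The class of an edge, for a colouring `p` of the vertices. -/
def q (p : V → ℕ) (e : Ed) : ℕ := Nat.pair (C.lab e) (Nat.pair (p (C.en false e)) (p (C.en true e)))

/-- The edges of a class. -/
def cls (p : V → ℕ) (ε : ℕ) : Finset Ed := Finset.univ.filter fun e => C.q p e = ε

/-- The edge relations. -/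
def Wd (p : V → ℕ) (R : Submodule K (V → K)) : Submodule K (Ed → K) where
  carrier := {r | ∀ ε β, C.P β (res (C.cls p ε) r) ∈ R}
  zero_mem' := fun ε β => by simp
  add_mem' := fun {x y} hx hy ε β => by
    rw [map_add, map_add]; exact R.add_mem (hx ε β) (hy ε β)
  smul_mem' := fun c x hx ε β => by
    rw [map_smul, map_smul]; exact R.smul_mem c (hx ε β)

/-- `p` refines the kind of the vertices. -/
def Kinded (p : V → ℕ) : Prop := ∀ v v', p v = p v' → C.kind v = C.kind v'

end Cyc

/-- `R` is graded with respect to the colouring `p`. -/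
def Graded (p : V → ℕ) (R : Submodule K (V → K)) : Prop :=
  ∀ x ∈ R, ∀ k : ℕ, res (Finset.univ.filter fun v => p v = k) x ∈ R

/-- The right ideal of a subspace `R`, where `br` evaluates functions. -/
def Id {A : Type*} [Ring A] [Algebra K A] (ω : A) (br : (V → K) →ₗ[K] A)
    (R : Submodule K (V → K)) : Submodule Aᵐᵒᵖ A := rI (insert ω (br '' (R : Set (V → K))))

end Cycles

section FreeGroupAlgebra

variable {K : Type*} [Field K] {G : Type*} [Group G]

/-- right multiplication by a group element -/
noncomputable def mr (g : G) : MonoidAlgebra K G →ₗ[K] MonoidAlgebra K G :=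
  LinearMap.mulRight K (MonoidAlgebra.single g (1 : K))

/-- the elements `a` of `R` with `a * g ∈ R` -/
noncomputable def Ex (R : Submodule K (MonoidAlgebra K G)) (g : G) :
    Submodule K (MonoidAlgebra K G) := R ⊓ R.comap (mr g)

/-- the function `h` -/
noncomputable def hh {X : Type*} [Fintype X] (R : Submodule K (MonoidAlgebra K (FreeGroup X))) : ℤ :=
  (finrank K R : ℤ) - ∑ x : X, (finrank K (Ex R (FreeGroup.of x)) : ℤ)

/-- `a` is supported on `T` -/
def SuppOn (T : Set G) (a : MonoidAlgebra K G) : Prop := ∀ g, a.coeff g ≠ 0 → g ∈ T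

/-- `T` is closed under deleting the last letter. -/
def PrefixClosed {X : Type*} [DecidableEq X] (T : Finset (FreeGroup X)) : Prop :=
  ∀ g ∈ T, ∀ (L : List (X × Bool)) (y : X × Bool), g.toWord = L ++ [y] → FreeGroup.mk L ∈ T

/-- `w` is primitive in the (free) group `H`: some free basis of `H` contains it. -/
def IsPrimitive {H : Type} [Group H] (w : H) : Prop :=
  ∃ (ι : Type) (b : FreeGroupBasis ι H), w ∈ Set.range b

/-- `f` is primitive in the right ideal `I`: it belongs to some basis of `I` as a right module. -/
def IsPrimitiveIn {A : Type} [Ring A] (I : Submodule Aᵐᵒᵖ A) (f : A) : Prop :=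
  ∃ (ι : Type) (b : Basis ι Aᵐᵒᵖ I) (i : ι), (b i : A) = f

/-- Alternating products `a 0 * (a 1)⁻¹ * a 2 * (a 3)⁻¹ * ⋯`. -/
def pth (a : ℕ → G) : ℕ → G
  | 0 => 1
  | j + 1 => pth a j * (if j % 2 = 0 then a j else (a j)⁻¹)

end FreeGroupAlgebra

end Pool.Agent.Helper166_PQ
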