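import Mathlib
import Pool.Agent.Helper166_PQ.Defs

/-!
# The right ideal of a subgroup of a free group
-/

set_option autoImplicit false

namespace Pool.Agent.Helper166_PQ

open Module

section Fox

variable {K : Type} [Field K] {F : Type} [Group F] (H : Subgroup F) {ι : Type}

/-- a subgroup of `H` containing the basis is everything -/
theorem basis_closure (b : FreeGroupBasis ι H) (S : Subgroup H) (hS : ∀ i, b i ∈ S) (h : H) :
    h ∈ S := by
  let f : H →* H := S.subtype.comp (b.lift fun i => ⟨b i, hS i⟩)
  have hf : f = MonoidHom.id H := by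
    apply b.ext_hom
    intro i
    simp [f, FreeGroupBasis.lift]
  have : f h = h := by rw [hf]; rfl
  rw [← this]
  exact Subtype.property _

open Classical in
/-- the permutation attached to a basis element -/
noncomputable def foxPerm (K : Type) [Field K] (b : FreeGroupBasis ι H) (i : ι) :
    Equiv.Perm ((ι → MonoidAlgebra K F) × F) where
  toFun p := (p.1 + Pi.single i (MonoidAlgebra.single p.2 1), (b i : F) * p.2)
  invFun p := (p.1 - Pi.single i (MonoidAlgebra.single ((b i : F)⁻¹ * p.2) 1), (b i : F)⁻¹ * p.2)
  left_inv p := by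
    ext : 1 <;> simp
  right_inv p := by
    ext : 1 <;> simp

/-- the homomorphism of the Fox calculus -/
noncomputable def foxHom (K : Type) [Field K] (b : FreeGroupBasis ι H) :
    H →* Equiv.Perm ((ι → MonoidAlgebra K F) × F) := b.lift (foxPerm H K b)

theorem foxHom_basis (b : FreeGroupBasis ι H) (i : ι) :
    foxHom H K b (b i) = foxPerm H K b i := by
  simp [foxHom, FreeGroupBasis.lift]

theorem foxHom_snd (b : FreeGroupBasis ι H) (h : H) :
    ∀ p : (ι → MonoidAlgebra K F) × F, (foxHom H K b h p).2 = (h : F) * p.2 := by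
  let S : Subgroup H :=
    { carrier := {h | ∀ p : (ι → MonoidAlgebra K F) × F, (foxHom H K b h p).2 = (h : F) * p.2}
      mul_mem' := by
        intro g g' hg hg' p
        rw [map_mul, Equiv.Perm.mul_apply, hg, hg', Subgroup.coe_mul, mul_assoc]
      one_mem' := by
        intro p
        simp
      inv_mem' := by
        intro g hg p
        have := hg ((foxHom H K b g⁻¹) p)
        rw [← Equiv.Perm.mul_apply, ← map_mul, mul_inv_cancel, map_one, Equiv.Perm.one_apply]
          at this
        rw [this]
        simp }
  have hS : ∀ i, b i ∈ S := by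
    intro i p
    rw [foxHom_basis]
    rfl
  exact basis_closure H b S hS h

/-- a transversal for the right cosets -/
noncomputable def trv (f : F) : F :=
  (Quotient.mk (QuotientGroup.rightRel H) f).out

theorem trv_mul (h : H) (f : F) : trv H ((h : F) * f) = trv H f := by
  unfold trv
  congr 1
  apply Quotient.sound
  change (QuotientGroup.rightRel H).r _ _
  rw [QuotientGroup.rightRel_apply]
  have : f * ((h : F) * f)⁻¹ = ((h⁻¹ : H) : F) := by
    rw [mul_inv_rev, Subgroup.coe_inv]; group
  rw [this]
  exact Subtype.property _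

theorem trv_mem (f : F) : f * (trv H f)⁻¹ ∈ H := by
  have h : (QuotientGroup.rightRel H).r (trv H f) f := by
    unfold trv
    exact Quotient.exact (Quotient.out_eq _)
  rwa [QuotientGroup.rightRel_apply] at h

/-- the `H` part of an element -/
noncomputable def hpart (f : F) : H := ⟨f * (trv H f)⁻¹, trv_mem H f⟩

theorem hpart_mul (h : H) (f : F) : hpart H ((h : F) * f) = h * hpart H f := by
  apply Subtype.ext
  simp only [hpart, Subgroup.coe_mul, trv_mul, mul_assoc]

theorem hpart_trv (f : F) : (hpart H f : F) * trv H f = f := by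
  simp [hpart]

/-- the Fox derivatives of a group element -/
noncomputable def foxD (K : Type) [Field K] (b : FreeGroupBasis ι H) (f : F) :
    ι → MonoidAlgebra K F :=
  (foxHom H K b (hpart H f) (0, trv H f)).1

open Classical in
theorem foxD_mul (b : FreeGroupBasis ι H) (i : ι) (f : F) :
    foxD H K b ((b i : F) * f) = foxD H K b f + Pi.single i (MonoidAlgebra.single f 1) := by
  unfold foxD
  rw [hpart_mul, trv_mul, map_mul, Equiv.Perm.mul_apply, foxHom_basis]
  have h2 := foxHom_snd (K := K) H b (hpart H f) (0, trv H f)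
  simp only [hpart_trv] at h2
  conv_lhs => unfold foxPerm
  simp only [Equiv.coe_fn_mk]
  rw [h2]

/-- its linear extension -/
noncomputable def foxL (b : FreeGroupBasis ι H) (a : MonoidAlgebra K F) :
    ι → MonoidAlgebra K F :=
  Finsupp.linearCombination K (foxD H K b) a.coeff

theorem foxL_add (b : FreeGroupBasis ι H) (a a' : MonoidAlgebra K F) :
    foxL H b (a + a') = foxL H b a + foxL H b a' := by
  unfold foxL
  rw [MonoidAlgebra.coeff_add, map_add]

theorem foxL_zero (b : FreeGroupBasis ι H) : foxL H b (0 : MonoidAlgebra K F) = 0 := by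
  unfold foxL
  rw [MonoidAlgebra.coeff_zero, map_zero]

theorem foxL_sub (b : FreeGroupBasis ι H) (a a' : MonoidAlgebra K F) :
    foxL H b (a - a') = foxL H b a - foxL H b a' := by
  rw [eq_sub_iff_add_eq, ← foxL_add, sub_add_cancel]

theorem foxL_single (b : FreeGroupBasis ι H) (f : F) (r : K) :
    foxL H b (MonoidAlgebra.single f r) = r • foxD H K b f := by
  unfold foxL
  rw [MonoidAlgebra.coeff_single, Finsupp.linearCombination_single]

theorem foxL_sum {κ : Type} (b : FreeGroupBasis ι H) (s : Finset κ)
    (g : κ → MonoidAlgebra K F) : foxL H b (∑ i ∈ s, g i) = ∑ i ∈ s, foxL H b (g i) := by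
  classical
  induction s using Finset.induction_on with
  | empty => simp [foxL_zero]
  | insert a s ha ih => rw [Finset.sum_insert ha, Finset.sum_insert ha, foxL_add, ih]

open Classical in
theorem foxL_mul (b : FreeGroupBasis ι H) (i : ι) (a : MonoidAlgebra K F) :
    foxL H b ((MonoidAlgebra.single ((b i : H) : F) (1 : K) - 1) * a) = Pi.single i a := by
  induction a using MonoidAlgebra.induction_linear with
  | zero => rw [mul_zero, foxL_zero, Pi.single_zero]
  | add x y hx hy => rw [mul_add, foxL_add, hx, hy, Pi.single_add]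
  | single m r =>
    rw [sub_mul, one_mul, MonoidAlgebra.single_mul_single, one_mul, foxL_sub, foxL_single,
      foxL_single, foxD_mul, smul_add, add_sub_cancel_left, ← Pi.single_smul,
      MonoidAlgebra.smul_single, smul_eq_mul, mul_one]

end Fox

/-- TARGET 1 -/
theorem aug_basis {K : Type} [Field K] {F : Type} [Group F] (H : Subgroup F) {ι : Type}
    (b : FreeGroupBasis ι H) :
    LinearIndependent (MonoidAlgebra K F)ᵐᵒᵖ
      (fun i : ι => (MonoidAlgebra.single ((b i : H) : F) (1 : K) - 1 : MonoidAlgebra K F)) ∧
    (∀ h ∈ H, (MonoidAlgebra.single h (1 : K) - 1 : MonoidAlgebra K F) ∈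
      rI (Set.range fun i : ι => (MonoidAlgebra.single ((b i : H) : F) (1 : K) - 1 : MonoidAlgebra K F))) ∧
    rI (Set.range fun i : ι => (MonoidAlgebra.single ((b i : H) : F) (1 : K) - 1 : MonoidAlgebra K F)) ≠ ⊤ := by
  classical
  refine ⟨?_, ?_, ?_⟩
  · rw [linearIndependent_iff']
    intro s g hg i hi
    have h1 := congrArg (foxL H b) hg
    rw [foxL_sum, foxL_zero] at h1
    simp only [MulOpposite.smul_eq_mul_unop, foxL_mul] at h1
    have h2 := congrFun h1 i
    rw [Finset.sum_apply, Finset.sum_eq_single i] at h2
    · rw [Pi.single_eq_same] at h2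
      exact MulOpposite.unop_injective h2
    · intro j _ hj
      rw [Pi.single_eq_of_ne hj.symm]
    · intro h3; exact absurd hi h3
  · intro h hh
    set I := rI (Set.range fun i : ι =>
      (MonoidAlgebra.single ((b i : H) : F) (1 : K) - 1 : MonoidAlgebra K F)) with hI
    let S : Subgroup H :=
      { carrier := {g | (MonoidAlgebra.single (g : F) (1 : K) - 1 : MonoidAlgebra K F) ∈ I}
        mul_mem' := by
          intro g g' hg hg'
          simp only [Set.mem_setOf_eq] at hg hg' ⊢
          have e : (MonoidAlgebra.single ((g * g' : H) : F) (1 : K) - 1 : MonoidAlgebra K F) =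
              MulOpposite.op (MonoidAlgebra.single (g' : F) (1 : K)) •
                (MonoidAlgebra.single (g : F) (1 : K) - 1) +
                (MonoidAlgebra.single (g' : F) (1 : K) - 1) := by
            rw [MulOpposite.smul_eq_mul_unop, MulOpposite.unop_op, sub_mul, one_mul,
              MonoidAlgebra.single_mul_single, one_mul, Subgroup.coe_mul]
            abel
          rw [e]
          exact I.add_mem (I.smul_mem _ hg) hg'
        one_mem' := by
          simp only [Set.mem_setOf_eq, Subgroup.coe_one]
          rw [← MonoidAlgebra.one_def, sub_self]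
          exact I.zero_mem
        inv_mem' := by
          intro g hg
          simp only [Set.mem_setOf_eq] at hg ⊢
          have e : (MonoidAlgebra.single ((g⁻¹ : H) : F) (1 : K) - 1 : MonoidAlgebra K F) =
              -(MulOpposite.op (MonoidAlgebra.single ((g⁻¹ : H) : F) (1 : K)) •
                (MonoidAlgebra.single (g : F) (1 : K) - 1)) := by
            rw [MulOpposite.smul_eq_mul_unop, MulOpposite.unop_op, sub_mul, one_mul,
              MonoidAlgebra.single_mul_single, one_mul, ← Subgroup.coe_mul, mul_inv_cancel,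
              Subgroup.coe_one, ← MonoidAlgebra.one_def]
            abel
          rw [e]
          exact I.neg_mem (I.smul_mem _ hg) }
    have hS : ∀ i, b i ∈ S := fun i => Submodule.subset_span ⟨i, rfl⟩
    exact basis_closure H b S hS ⟨h, hh⟩
  · intro htop
    let ε : MonoidAlgebra K F →ₐ[K] K := MonoidAlgebra.lift K K F 1
    have hz : ∀ a ∈ rI (Set.range fun i : ι =>
        (MonoidAlgebra.single ((b i : H) : F) (1 : K) - 1 : MonoidAlgebra K F)), ε a = 0 := by
      intro a ha
      induction ha using Submodule.span_induction with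
      | mem x hx =>
        obtain ⟨i, rfl⟩ := hx
        simp [ε]
      | zero => exact map_zero _
      | add x y _ _ hx hy => rw [map_add, hx, hy, add_zero]
      | smul r x _ hx => rw [MulOpposite.smul_eq_mul_unop, map_mul, hx, zero_mul]
    have h1 := hz 1 (by rw [htop]; trivial)
    rw [map_one] at h1
    exact one_ne_zero h1

/-- TARGET 2 -/
theorem exists_almostInvariant {K : Type} [Field K] {F : Type} [Group F] (H : Subgroup F)
    (I : Submodule (MonoidAlgebra K F)ᵐᵒᵖ (MonoidAlgebra K F))
    (hI : ∀ h ∈ H, (MonoidAlgebra.single h (1 : K) - 1 : MonoidAlgebra K F) ∈ I)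
    (φ : I →ₗ[(MonoidAlgebra K F)ᵐᵒᵖ] MonoidAlgebra K F) (w : H)
    (hφ : φ ⟨MonoidAlgebra.single (w : F) (1 : K) - 1, hI w w.2⟩ = 1) :
    ∃ E : Set H, (∀ g : H, {h : H | ¬ (h ∈ E ↔ h * g ∈ E)}.Finite) ∧ (1 : H) ∈ E ∧ w⁻¹ ∉ E ∧
      ∀ h : H, h ≠ w⁻¹ → (h ∈ E ↔ h * w ∈ E) := by
  classical
  let D : H → MonoidAlgebra K F := fun h => φ ⟨MonoidAlgebra.single (h : F) (1 : K) - 1, hI h h.2⟩
  have hD : ∀ h k : H, D (h * k) = D h * MonoidAlgebra.single (k : F) (1 : K) + D k := by
    intro h k
    have e : (⟨MonoidAlgebra.single ((h * k : H) : F) (1 : K) - 1, hI (h * k : H) (h * k).2⟩ : I) =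
        MulOpposite.op (MonoidAlgebra.single (k : F) (1 : K)) •
          (⟨MonoidAlgebra.single (h : F) (1 : K) - 1, hI h h.2⟩ : I) +
          ⟨MonoidAlgebra.single (k : F) (1 : K) - 1, hI k k.2⟩ := by
      apply Subtype.ext
      simp only [Submodule.coe_add, Submodule.coe_smul]
      rw [MulOpposite.smul_eq_mul_unop, MulOpposite.unop_op, sub_mul, one_mul,
        MonoidAlgebra.single_mul_single, one_mul, Subgroup.coe_mul]
      abel
    show φ _ = _
    rw [e, map_add, map_smul, MulOpposite.smul_eq_mul_unop, MulOpposite.unop_op]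
  let η : H → K := fun h => (D h).coeff (h : F)
  have hη : ∀ h k : H, η (h * k) = η h + (D k).coeff ((h * k : H) : F) := by
    intro h k
    show (D (h * k)).coeff _ = _
    rw [hD, MonoidAlgebra.coeff_add, Finsupp.add_apply, MonoidAlgebra.coeff_mul_single_apply]
    simp [η]
  have hDw : D w = 1 := hφ
  refine ⟨{h | η h = η 1}, ?_, rfl, ?_, ?_⟩
  · intro g
    have hfin : {h : H | ((h * g : H) : F) ∈ (D g).coeff.support}.Finite := by
      have h1 : ((D g).coeff.support : Set F).Finite := Finset.finite_toSet _
      have hinj : Set.InjOn (fun h : H => ((h * g : H) : F))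
          ((fun h : H => ((h * g : H) : F)) ⁻¹' ((D g).coeff.support : Set F)) := by
        intro x _ y _ hxy
        have : x * g = y * g := Subtype.ext hxy
        exact mul_right_cancel this
      exact h1.preimage hinj
    refine hfin.subset ?_
    intro h hh
    simp only [Set.mem_setOf_eq] at hh ⊢
    rw [Finsupp.mem_support_iff]
    intro h0
    apply hh
    rw [hη h g, h0, add_zero]
  · intro h
    simp only [Set.mem_setOf_eq] at h
    have h2 := hη w⁻¹ w
    rw [inv_mul_cancel, hDw, h, Subgroup.coe_one, MonoidAlgebra.coeff_one_one] at h2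
    exact one_ne_zero (left_eq_add.1 h2)
  · intro h hh
    simp only [Set.mem_setOf_eq]
    rw [hη h w, hDw]
    have : (1 : MonoidAlgebra K F).coeff ((h * w : H) : F) = 0 := by
      rw [MonoidAlgebra.one_def, MonoidAlgebra.coeff_single, Finsupp.single_apply, if_neg]
      intro h1
      have h2 : h * w = 1 := Subtype.ext h1.symm
      exact hh (eq_inv_of_mul_eq_one_left h2)
    rw [this, add_zero]

end Pool.Agent.Helper166_PQ
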