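import Mathlib

/-!
# Inverse letters
-/

set_option autoImplicit false

namespace Pool.Agent.Helper166_PQ

/-- the inverse letter -/
def nv {X : Type*} (z : X × Bool) : X × Bool := (z.1, !z.2)

/-- a contiguous piece of a reduced word is reduced -/
theorem isReduced_piece {X : Type*} {L₁ L₂ : List (X × Bool)} (h : FreeGroup.IsReduced L₂)
    (h' : ∃ s t, s ++ L₁ ++ t = L₂) : FreeGroup.IsReduced L₁ := by
  obtain ⟨s, t, rfl⟩ := h'
  have h1 : FreeGroup.IsReduced (s ++ L₁) := List.IsChain.left_of_append h
  exact List.IsChain.right_of_append h1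

end Pool.Agent.Helper166_PQ
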