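import Mathlib
import Pool.Agent.Helper166_PQ.Letters

/-!
# A cut from an almost invariant set
-/

set_option autoImplicit false

namespace Pool.Agent.Helper166_PQ

theorem ea_nv_nv {X : Type*} (z : X × Bool) : nv (nv z) = z := by
  cases z; simp [nv]

theorem ea_ne_nv {X : Type*} (z : X × Bool) : z ≠ nv z := by
  obtain ⟨x, b⟩ := z
  intro h
  have := congrArg Prod.snd h
  cases b <;> simp [nv] at this

theorem ea_rel {X : Type*} (y z : X × Bool) : (y.1 = z.1 → y.2 = z.2) ↔ z ≠ nv y := by
  obtain ⟨x, b⟩ := y
  obtain ⟨x', b'⟩ := z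
  simp only [nv, ne_eq, Prod.mk.injEq, not_and]
  constructor
  · intro h h1 h2
    have := h h1.symm
    subst this
    cases b <;> simp at h2
  · intro h h1
    have := h h1.symm
    cases b <;> cases b' <;> simp_all

theorem ea_concat {X : Type*} (G : List (X × Bool)) (y z : X × Bool) :
    FreeGroup.IsReduced (G ++ [y] ++ [z]) ↔ FreeGroup.IsReduced (G ++ [y]) ∧ z ≠ nv y := by
  unfold FreeGroup.IsReduced
  rw [List.isChain_append]
  simp only [List.isChain_singleton, true_and, List.head?_cons, List.getLast?_append,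
    List.getLast?_singleton, Option.some_or, Option.mem_def, Option.some.injEq, forall_eq']
  rw [← ea_rel]

theorem ea_invRev_reduced {X : Type*} [DecidableEq X] {M : List (X × Bool)}
    (h : FreeGroup.IsReduced M) : FreeGroup.IsReduced (FreeGroup.invRev M) := by
  rw [FreeGroup.isReduced_iff_reduce_eq] at h ⊢
  rw [FreeGroup.reduce_invRev, h]

theorem ea_mk_inj {X : Type*} [DecidableEq X] {M N : List (X × Bool)}
    (hM : FreeGroup.IsReduced M) (hN : FreeGroup.IsReduced N)
    (h : FreeGroup.mk M = FreeGroup.mk N) : M = N := by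
  have := FreeGroup.reduce.sound h
  rwa [hM.reduce_eq, hN.reduce_eq] at this

/-- eventual value of membership in `E` on the cone of `G` -/
def Ev {X : Type*} (E : Set (FreeGroup X)) (G : List (X × Bool)) (b : Bool) : Prop :=
  ∃ n : ℕ, ∀ N : List (X × Bool), FreeGroup.IsReduced (G ++ N) → n ≤ N.length →
    (FreeGroup.mk (G ++ N) ∈ E ↔ b = true)

/-- powers of a word -/
def pw {X : Type*} (L : List (X × Bool)) (k : ℕ) : List (X × Bool) :=
  (List.replicate k L).flatten

theorem pw_succ {X : Type*} (L : List (X × Bool)) (k : ℕ) : pw L (k + 1) = L ++ pw L k := by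
  simp [pw, List.replicate_succ]

theorem pw_succ' {X : Type*} (L : List (X × Bool)) (k : ℕ) : pw L (k + 1) = pw L k ++ L := by
  simp [pw, List.replicate_succ']

theorem mk_pw {X : Type*} (L : List (X × Bool)) (k : ℕ) :
    FreeGroup.mk (pw L k) = FreeGroup.mk L ^ k := (FreeGroup.pow_mk k).symm

theorem pw_length {X : Type*} (L : List (X × Bool)) (hne : L ≠ []) (k : ℕ) :
    k ≤ (pw L k).length := by
  induction k with
  | zero => simp
  | succ k ih =>
    rw [pw_succ, List.length_append]
    have : 0 < L.length := List.length_pos_iff.mpr hne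
    omega

theorem ea_far {X : Type} [Fintype X] [DecidableEq X] (E : Set (FreeGroup X))
    (hfin : ∀ g : FreeGroup X, {h : FreeGroup X | ¬ (h ∈ E ↔ h * g ∈ E)}.Finite) :
    ∃ n₀ : ℕ, ∀ h : FreeGroup X, n₀ ≤ h.norm → ∀ z : X × Bool,
      (h ∈ E ↔ h * FreeGroup.mk [z] ∈ E) := by
  have hT : (⋃ z : X × Bool, {h : FreeGroup X | ¬ (h ∈ E ↔ h * FreeGroup.mk [z] ∈ E)}).Finite :=
    Set.finite_iUnion fun z => hfin _
  obtain ⟨n, hn⟩ := (hT.image FreeGroup.norm).bddAbove
  refine ⟨n + 1, fun h hh z => ?_⟩
  by_contra hc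
  have : h.norm ≤ n := hn ⟨h, Set.mem_iUnion.mpr ⟨z, hc⟩, rfl⟩
  omega

theorem ea_norm {X : Type} [DecidableEq X] {M : List (X × Bool)} (h : FreeGroup.IsReduced M) :
    (FreeGroup.mk M).norm = M.length := by
  unfold FreeGroup.norm
  rw [FreeGroup.toWord_mk, h.reduce_eq]

theorem ea_far_ev {X : Type} [DecidableEq X] (E : Set (FreeGroup X)) (n₀ : ℕ)
    (h₀ : ∀ h : FreeGroup X, n₀ ≤ h.norm → ∀ z : X × Bool,
      (h ∈ E ↔ h * FreeGroup.mk [z] ∈ E))
    (M : List (X × Bool)) (hlen : n₀ ≤ M.length) : ∃ b, Ev E M b := by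
  classical
  refine ⟨decide (FreeGroup.mk M ∈ E), 0, fun N hN _ => ?_⟩
  rw [decide_eq_true_iff]
  induction N using List.reverseRecOn with
  | nil => simp
  | append_singleton N z ih =>
    have hr : FreeGroup.IsReduced (M ++ N) :=
      isReduced_piece hN ⟨[], [z], by simp⟩
    rw [← ih hr (Nat.zero_le _), ← List.append_assoc, ← FreeGroup.mul_mk (L₁ := M ++ N)]
    refine (h₀ _ ?_ z).symm
    rw [ea_norm hr, List.length_append]
    omega

theorem ea_maximal {X : Type} [DecidableEq X] (E : Set (FreeGroup X)) (n₀ : ℕ)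
    (h₀ : ∀ h : FreeGroup X, n₀ ≤ h.norm → ∀ z : X × Bool,
      (h ∈ E ↔ h * FreeGroup.mk [z] ∈ E)) (d : ℕ) :
    ∀ G : List (X × Bool), G ≠ [] → FreeGroup.IsReduced G → (¬ ∃ b, Ev E G b) →
      n₀ ≤ G.length + d →
    ∃ G : List (X × Bool), G ≠ [] ∧ FreeGroup.IsReduced G ∧ (¬ ∃ b, Ev E G b) ∧
      ∀ z, FreeGroup.IsReduced (G ++ [z]) → ∃ b, Ev E (G ++ [z]) b := by
  induction d with
  | zero =>
    intro G _ _ hb hl
    exact absurd (ea_far_ev E n₀ h₀ G (by omega)) hb
  | succ d ih =>
    intro G hne hr hb hl
    by_cases hz : ∀ z, FreeGroup.IsReduced (G ++ [z]) → ∃ b, Ev E (G ++ [z]) b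
    · exact ⟨G, hne, hr, hb, hz⟩
    · push Not at hz
      obtain ⟨z, hz1, hz2⟩ := hz
      refine ih (G ++ [z]) (by simp) hz1 (by push Not; exact hz2) ?_
      rw [List.length_append, List.length_singleton]
      omega

theorem ea_const {X : Type} (w : FreeGroup X) (E : Set (FreeGroup X))
    (hinv : ∀ h : FreeGroup X, h ≠ w⁻¹ → (h ∈ E ↔ h * w ∈ E)) (h : FreeGroup X)
    (hn : ∀ n : ℤ, h * w ^ n ≠ w⁻¹) (n : ℤ) : h * w ^ n ∈ E ↔ h ∈ E := by
  have key : ∀ n : ℤ, (h * w ^ n ∈ E ↔ h * w ^ (n + 1) ∈ E) := by
    intro n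
    rw [hinv _ (hn n), mul_assoc, zpow_add_one]
  induction n using Int.induction_on with
  | zero => simp
  | succ i ih => rw [← key]; exact ih
  | pred i ih =>
    rw [key, sub_add_cancel]; exact ih

/-- the two ends of a line which is not the axis -/
theorem ea_line {X : Type} [DecidableEq X] (L : List (X × Bool))
    (hL : FreeGroup.IsCyclicallyReduced L) (hne : L ≠ []) (E : Set (FreeGroup X))
    (hinv : ∀ h : FreeGroup X, h ≠ (FreeGroup.mk L)⁻¹ → (h ∈ E ↔ h * FreeGroup.mk L ∈ E))
    (G A B M : List (X × Bool)) (p q : X × Bool) (hq : L = A ++ q :: B) (hp : L ++ A = M ++ [p])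
    (hGq : FreeGroup.IsReduced (G ++ [q])) (hGp : FreeGroup.IsReduced (G ++ [nv p]))
    (b c : Bool) (hb : Ev E (G ++ [q]) b) (hc : Ev E (G ++ [nv p]) c)
    (hn : ∀ n : ℤ, FreeGroup.mk G ≠ FreeGroup.mk L ^ n * FreeGroup.mk A) : c = b := by
  have hmkL : FreeGroup.mk L = FreeGroup.mk A * FreeGroup.mk (q :: B) := by
    rw [FreeGroup.mul_mk, ← hq]
  have hconst := ea_const (FreeGroup.mk L) E hinv (FreeGroup.mk G * (FreeGroup.mk A)⁻¹) (by
    intro n h
    apply hn (-1 - n)
    have : FreeGroup.mk G = ((FreeGroup.mk L)⁻¹ * (FreeGroup.mk L ^ n)⁻¹) * FreeGroup.mk A := by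
      rw [← h]
      group
    rw [this, sub_eq_add_neg, zpow_add, zpow_neg_one, zpow_neg])
  obtain ⟨k, hk⟩ := hb
  obtain ⟨m, hm⟩ := hc
  have h1 : FreeGroup.mk G * (FreeGroup.mk A)⁻¹ ∈ E ↔ b = true := by
    rw [← hconst (k + 1 : ℕ), ← hk (B ++ pw L k) ?_ ?_]
    · have : FreeGroup.mk G * (FreeGroup.mk A)⁻¹ * FreeGroup.mk L ^ ((k + 1 : ℕ) : ℤ) =
          FreeGroup.mk (G ++ [q] ++ (B ++ pw L k)) := by
        rw [zpow_natCast, pow_succ', ← mk_pw, hmkL]
        simp only [← mul_assoc, inv_mul_cancel_right]
        rw [FreeGroup.mul_mk, FreeGroup.mul_mk]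
        simp
      rw [this]
    · apply FreeGroup.IsReduced.append_overlap hGq _ (by simp)
      have hr : FreeGroup.IsReduced (pw L (k + 1)) := (hL.flatten_replicate (k + 1)).isReduced
      apply isReduced_piece hr
      refine ⟨A, [], ?_⟩
      rw [pw_succ]
      nth_rw 2 [hq]
      simp
    · rw [List.length_append]
      have := pw_length L hne k
      omega
  have h2 : FreeGroup.mk G * (FreeGroup.mk A)⁻¹ ∈ E ↔ c = true := by
    rw [← hconst (-((m + 1 : ℕ) : ℤ)), ← hm (FreeGroup.invRev (pw L m ++ M)) ?_ ?_]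
    · have : FreeGroup.mk G * (FreeGroup.mk A)⁻¹ * FreeGroup.mk L ^ (-((m + 1 : ℕ) : ℤ)) =
          FreeGroup.mk (G ++ [nv p] ++ FreeGroup.invRev (pw L m ++ M)) := by
        have e : [nv p] ++ FreeGroup.invRev (pw L m ++ M) =
            FreeGroup.invRev (pw L (m + 1) ++ A) := by
          rw [pw_succ', List.append_assoc, hp, ← List.append_assoc, FreeGroup.invRev_append]
          simp [FreeGroup.invRev, nv]
        rw [List.append_assoc, e, ← FreeGroup.mul_mk, ← FreeGroup.inv_mk, ← FreeGroup.mul_mk,
          mul_inv_rev, mk_pw, zpow_neg, zpow_natCast, mul_assoc]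
      rw [this]
    · have hr : FreeGroup.IsReduced (pw L (m + 1) ++ A) := by
        have hr' : FreeGroup.IsReduced (pw L (m + 1 + 1)) :=
          (hL.flatten_replicate (m + 1 + 1)).isReduced
        apply isReduced_piece hr'
        refine ⟨[], q :: B, ?_⟩
        rw [pw_succ' L (m + 1)]
        nth_rw 3 [hq]
        simp
      have hr2 := ea_invRev_reduced hr
      have e : [nv p] ++ FreeGroup.invRev (pw L m ++ M) =
          FreeGroup.invRev (pw L (m + 1) ++ A) := by
        rw [pw_succ', List.append_assoc, hp, ← List.append_assoc, FreeGroup.invRev_append]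
        simp [FreeGroup.invRev, nv]
      rw [← e] at hr2
      exact FreeGroup.IsReduced.append_overlap hGp hr2 (by simp)
    · rw [FreeGroup.invRev_length, List.length_append]
      have := pw_length L hne m
      omega
  have h3 := h2.symm.trans h1
  cases b <;> cases c <;> simp_all

/-- the junctions of a cyclic word -/
theorem ea_junction {X : Type*} (L : List (X × Bool)) (hne : L ≠ []) (i : ℕ) (p q : X × Bool)
    (hp : L[i % L.length]? = some p) (hq : L[(i + 1) % L.length]? = some q) :
    ∃ A B M : List (X × Bool), L = A ++ q :: B ∧ L ++ A = M ++ [p] ∧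
      A.length = (i + 1) % L.length := by
  have hl : 0 < L.length := List.length_pos_iff.mpr hne
  have hj : (i + 1) % L.length < L.length := Nat.mod_lt _ hl
  have hi : i % L.length < L.length := Nat.mod_lt _ hl
  obtain ⟨hq1, hq2⟩ := List.getElem?_eq_some_iff.mp hq
  obtain ⟨hp1, hp2⟩ := List.getElem?_eq_some_iff.mp hp
  refine ⟨L.take ((i + 1) % L.length), L.drop ((i + 1) % L.length + 1), ?_⟩
  have e1 : L = L.take ((i + 1) % L.length) ++ q :: L.drop ((i + 1) % L.length + 1) := by
    rw [← hq2, ← List.drop_eq_getElem_cons hq1, List.take_append_drop]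
  have e3 : (L.take ((i + 1) % L.length)).length = (i + 1) % L.length := by
    rw [List.length_take]; omega
  have hcase : (i + 1) % L.length = i % L.length + 1 ∨
      ((i + 1) % L.length = 0 ∧ i % L.length = L.length - 1) := by
    have : (i + 1) % L.length = (i % L.length + 1) % L.length := by
      rw [Nat.mod_add_mod]
    by_cases h : i % L.length + 1 < L.length
    · left; rw [this, Nat.mod_eq_of_lt h]
    · right
      have h2 : i % L.length + 1 = L.length := by omega
      constructor
      · rw [this, h2, Nat.mod_self]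
      · omega
  rcases hcase with h | ⟨h, h'⟩
  · refine ⟨L ++ L.take (i % L.length), e1, ?_, e3⟩
    rw [h, List.take_add_one, hp]
    simp
  · refine ⟨L.dropLast, e1, ?_, e3⟩
    rw [h, List.take_zero, List.append_nil]
    have : L.getLast? = some p := by
      rw [List.getLast?_eq_getElem?, ← h', hp]
    obtain ⟨ys, hys⟩ := List.getLast?_eq_some_iff.mp this
    rw [hys]
    simp

/-- TARGET -/
theorem cut_of_almostInvariant {X : Type} [Fintype X] [DecidableEq X] (L : List (X × Bool))
    (hL : FreeGroup.IsCyclicallyReduced L) (hne : L ≠ []) (E : Set (FreeGroup X))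
    (hfin : ∀ g : FreeGroup X, {h : FreeGroup X | ¬ (h ∈ E ↔ h * g ∈ E)}.Finite)
    (h1 : (1 : FreeGroup X) ∈ E) (hw : (FreeGroup.mk L)⁻¹ ∉ E)
    (hinv : ∀ h : FreeGroup X, h ≠ (FreeGroup.mk L)⁻¹ → (h ∈ E ↔ h * FreeGroup.mk L ∈ E)) :
    L.length = 1 ∨ ∃ (y0 : X × Bool) (κ : X × Bool → Bool),
      (∃ z z', z ≠ y0 ∧ z' ≠ y0 ∧ κ z ≠ κ z') ∧
      ∀ i : ℕ, ∀ p ∈ L[i % L.length]?, ∀ q ∈ L[(i + 1) % L.length]?, nv p ≠ y0 → q ≠ y0 →
        κ (nv p) = κ q := by
  classical
  obtain ⟨n₀, h₀⟩ := ea_far E hfin
  by_cases hcase : ∃ G : List (X × Bool), G ≠ [] ∧ FreeGroup.IsReduced G ∧ ¬ ∃ b, Ev E G b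
  · -- case (a)
    right
    obtain ⟨G₁, hG1, hG2, hG3⟩ := hcase
    obtain ⟨G, hGne, hGr, hGb, hGc⟩ := ea_maximal E n₀ h₀ n₀ G₁ hG1 hG2 hG3 (by omega)
    obtain ⟨G', y, rfl⟩ : ∃ G' y, G = G' ++ [y] :=
      ⟨G.dropLast, G.getLast hGne, (List.dropLast_append_getLast hGne).symm⟩
    have hred : ∀ z, z ≠ nv y → FreeGroup.IsReduced (G' ++ [y] ++ [z]) := fun z hz =>
      (ea_concat G' y z).mpr ⟨hGr, hz⟩
    have hex : ∀ z, ∃ b, FreeGroup.IsReduced (G' ++ [y] ++ [z]) → Ev E (G' ++ [y] ++ [z]) b := by
      intro z
      by_cases hz : FreeGroup.IsReduced (G' ++ [y] ++ [z])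
      · obtain ⟨b, hb⟩ := hGc z hz
        exact ⟨b, fun _ => hb⟩
      · exact ⟨true, fun h => absurd h hz⟩
    choose κ hκ using hex
    refine ⟨nv y, κ, ?_, ?_⟩
    · by_contra hcon
      push Not at hcon
      apply hGb
      refine ⟨κ y, ?_⟩
      have hn : ∀ z, ∃ n : ℕ, FreeGroup.IsReduced (G' ++ [y] ++ [z]) →
          ∀ N : List (X × Bool), FreeGroup.IsReduced (G' ++ [y] ++ [z] ++ N) → n ≤ N.length →
            (FreeGroup.mk (G' ++ [y] ++ [z] ++ N) ∈ E ↔ κ z = true) := by
        intro z
        by_cases hz : FreeGroup.IsReduced (G' ++ [y] ++ [z])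
        · obtain ⟨n, hn⟩ := hκ z hz
          exact ⟨n, fun _ => hn⟩
        · exact ⟨0, fun h => absurd h hz⟩
      choose f hf using hn
      refine ⟨Finset.univ.sup f + 1, fun N hN hlen => ?_⟩
      cases N with
      | nil => simp at hlen
      | cons z N =>
        have e : G' ++ [y] ++ z :: N = G' ++ [y] ++ [z] ++ N := by simp
        rw [e] at hN ⊢
        have hz : FreeGroup.IsReduced (G' ++ [y] ++ [z]) := isReduced_piece hN ⟨[], N, by simp⟩
        have hz' : z ≠ nv y := ((ea_concat G' y z).mp hz).2
        have hle : f z ≤ N.length := by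
          have : f z ≤ Finset.univ.sup f := Finset.le_sup (Finset.mem_univ z)
          rw [List.length_cons] at hlen
          omega
        rw [hf z hz N hN hle, hcon z y hz' (ea_ne_nv y)]
    · intro i p hp q hq hpy hqy
      obtain ⟨A, B, M, e1, e2, -⟩ := ea_junction L hne i p q hp hq
      refine ea_line L hL hne E hinv (G' ++ [y]) A B M p q e1 e2 (hred q hqy) (hred (nv p) hpy)
        (κ q) (κ (nv p)) (hκ q (hred q hqy)) (hκ (nv p) (hred (nv p) hpy)) ?_
      intro n hn
      rcases Int.eq_nat_or_neg n with ⟨k, rfl | rfl⟩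
      · -- `G = L ^ k ++ A`
        have hr : FreeGroup.IsReduced (pw L k ++ A) := by
          have hr' : FreeGroup.IsReduced (pw L (k + 1)) :=
            (hL.flatten_replicate (k + 1)).isReduced
          apply isReduced_piece hr'
          refine ⟨[], q :: B, ?_⟩
          rw [pw_succ' L k]
          nth_rw 3 [e1]
          simp
        rw [zpow_natCast, ← mk_pw, FreeGroup.mul_mk] at hn
        have hG := ea_mk_inj hGr hr hn
        apply hpy
        cases k with
        | zero =>
          -- `G = A`, not empty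
          have hG' : G' ++ [y] = A := by simpa [pw] using hG
          rw [← hG'] at e2
          have : y = p := by
            have := congrArg List.getLast? e2
            simpa using this
          rw [this]
        | succ k =>
          rw [pw_succ', List.append_assoc, e2] at hG
          have : y = p := by
            have := congrArg List.getLast? hG
            simpa using this
          rw [this]
      · cases k with
        | zero =>
          have hr : FreeGroup.IsReduced A := isReduced_piece hL.isReduced ⟨[], q :: B, by rw [e1]; simp⟩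
          have hn' : FreeGroup.mk (G' ++ [y]) = FreeGroup.mk A := by simpa using hn
          have hG' := ea_mk_inj hGr hr hn'
          apply hpy
          rw [← hG'] at e2
          have : y = p := by
            have := congrArg List.getLast? e2
            simpa using this
          rw [this]
        | succ k =>
          have hr : FreeGroup.IsReduced (q :: B ++ pw L k) := by
            have hr' : FreeGroup.IsReduced (pw L (k + 1)) :=
              (hL.flatten_replicate (k + 1)).isReduced
            apply isReduced_piece hr'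
            refine ⟨A, [], ?_⟩
            rw [pw_succ]
            nth_rw 2 [e1]
            simp
          have hr2 := ea_invRev_reduced hr
          have hn2 : FreeGroup.mk (G' ++ [y]) =
              FreeGroup.mk (FreeGroup.invRev (q :: B ++ pw L k)) := by
            rw [hn, ← FreeGroup.inv_mk, ← FreeGroup.mul_mk, mk_pw, zpow_neg, zpow_natCast,
              pow_succ', mul_inv_rev, mul_inv_rev]
            nth_rw 2 [e1]
            rw [← FreeGroup.mul_mk, mul_inv_rev, mul_assoc, mul_assoc, inv_mul_cancel, mul_one]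
          have hG := ea_mk_inj hGr hr2 hn2
          apply hqy
          have : y = nv q := by
            have := congrArg List.getLast? hG
            simpa [FreeGroup.invRev, nv] using this
          rw [this, ea_nv_nv]
  · -- case (b)
    push Not at hcase
    have hex : ∀ z, ∃ b, Ev E ([] ++ [z]) b := fun z => hcase [z] (by simp) (by simp)
    choose κ hκ using hex
    have hl : 0 < L.length := List.length_pos_iff.mpr hne
    have hpow : ∀ k : ℕ, FreeGroup.mk L ^ (k + 1) ≠ 1 := by
      intro k hk
      rw [← mk_pw, FreeGroup.one_eq_mk] at hk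
      have := ea_mk_inj (hL.flatten_replicate (k + 1)).isReduced FreeGroup.IsReduced.nil hk
      have h2 := pw_length L hne (k + 1)
      rw [pw, this] at h2
      simp at h2
    have hposmem : ∀ k : ℕ, FreeGroup.mk L ^ k ∈ E := by
      intro k
      induction k with
      | zero => simpa using h1
      | succ k ih =>
        rw [pow_succ]
        refine (hinv _ ?_).mp ih
        intro h
        apply hpow k
        rw [pow_succ, h, inv_mul_cancel]
    have hnegmem : ∀ k : ℕ, (FreeGroup.mk L ^ (k + 1))⁻¹ ∉ E := by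
      intro k
      induction k with
      | zero => simpa using hw
      | succ k ih =>
        intro h
        apply ih
        have := (hinv _ ?_).mp h
        · rw [pow_succ' _ (k + 1), mul_inv_rev, inv_mul_cancel_right] at this
          exact this
        · intro h2
          rw [inv_inj, pow_succ] at h2
          apply hpow k
          exact mul_eq_right.mp h2
    -- the line through the origin
    have hq0 : ∃ q₀ B, L = [] ++ q₀ :: B := by
      cases L with
      | nil => exact absurd rfl hne
      | cons q B => exact ⟨q, B, rfl⟩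
    obtain ⟨q₀, B₀, eq0⟩ := hq0
    have hp0 : ∃ z M, L ++ [] = M ++ [z] :=
      ⟨L.getLast hne, L.dropLast, by rw [List.append_nil, List.dropLast_append_getLast]⟩
    obtain ⟨z₀, M₀, ez0⟩ := hp0
    have hκq : κ q₀ = true := by
      obtain ⟨n, hn⟩ := hκ q₀
      have e : [] ++ [q₀] ++ (B₀ ++ pw L n) = pw L (n + 1) := by
        rw [pw_succ]; nth_rw 2 [eq0]; simp
      rw [← hn (B₀ ++ pw L n) ?_ ?_, e, mk_pw]
      · exact hposmem _
      · rw [e]; exact (hL.flatten_replicate (n + 1)).isReduced
      · rw [List.length_append]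
        have := pw_length L hne n
        omega
    have hκp : κ (nv z₀) = false := by
      obtain ⟨n, hn⟩ := hκ (nv z₀)
      have e : [] ++ [nv z₀] ++ FreeGroup.invRev (pw L n ++ M₀) =
          FreeGroup.invRev (pw L (n + 1)) := by
        have ez1 : L = M₀ ++ [z₀] := by rw [← ez0, List.append_nil]
        rw [pw_succ', show pw L n ++ L = (pw L n ++ M₀) ++ [z₀] by
          rw [List.append_assoc, ← ez1], FreeGroup.invRev_append (L₁ := pw L n ++ M₀)]
        simp [FreeGroup.invRev, nv]
      have := (hn (FreeGroup.invRev (pw L n ++ M₀)) ?_ ?_).not.mp ?_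
      · simpa using this
      · rw [e]; exact ea_invRev_reduced (hL.flatten_replicate (n + 1)).isReduced
      · rw [FreeGroup.invRev_length, List.length_append]
        have := pw_length L hne n
        omega
      · rw [e, ← FreeGroup.inv_mk, mk_pw]
        exact hnegmem _
    have hjun : ∀ A B M : List (X × Bool), ∀ p q, L = A ++ q :: B → L ++ A = M ++ [p] →
        A ≠ [] → κ (nv p) = κ q := by
      intro A B M p q e1 e2 hA
      refine ea_line L hL hne E hinv [] A B M p q e1 e2 (by simp) (by simp)
        (κ q) (κ (nv p)) (hκ q) (hκ (nv p)) ?_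
      intro n hn
      rcases Int.eq_nat_or_neg n with ⟨k, rfl | rfl⟩
      · have hr : FreeGroup.IsReduced (pw L k ++ A) := by
          have hr' : FreeGroup.IsReduced (pw L (k + 1)) :=
            (hL.flatten_replicate (k + 1)).isReduced
          apply isReduced_piece hr'
          refine ⟨[], q :: B, ?_⟩
          rw [pw_succ' L k]
          nth_rw 3 [e1]
          simp
        rw [zpow_natCast, ← mk_pw, FreeGroup.mul_mk] at hn
        have hG := ea_mk_inj FreeGroup.IsReduced.nil hr hn
        have := (List.append_eq_nil_iff.mp hG.symm).2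
        exact hA this
      · cases k with
        | zero =>
          have hr : FreeGroup.IsReduced A := isReduced_piece hL.isReduced ⟨[], q :: B, by rw [e1]; simp⟩
          have hn' : FreeGroup.mk [] = FreeGroup.mk A := by simpa using hn
          have hG' := ea_mk_inj FreeGroup.IsReduced.nil hr hn'
          exact hA hG'.symm
        | succ k =>
          have hr : FreeGroup.IsReduced (q :: B ++ pw L k) := by
            have hr' : FreeGroup.IsReduced (pw L (k + 1)) :=
              (hL.flatten_replicate (k + 1)).isReduced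
            apply isReduced_piece hr'
            refine ⟨A, [], ?_⟩
            rw [pw_succ]
            nth_rw 2 [e1]
            simp
          have hr2 := ea_invRev_reduced hr
          have hn2 : FreeGroup.mk [] =
              FreeGroup.mk (FreeGroup.invRev (q :: B ++ pw L k)) := by
            rw [hn, ← FreeGroup.inv_mk, ← FreeGroup.mul_mk, mk_pw, zpow_neg, zpow_natCast,
              pow_succ', mul_inv_rev, mul_inv_rev]
            nth_rw 2 [e1]
            rw [← FreeGroup.mul_mk, mul_inv_rev, mul_assoc, mul_assoc, inv_mul_cancel, mul_one]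
          have hG := ea_mk_inj FreeGroup.IsReduced.nil hr2 hn2
          have := congrArg List.length hG
          simp at this
    -- junctions of the statement
    have hj : ∀ (i : ℕ) (p q : X × Bool), L[i % L.length]? = some p →
        L[(i + 1) % L.length]? = some q → nv p ≠ nv z₀ ∨ q ≠ q₀ → κ (nv p) = κ q := by
      intro i p q hp hq hor
      obtain ⟨A, B, M, e1, e2, -⟩ := ea_junction L hne i p q hp hq
      by_cases hA : A = []
      · exfalso
        subst hA
        have eq : q = q₀ := by
          have := e1.symm.trans eq0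
          simp at this
          exact this.1
        have ep : p = z₀ := by
          have := congrArg List.getLast? (e2.symm.trans ez0)
          simpa using this
        rcases hor with h | h
        · exact h (by rw [ep])
        · exact h eq
      · exact hjun A B M p q e1 e2 hA
    by_cases hz1 : ∃ z, z ≠ nv z₀ ∧ κ z = false
    · right
      obtain ⟨z, hz, hzf⟩ := hz1
      refine ⟨nv z₀, κ, ⟨z, q₀, hz, ?_, ?_⟩, ?_⟩
      · intro h; rw [← h, hκq] at hκp; exact absurd hκp (by simp)
      · rw [hzf, hκq]; simp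
      · intro i p hp q hq hpy hqy
        exact hj i p q hp hq (Or.inl hpy)
    by_cases hz2 : ∃ z, z ≠ q₀ ∧ κ z = true
    · right
      obtain ⟨z, hz, hzf⟩ := hz2
      refine ⟨q₀, κ, ⟨z, nv z₀, hz, ?_, ?_⟩, ?_⟩
      · intro h; rw [h, hκq] at hκp; exact absurd hκp (by simp)
      · rw [hzf, hκp]; simp
      · intro i p hp q hq hpy hqy
        exact hj i p q hp hq (Or.inr hqy)
    left
    push Not at hz1 hz2
    have htwo : ∀ z, z = nv z₀ ∨ z = q₀ := by
      intro z
      by_contra hcon
      push Not at hcon
      exact (hz1 z hcon.1) (by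
        have := hz2 z hcon.2
        simpa using this)
    have hnq : nv q₀ = nv z₀ := by
      rcases htwo (nv q₀) with h | h
      · exact h
      · exact absurd h.symm (ea_ne_nv q₀)
    by_contra hlen
    have hl2 : 2 ≤ L.length := by omega
    cases hB : B₀ with
    | nil => rw [eq0, hB] at hl2; simp at hl2
    | cons z₁ B₁ =>
      rw [hB] at eq0
      have hr := hL.isReduced
      rw [eq0, List.nil_append, FreeGroup.isReduced_cons_cons] at hr
      have hz : z₁ ≠ nv q₀ := (ea_rel q₀ z₁).mp hr.1
      have hz' : z₁ = q₀ := by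
        rcases htwo z₁ with h | h
        · exact absurd (h.trans hnq.symm) hz
        · exact h
      have := hjun [q₀] B₁ L q₀ z₁ (by rw [eq0]; simp) rfl (by simp)
      rw [hz', hκq, hnq, hκp] at this
      exact absurd this (by simp)

end Pool.Agent.Helper166_PQ
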