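import Mathlib
import Pool.Agent.Helper166_PQ.Defs
import Pool.Agent.Helper166_PQ.Letters

/-!
# Closed subspaces of the group algebra of a free group, and removing leaves
-/

set_option autoImplicit false

namespace Pool.Agent.Helper166_PQ

open Module

section FreeGroupAlgebra

variable {K : Type*} [Field K] {G : Type*} [Group G]

/-- `R` is supported on `T` and closed under right multiplications by letters inside `T` -/
def Closed {X : Type*} (T : Set (FreeGroup X)) (R : Submodule K (MonoidAlgebra K (FreeGroup X))) : Prop :=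
  (∀ a ∈ R, SuppOn T a) ∧ ∀ a ∈ R, ∀ y : X × Bool, SuppOn T (mr (FreeGroup.mk [y]) a) →
    mr (FreeGroup.mk [y]) a ∈ R

/-- the elements supported on `T` -/
def KT (K : Type*) [Field K] {G : Type*} [Group G] (T : Set G) : Submodule K (MonoidAlgebra K G) where
  carrier := {a | SuppOn T a}
  zero_mem' := fun g hg => absurd (by simp) hg
  add_mem' := fun {a b} ha hb g hg => by
    by_contra h
    exact hg (by
      have h1 : a.coeff g = 0 := by by_contra h'; exact h (ha g h')
      have h2 : b.coeff g = 0 := by by_contra h'; exact h (hb g h')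
      simp [h1, h2])
  smul_mem' := fun c a ha g hg => by
    by_contra h
    exact hg (by
      have h1 : a.coeff g = 0 := by by_contra h'; exact h (ha g h')
      simp [h1])

end FreeGroupAlgebra

section Aux

variable {K : Type*} [Field K] {G : Type*} [Group G]

lemma aux_coeff_mr (g h : G) (a : MonoidAlgebra K G) : (mr g a).coeff h = a.coeff (h * g⁻¹) := by
  simp [mr]

lemma aux_mr_mr (g h : G) (a : MonoidAlgebra K G) : mr h (mr g a) = mr (g * h) a := by
  simp [mr, mul_assoc]

lemma aux_mr_one (a : MonoidAlgebra K G) : mr (1 : G) a = a := by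
  have : (MonoidAlgebra.single (1 : G) (1 : K)) = 1 := rfl
  simp [mr, this]

lemma aux_mr_inv_mr (g : G) (a : MonoidAlgebra K G) : mr g (mr g⁻¹ a) = a := by
  rw [aux_mr_mr, inv_mul_cancel, aux_mr_one]

lemma aux_mr_mr_inv (g : G) (a : MonoidAlgebra K G) : mr g⁻¹ (mr g a) = a := by
  rw [aux_mr_mr, mul_inv_cancel, aux_mr_one]

lemma aux_mr_mem_rI (S : Set (MonoidAlgebra K G)) (g : G) (a : MonoidAlgebra K G) (ha : a ∈ rI S) :
    mr g a ∈ rI S := by
  have := (rI S).smul_mem (MulOpposite.op (MonoidAlgebra.single g (1 : K))) ha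
  simpa [mr] using this

lemma aux_smul_mem_rI (S : Set (MonoidAlgebra K G)) (c : K) (a : MonoidAlgebra K G) (ha : a ∈ rI S) :
    c • a ∈ rI S := by
  have := (rI S).smul_mem (MulOpposite.op (c • (1 : MonoidAlgebra K G))) ha
  simpa using this

lemma aux_mem_KT (T : Set G) (a : MonoidAlgebra K G) : a ∈ KT K T ↔ SuppOn T a := Iff.rfl

instance aux_fin_KT (T : Finset G) : FiniteDimensional K (KT K (T : Set G)) := by
  let f : KT K (T : Set G) →ₗ[K] (T → K) :=
    { toFun := fun a t => (a : MonoidAlgebra K G).coeff t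
      map_add' := fun a b => by ext; simp
      map_smul' := fun c a => by ext; simp }
  apply FiniteDimensional.of_injective f
  intro a b hab
  apply Subtype.ext
  apply MonoidAlgebra.coeff_injective
  ext g
  by_cases hg : g ∈ T
  · exact congrFun hab ⟨g, hg⟩
  · have h1 : (a : MonoidAlgebra K G).coeff g = 0 := by
      by_contra h
      exact hg (a.2 g h)
    have h2 : (b : MonoidAlgebra K G).coeff g = 0 := by
      by_contra h
      exact hg (b.2 g h)
    rw [h1, h2]

lemma aux_fin_of_le (T : Finset G) (R : Submodule K (MonoidAlgebra K G)) (h : R ≤ KT K (T : Set G)) :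
    FiniteDimensional K R :=
  Submodule.finiteDimensional_of_le h

lemma aux_sup_span {V : Type*} [AddCommGroup V] [Module K V] (R : Submodule K V) (b : V)
    [FiniteDimensional K R] (hb : b ∉ R) :
    finrank K (R ⊔ Submodule.span K {b} : Submodule K V) = finrank K R + 1 := by
  have h1 := Submodule.finrank_sup_add_finrank_inf_eq R (Submodule.span K {b})
  have h2 : R ⊓ Submodule.span K {b} = ⊥ := by
    rw [eq_bot_iff]
    rintro x ⟨hx1, hx2⟩
    obtain ⟨c, rfl⟩ := Submodule.mem_span_singleton.1 hx2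
    by_cases hc : c = 0
    · simp [hc]
    · exfalso
      apply hb
      have := R.smul_mem c⁻¹ hx1
      rwa [smul_smul, inv_mul_cancel₀ hc, one_smul] at this
  have h3 : b ≠ 0 := by
    rintro rfl
    exact hb R.zero_mem
  rw [h2, finrank_bot, add_zero, finrank_span_singleton h3] at h1
  exact h1

lemma aux_ker {V : Type*} [AddCommGroup V] [Module K V] (W W₁ : Submodule K V) (f : V →ₗ[K] K)
    [FiniteDimensional K W] (h : ∀ a, a ∈ W₁ ↔ a ∈ W ∧ f a = 0) (w : V) (hw : w ∈ W) (hfw : f w ≠ 0) :
    finrank K W = finrank K W₁ + 1 ∧ W = W₁ ⊔ Submodule.span K {w} := by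
  have hle : W₁ ≤ W := fun a ha => ((h a).1 ha).1
  have hfin : FiniteDimensional K W₁ := Submodule.finiteDimensional_of_le hle
  have hw1 : w ∉ W₁ := fun hc => hfw ((h w).1 hc).2
  have hEq : W = W₁ ⊔ Submodule.span K {w} := by
    apply le_antisymm
    · intro a ha
      rw [Submodule.mem_sup]
      refine ⟨a - (f a / f w) • w, ?_, (f a / f w) • w, Submodule.smul_mem _ _ (Submodule.mem_span_singleton_self w), by abel⟩
      rw [h]
      refine ⟨W.sub_mem ha (W.smul_mem _ hw), ?_⟩
      simp [hfw]
    · rw [sup_le_iff]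
      refine ⟨hle, ?_⟩
      rw [Submodule.span_singleton_le_iff_mem]
      exact hw
  refine ⟨?_, hEq⟩
  rw [hEq]
  exact aux_sup_span W₁ w hw1

lemma aux_Ex_mono {R R' : Submodule K (MonoidAlgebra K G)} (h : R ≤ R') (g : G) : Ex R g ≤ Ex R' g :=
  fun _ ha => ⟨h ha.1, h ha.2⟩

lemma aux_mem_Ex (R : Submodule K (MonoidAlgebra K G)) (g : G) (a : MonoidAlgebra K G) :
    a ∈ Ex R g ↔ a ∈ R ∧ mr g a ∈ R := Iff.rfl

end Aux

section AuxFree

set_option linter.unusedSectionVars false

variable {K : Type*} [Field K] {X : Type*} [Fintype X] [DecidableEq X]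

lemma aux_mk_true (x : X) : (FreeGroup.mk [(x, true)] : FreeGroup X) = FreeGroup.of x := rfl

lemma aux_mk_false (x : X) : (FreeGroup.mk [(x, false)] : FreeGroup X) = (FreeGroup.of x)⁻¹ := rfl

lemma aux_extend (T : Finset (FreeGroup X)) (R : Submodule K (MonoidAlgebra K (FreeGroup X)))
    (hR : R ≤ KT K (T : Set (FreeGroup X))) (hnc : ¬ Closed (T : Set (FreeGroup X)) R) :
    ∃ R' : Submodule K (MonoidAlgebra K (FreeGroup X)), R ≤ R' ∧ R' ≤ KT K (T : Set (FreeGroup X)) ∧
      finrank K R' = finrank K R + 1 ∧ hh R' ≤ hh R ∧ ∀ a ∈ R', a ∈ rI (R : Set (MonoidAlgebra K (FreeGroup X))) := by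
  have hfin := aux_fin_of_le T R hR
  have : ∃ a ∈ R, ∃ y : X × Bool, SuppOn (T : Set (FreeGroup X)) (mr (FreeGroup.mk [y]) a) ∧
      mr (FreeGroup.mk [y]) a ∉ R := by
    by_contra hcon
    push Not at hcon
    exact hnc ⟨fun a ha => hR ha, hcon⟩
  obtain ⟨a, ha, y, hs, hb⟩ := this
  set b := mr (FreeGroup.mk [y]) a with hbdef
  set R' := R ⊔ Submodule.span K {b} with hR'
  have hbR' : b ∈ R' := (le_sup_right : _ ≤ R') (Submodule.mem_span_singleton_self b)
  have hle : R ≤ R' := le_sup_left
  have hR'T : R' ≤ KT K (T : Set (FreeGroup X)) := by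
    rw [hR', sup_le_iff, Submodule.span_singleton_le_iff_mem]
    exact ⟨hR, hs⟩
  have hfin' := aux_fin_of_le T R' hR'T
  refine ⟨R', hle, hR'T, aux_sup_span R b hb, ?_, ?_⟩
  · have hfr := aux_sup_span R b hb
    have hkey : (∑ x : X, (finrank K (Ex R (FreeGroup.of x)) : ℤ)) + 1 ≤
        ∑ x : X, (finrank K (Ex R' (FreeGroup.of x)) : ℤ) := by
      have hlt : Ex R (FreeGroup.of y.1) < Ex R' (FreeGroup.of y.1) := by
        refine lt_of_le_of_ne (aux_Ex_mono hle _) ?_
        intro heq
        obtain ⟨x, c⟩ := y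
        cases c
        · -- inverse letter
          rw [aux_mk_false] at hbdef
          have h1 : b ∈ Ex R' (FreeGroup.of x) := by
            rw [aux_mem_Ex]
            refine ⟨hbR', ?_⟩
            rw [hbdef, aux_mr_inv_mr]
            exact hle ha
          rw [← heq] at h1
          exact hb h1.1
        · rw [aux_mk_true] at hbdef
          have h1 : a ∈ Ex R' (FreeGroup.of x) := by
            rw [aux_mem_Ex]
            exact ⟨hle ha, hbdef ▸ hbR'⟩
          rw [← heq] at h1
          exact hb (hbdef ▸ h1.2)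
      have hfinEx : ∀ x : X, FiniteDimensional K (Ex R' (FreeGroup.of x)) := fun x =>
        Submodule.finiteDimensional_of_le (inf_le_left : Ex R' (FreeGroup.of x) ≤ R')
      have h2 : ∀ x : X, (finrank K (Ex R (FreeGroup.of x)) : ℤ) + (if x = y.1 then 1 else 0) ≤
          finrank K (Ex R' (FreeGroup.of x)) := by
        intro x
        have := hfinEx x
        split_ifs with hx
        · subst hx
          have := Submodule.finrank_lt_finrank_of_lt hlt
          omega
        · have := Submodule.finrank_mono (aux_Ex_mono hle (FreeGroup.of x))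
          omega
      have h3 := Finset.sum_le_sum (s := Finset.univ) (fun x _ => h2 x)
      rw [Finset.sum_add_distrib] at h3
      simpa using h3
    unfold hh
    rw [hfr]
    push_cast
    linarith
  · intro c hc
    rw [hR', Submodule.mem_sup] at hc
    obtain ⟨u, hu, v, hv, rfl⟩ := hc
    obtain ⟨k, rfl⟩ := Submodule.mem_span_singleton.1 hv
    apply Submodule.add_mem
    · exact Submodule.subset_span hu
    · apply aux_smul_mem_rI
      exact aux_mr_mem_rI _ _ _ (Submodule.subset_span ha)

lemma aux_rI_trans {A : Type*} [Ring A] (S S' : Set A) (h : ∀ a ∈ S, a ∈ rI S') (a : A) (ha : a ∈ rI S) :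
    a ∈ rI S' := by
  have : rI S ≤ rI S' := Submodule.span_le.2 h
  exact this ha

lemma aux_closure (T : Finset (FreeGroup X)) (n : ℕ) :
    ∀ R : Submodule K (MonoidAlgebra K (FreeGroup X)), R ≤ KT K (T : Set (FreeGroup X)) →
      finrank K (KT K (T : Set (FreeGroup X))) ≤ finrank K R + n →
      ∃ R' : Submodule K (MonoidAlgebra K (FreeGroup X)), R ≤ R' ∧ Closed (T : Set (FreeGroup X)) R' ∧
      (∀ a ∈ R', a ∈ rI (R : Set (MonoidAlgebra K (FreeGroup X)))) ∧ hh R' ≤ hh R := by
  induction n with
  | zero =>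
    intro R hR hfr
    by_cases hc : Closed (T : Set (FreeGroup X)) R
    · exact ⟨R, le_rfl, hc, fun a ha => Submodule.subset_span ha, le_rfl⟩
    · obtain ⟨R', h1, h2, h3, h4, h5⟩ := aux_extend T R hR hc
      have := Submodule.finrank_mono h2
      omega
  | succ n ih =>
    intro R hR hfr
    by_cases hc : Closed (T : Set (FreeGroup X)) R
    · exact ⟨R, le_rfl, hc, fun a ha => Submodule.subset_span ha, le_rfl⟩
    · obtain ⟨R', h1, h2, h3, h4, h5⟩ := aux_extend T R hR hc
      obtain ⟨R'', g1, g2, g3, g4⟩ := ih R' h2 (by omega)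
      exact ⟨R'', h1.trans g1, g2, fun a ha => aux_rI_trans _ _ h5 a (g3 a ha), g4.trans h4⟩

/-- neighbours inside the tree of a leaf -/
lemma aux_neighbour (T : Finset (FreeGroup X)) (t : FreeGroup X)
    (hnc : ∀ z : X × Bool, ∀ g ∈ T, g.toWord ≠ t.toWord ++ [z]) (z : X × Bool)
    (h : t * FreeGroup.mk [z] ∈ T) : ∃ L, t.toWord = L ++ [(z.1, !z.2)] := by
  rcases List.eq_nil_or_concat t.toWord with h0 | ⟨L, w, hw⟩
  · exfalso
    apply hnc z _ h
    rw [FreeGroup.toWord_eq_nil_iff] at h0
    subst h0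
    simp [FreeGroup.toWord_mk]
  · rw [List.concat_eq_append] at hw
    by_cases hwz : w = (z.1, !z.2)
    · exact ⟨L, by rw [hw, hwz]⟩
    · exfalso
      apply hnc z _ h
      rw [FreeGroup.toWord_mul, FreeGroup.toWord_mk, FreeGroup.reduce_singleton]
      apply FreeGroup.IsReduced.reduce_eq
      have h1 : FreeGroup.IsReduced t.toWord := FreeGroup.isReduced_toWord
      rw [hw] at h1 ⊢
      have h2 : FreeGroup.IsReduced ([w] ++ [z]) := by
        simp only [List.singleton_append, FreeGroup.isReduced_cons_cons, FreeGroup.IsReduced.singleton, and_true]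
        intro h3
        by_contra h4
        apply hwz
        ext
        · exact h3
        · simp only
          cases hb : w.2 <;> cases hb' : z.2 <;> simp_all
      exact FreeGroup.IsReduced.append_overlap h1 h2 (by simp)

/-- coefficient functional -/
noncomputable def aux_cf (t : FreeGroup X) : MonoidAlgebra K (FreeGroup X) →ₗ[K] K where
  toFun a := a.coeff t
  map_add' a b := by simp
  map_smul' c a := by simp

lemma aux_cf_apply (t : FreeGroup X) (a : MonoidAlgebra K (FreeGroup X)) : aux_cf t a = a.coeff t := rfl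

lemma aux_step (T : Finset (FreeGroup X)) (t : FreeGroup X)
    (hnc : ∀ z : X × Bool, ∀ g ∈ T, g.toWord ≠ t.toWord ++ [z])
    (R : Submodule K (MonoidAlgebra K (FreeGroup X))) (hR : Closed (T : Set (FreeGroup X)) R) :
    ∃ s : Finset (MonoidAlgebra K (FreeGroup X)), (∀ a ∈ s, a ∈ R) ∧
      (s.card : ℤ) + hh (R ⊓ KT K ((T.erase t : Finset (FreeGroup X)) : Set (FreeGroup X))) ≤ hh R ∧
      ∀ a ∈ R, a ∈ rI (((R ⊓ KT K ((T.erase t : Finset (FreeGroup X)) : Set (FreeGroup X)) : Submodule K (MonoidAlgebra K (FreeGroup X))) :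
        Set (MonoidAlgebra K (FreeGroup X))) ∪ (s : Set (MonoidAlgebra K (FreeGroup X)))) := by
  classical
  have hRT : R ≤ KT K (T : Set (FreeGroup X)) := fun a ha => hR.1 a ha
  have hfin := aux_fin_of_le T R hRT
  set R₁ := R ⊓ KT K ((T.erase t : Finset (FreeGroup X)) : Set (FreeGroup X)) with hR₁
  have hle : R₁ ≤ R := inf_le_left
  have hmem : ∀ a, a ∈ R₁ ↔ a ∈ R ∧ aux_cf t a = 0 := by
    intro a
    constructor
    · rintro ⟨h1, h2⟩
      refine ⟨h1, ?_⟩
      by_contra h
      have := h2 t h
      simp at this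
    · rintro ⟨h1, h2⟩
      refine ⟨h1, ?_⟩
      intro g hg
      have hgT := hR.1 a h1 g hg
      rw [Finset.coe_erase]
      refine ⟨hgT, ?_⟩
      intro hgt
      rw [Set.mem_singleton_iff] at hgt
      subst hgt
      exact hg h2
  have hfin1 : FiniteDimensional K R₁ := Submodule.finiteDimensional_of_le hle
  by_cases hall : ∀ a ∈ R, aux_cf t a = 0
  · have heq : R₁ = R := le_antisymm hle (fun a ha => (hmem a).2 ⟨ha, hall a ha⟩)
    refine ⟨∅, by simp, by simp [heq], ?_⟩
    intro a ha
    rw [heq]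
    exact Submodule.subset_span (Or.inl ha)
  · push Not at hall
    obtain ⟨r, hr, hr0⟩ := hall
    obtain ⟨hfr, hspan⟩ := aux_ker R R₁ (aux_cf t) hmem r hr hr0
    -- analysis of Ex
    have hA : ∀ x : X, ∀ a ∈ Ex R (FreeGroup.of x), aux_cf t a ≠ 0 → ∃ L, t.toWord = L ++ [(x, false)] := by
      intro x a ha h0
      have h1 : (mr (FreeGroup.of x) a).coeff (t * FreeGroup.of x) ≠ 0 := by
        rw [aux_coeff_mr, mul_inv_cancel_right]
        exact h0
      have h2 := hR.1 _ ha.2 _ h1
      have h3 := aux_neighbour T t hnc (x, true) (by rw [aux_mk_true]; exact h2)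
      simpa using h3
    have hB : ∀ x : X, ∀ a ∈ Ex R (FreeGroup.of x), aux_cf t (mr (FreeGroup.of x) a) ≠ 0 →
        ∃ L, t.toWord = L ++ [(x, true)] := by
      intro x a ha h0
      have h1 : a.coeff (t * (FreeGroup.of x)⁻¹) ≠ 0 := by
        rw [aux_cf_apply, aux_coeff_mr] at h0
        exact h0
      have h2 := hR.1 _ ha.1 _ h1
      have h3 := aux_neighbour T t hnc (x, false) (by rw [aux_mk_false]; exact h2)
      simpa using h3
    have hlast : ∀ (L L' : List (X × Bool)) (y y' : X × Bool), t.toWord = L ++ [y] → t.toWord = L' ++ [y'] → y = y' := by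
      intro L L' y y' h1 h2
      rw [h1] at h2
      exact (List.append_inj' h2 rfl).2 |> fun h => by simpa using h
    have hmemEx : ∀ x : X, ∀ a, a ∈ Ex R₁ (FreeGroup.of x) ↔ a ∈ Ex R (FreeGroup.of x) ∧ aux_cf t a = 0 ∧
        aux_cf t (mr (FreeGroup.of x) a) = 0 := by
      intro x a
      rw [aux_mem_Ex, aux_mem_Ex, hmem, hmem]
      tauto
    by_cases hEx : ∀ x : X, Ex R₁ (FreeGroup.of x) = Ex R (FreeGroup.of x)
    · refine ⟨{r}, by simpa using hr, ?_, ?_⟩
      · have hsum : (∑ x : X, (finrank K (Ex R₁ (FreeGroup.of x)) : ℤ)) =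
            ∑ x : X, (finrank K (Ex R (FreeGroup.of x)) : ℤ) :=
          Finset.sum_congr rfl (fun x _ => by rw [hEx x])
        unfold hh
        rw [hsum, hfr, Finset.card_singleton]
        push_cast
        linarith
      · intro a ha
        rw [hspan, Submodule.mem_sup] at ha
        obtain ⟨u, hu, v, hv, rfl⟩ := ha
        obtain ⟨k, rfl⟩ := Submodule.mem_span_singleton.1 hv
        apply Submodule.add_mem
        · exact Submodule.subset_span (Or.inl hu)
        · apply aux_smul_mem_rI
          exact Submodule.subset_span (Or.inr (by simp))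
    · push Not at hEx
      obtain ⟨x₀, hx₀⟩ := hEx
      -- an element of Ex R x₀ not in Ex R₁ x₀
      have hex : ∃ a ∈ Ex R (FreeGroup.of x₀), a ∉ Ex R₁ (FreeGroup.of x₀) := by
        by_contra hcon
        push Not at hcon
        exact hx₀ (le_antisymm (aux_Ex_mono hle _) hcon)
      obtain ⟨a, ha, ha'⟩ := hex
      have hnz : aux_cf t a ≠ 0 ∨ aux_cf t (mr (FreeGroup.of x₀) a) ≠ 0 := by
        by_contra hcon
        push Not at hcon
        exact ha' ((hmemEx x₀ a).2 ⟨ha, hcon.1, hcon.2⟩)
      have hx₀last : ∃ L b, t.toWord = L ++ [(x₀, b)] := by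
        rcases hnz with h | h
        · obtain ⟨L, hL⟩ := hA x₀ a ha h
          exact ⟨L, _, hL⟩
        · obtain ⟨L, hL⟩ := hB x₀ a ha h
          exact ⟨L, _, hL⟩
      obtain ⟨L₀, b₀, hL₀⟩ := hx₀last
      have hother : ∀ x : X, x ≠ x₀ → Ex R₁ (FreeGroup.of x) = Ex R (FreeGroup.of x) := by
        intro x hx
        refine le_antisymm (aux_Ex_mono hle _) ?_
        intro c hc
        rw [hmemEx]
        refine ⟨hc, ?_, ?_⟩
        · by_contra h
          obtain ⟨L, hL⟩ := hA x c hc h
          have := hlast _ _ _ _ hL hL₀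
          exact hx (congrArg Prod.fst this)
        · by_contra h
          obtain ⟨L, hL⟩ := hB x c hc h
          have := hlast _ _ _ _ hL hL₀
          exact hx (congrArg Prod.fst this)
      have hfinEx : ∀ x : X, FiniteDimensional K (Ex R (FreeGroup.of x)) := fun x =>
        Submodule.finiteDimensional_of_le (inf_le_left : Ex R (FreeGroup.of x) ≤ R)
      have hfE := hfinEx x₀
      -- the functional
      let ff : MonoidAlgebra K (FreeGroup X) →ₗ[K] K :=
        aux_cf t + (aux_cf t).comp (mr (FreeGroup.of x₀))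
      have hff : ∀ c, ff c = aux_cf t c + aux_cf t (mr (FreeGroup.of x₀) c) := fun c => rfl
      have hfun : ∀ c, c ∈ Ex R₁ (FreeGroup.of x₀) ↔ c ∈ Ex R (FreeGroup.of x₀) ∧ ff c = 0 := by
        intro c
        rw [hmemEx, hff]
        constructor
        · rintro ⟨h1, h2, h3⟩
          exact ⟨h1, by rw [h2, h3, add_zero]⟩
        · rintro ⟨h1, h2⟩
          by_cases h3 : aux_cf t c = 0
          · rw [h3, zero_add] at h2
            exact ⟨h1, h3, h2⟩
          · by_cases h4 : aux_cf t (mr (FreeGroup.of x₀) c) = 0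
            · rw [h4, add_zero] at h2
              exact absurd h2 h3
            · exfalso
              obtain ⟨L, hL⟩ := hA x₀ c h1 h3
              obtain ⟨L', hL'⟩ := hB x₀ c h1 h4
              have := hlast _ _ _ _ hL hL'
              simp at this
      have hfa : ff a ≠ 0 := by
        intro h
        exact ha' ((hfun a).2 ⟨ha, h⟩)
      obtain ⟨hfrE, -⟩ := aux_ker (Ex R (FreeGroup.of x₀)) (Ex R₁ (FreeGroup.of x₀)) _ hfun a ha hfa
      -- an element of R \ R₁ in rI R₁
      have hel : ∃ c ∈ R, aux_cf t c ≠ 0 ∧ c ∈ rI (R₁ : Set (MonoidAlgebra K (FreeGroup X))) := by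
        by_cases h3 : aux_cf t a = 0
        · have h4 : aux_cf t (mr (FreeGroup.of x₀) a) ≠ 0 := by
            rcases hnz with h | h
            · exact absurd h3 h
            · exact h
          refine ⟨mr (FreeGroup.of x₀) a, ha.2, h4, ?_⟩
          exact aux_mr_mem_rI _ _ _ (Submodule.subset_span ((hmem a).2 ⟨ha.1, h3⟩))
        · have h4 : aux_cf t (mr (FreeGroup.of x₀) a) = 0 := by
            by_contra h4
            obtain ⟨L, hL⟩ := hA x₀ a ha h3
            obtain ⟨L', hL'⟩ := hB x₀ a ha h4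
            have := hlast _ _ _ _ hL hL'
            simp at this
          refine ⟨a, ha.1, h3, ?_⟩
          have h5 : mr (FreeGroup.of x₀)⁻¹ (mr (FreeGroup.of x₀) a) ∈ rI (R₁ : Set (MonoidAlgebra K (FreeGroup X))) :=
            aux_mr_mem_rI _ _ _ (Submodule.subset_span ((hmem _).2 ⟨ha.2, h4⟩))
          rwa [aux_mr_mr_inv] at h5
      obtain ⟨c, hc, hc0, hcI⟩ := hel
      obtain ⟨-, hspan'⟩ := aux_ker R R₁ (aux_cf t) hmem c hc hc0
      refine ⟨∅, by simp, ?_, ?_⟩
      · have hsum : (∑ x : X, (finrank K (Ex R (FreeGroup.of x)) : ℤ)) ≤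
            (∑ x : X, (finrank K (Ex R₁ (FreeGroup.of x)) : ℤ)) + 1 := by
          have h2 : ∀ x : X, (finrank K (Ex R (FreeGroup.of x)) : ℤ) ≤
              finrank K (Ex R₁ (FreeGroup.of x)) + (if x = x₀ then 1 else 0) := by
            intro x
            split_ifs with hx
            · subst hx
              omega
            · rw [hother x hx]
              omega
          have h3 := Finset.sum_le_sum (s := Finset.univ) (fun x _ => h2 x)
          rw [Finset.sum_add_distrib] at h3
          simpa using h3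
        unfold hh
        rw [hfr]
        simp only [Finset.card_empty]
        push_cast
        linarith
      · intro d hd
        rw [hspan', Submodule.mem_sup] at hd
        obtain ⟨u, hu, v, hv, rfl⟩ := hd
        obtain ⟨k, rfl⟩ := Submodule.mem_span_singleton.1 hv
        simp only [Finset.coe_empty, Set.union_empty]
        apply Submodule.add_mem
        · exact Submodule.subset_span hu
        · exact aux_smul_mem_rI _ _ _ hcI

lemma aux_leaf (T' : Finset (FreeGroup X)) (hT' : PrefixClosed T') (n : ℕ) :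
    ∀ T : Finset (FreeGroup X), PrefixClosed T → T' ⊆ T → (T \ T').card = n →
    ∀ R : Submodule K (MonoidAlgebra K (FreeGroup X)), Closed (T : Set (FreeGroup X)) R →
    ∃ t : Finset (MonoidAlgebra K (FreeGroup X)), (∀ a ∈ t, a ∈ R) ∧
      (t.card : ℤ) + hh (R ⊓ KT K (T' : Set (FreeGroup X))) ≤ hh R ∧
      ∀ a ∈ R, a ∈ rI (((R ⊓ KT K (T' : Set (FreeGroup X)) : Submodule K (MonoidAlgebra K (FreeGroup X))) :
        Set (MonoidAlgebra K (FreeGroup X))) ∪ (t : Set (MonoidAlgebra K (FreeGroup X)))) := by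
  classical
  induction n with
  | zero =>
    intro T hT hTT hcard R hR
    have hTeq : T = T' := by
      rw [Finset.card_eq_zero, Finset.sdiff_eq_empty_iff_subset] at hcard
      exact Finset.Subset.antisymm hcard hTT
    subst hTeq
    have hRT : R ⊓ KT K (T : Set (FreeGroup X)) = R := inf_eq_left.2 (fun a ha => hR.1 a ha)
    refine ⟨∅, by simp, by simp [hRT], ?_⟩
    intro a ha
    rw [hRT]
    exact Submodule.subset_span (Or.inl ha)
  | succ n ih =>
    intro T hT hTT hcard R hR
    have hne : (T \ T').Nonempty := by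
      rw [← Finset.card_pos]; omega
    obtain ⟨t, ht, hmax⟩ := Finset.exists_max_image (T \ T') FreeGroup.norm hne
    rw [Finset.mem_sdiff] at ht
    have hnc : ∀ z : X × Bool, ∀ g ∈ T, g.toWord ≠ t.toWord ++ [z] := by
      intro z g hg heq
      by_cases hg' : g ∈ T'
      · have := hT' g hg' _ _ heq
        rw [FreeGroup.mk_toWord] at this
        exact ht.2 this
      · have h1 := hmax g (Finset.mem_sdiff.2 ⟨hg, hg'⟩)
        unfold FreeGroup.norm at h1
        rw [heq] at h1
        simp at h1
    have hT1 : PrefixClosed (T.erase t) := by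
      intro g hg L y hL
      have hg1 := Finset.mem_of_mem_erase hg
      rw [Finset.mem_erase]
      refine ⟨?_, hT g hg1 L y hL⟩
      intro heq
      apply hnc y g hg1
      rw [hL, ← heq, FreeGroup.toWord_mk]
      have h1 : FreeGroup.IsReduced L := by
        have h2 : FreeGroup.IsReduced g.toWord := FreeGroup.isReduced_toWord
        rw [hL] at h2
        exact isReduced_piece h2 ⟨[], [y], by simp⟩
      rw [h1.reduce_eq]
    have hTT1 : T' ⊆ T.erase t := by
      intro g hg
      rw [Finset.mem_erase]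
      refine ⟨?_, hTT hg⟩
      rintro rfl
      exact ht.2 hg
    have hcard1 : (T.erase t \ T').card = n := by
      rw [Finset.erase_sdiff_comm, Finset.card_erase_of_mem (Finset.mem_sdiff.2 ht), hcard]
      rfl
    set R₁ := R ⊓ KT K ((T.erase t : Finset (FreeGroup X)) : Set (FreeGroup X)) with hR₁
    have hR₁c : Closed ((T.erase t : Finset (FreeGroup X)) : Set (FreeGroup X)) R₁ := by
      refine ⟨fun a ha => ha.2, ?_⟩
      intro a ha y hy
      refine ⟨?_, hy⟩
      apply hR.2 a ha.1 y
      intro g hg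
      have := hy g hg
      rw [Finset.coe_erase] at this
      exact this.1
    have hinf : R₁ ⊓ KT K (T' : Set (FreeGroup X)) = R ⊓ KT K (T' : Set (FreeGroup X)) := by
      apply le_antisymm
      · rintro a ⟨h1, h2⟩
        exact ⟨h1.1, h2⟩
      · rintro a ⟨h1, h2⟩
        exact ⟨⟨h1, fun g hg => by exact_mod_cast hTT1 (by exact_mod_cast h2 g hg)⟩, h2⟩
    obtain ⟨t₁, h1, h2, h3⟩ := ih (T.erase t) hT1 hTT1 hcard1 R₁ hR₁c
    obtain ⟨s, g1, g2, g3⟩ := aux_step T t hnc R hR
    rw [hinf] at h2 h3
    refine ⟨t₁ ∪ s, ?_, ?_, ?_⟩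
    · intro a ha
      rcases Finset.mem_union.1 ha with ha | ha
      · exact (h1 a ha).1
      · exact g1 a ha
    · have : ((t₁ ∪ s).card : ℤ) ≤ t₁.card + s.card := by exact_mod_cast Finset.card_union_le t₁ s
      linarith
    · intro a ha
      refine aux_rI_trans _ _ ?_ a (g3 a ha)
      rintro b (hb | hb)
      · have h4 := h3 b hb
        refine Submodule.span_mono ?_ h4
        rw [Finset.coe_union, ← Set.union_assoc]
        exact Set.subset_union_left
      · apply Submodule.subset_span
        right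
        rw [Finset.coe_union]
        right
        exact hb

end AuxFree

/-- TARGET 1 -/
theorem closure_exists {K : Type*} [Field K] {X : Type*} [Fintype X] [DecidableEq X]
    (T : Finset (FreeGroup X)) (R₀ : Submodule K (MonoidAlgebra K (FreeGroup X)))
    (hR₀ : ∀ a ∈ R₀, SuppOn (T : Set (FreeGroup X)) a) :
    ∃ R : Submodule K (MonoidAlgebra K (FreeGroup X)), R₀ ≤ R ∧ Closed (T : Set (FreeGroup X)) R ∧
      (∀ a ∈ R, a ∈ rI (R₀ : Set (MonoidAlgebra K (FreeGroup X)))) ∧ hh R ≤ hh R₀ :=
  aux_closure T _ R₀ (fun a ha => hR₀ a ha) (Nat.le_add_left _ _)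

/-- TARGET 2 -/
theorem leaf_removal {K : Type*} [Field K] {X : Type*} [Fintype X] [DecidableEq X]
    (T T' : Finset (FreeGroup X)) (hT : PrefixClosed T) (hT' : PrefixClosed T') (hTT : T' ⊆ T)
    (R : Submodule K (MonoidAlgebra K (FreeGroup X))) (hR : Closed (T : Set (FreeGroup X)) R) :
    ∃ t : Finset (MonoidAlgebra K (FreeGroup X)), (∀ a ∈ t, a ∈ R) ∧
      (t.card : ℤ) + hh (R ⊓ KT K (T' : Set (FreeGroup X))) ≤ hh R ∧
      ∀ a ∈ R, a ∈ rI (((R ⊓ KT K (T' : Set (FreeGroup X)) : Submodule K (MonoidAlgebra K (FreeGroup X))) :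
        Set (MonoidAlgebra K (FreeGroup X))) ∪ (t : Set (MonoidAlgebra K (FreeGroup X)))) :=
  aux_leaf T' hT' _ T hT hTT rfl R hR

end Pool.Agent.Helper166_PQ
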