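import Mathlib
import Pool.Agent.Helper166_PQ.Fold

/-!
# Generation of right ideals in the group algebra of a free group
-/

set_option autoImplicit false
set_option linter.unusedSectionVars false

namespace Pool.Agent.Helper166_PQ

open Module

section GenAux

variable {K : Type*} [Field K] {X : Type*} [Fintype X] [DecidableEq X]

theorem exists_prefixClosed (F : Finset (FreeGroup X)) :
    ∃ T : Finset (FreeGroup X), PrefixClosed T ∧ F ⊆ T := by
  classical
  refine ⟨F.biUnion (fun g => (g.toWord.inits.toFinset).image FreeGroup.mk), ?_, ?_⟩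
  · intro g hg L y hL
    rw [Finset.mem_biUnion] at hg ⊢
    obtain ⟨h, hh, hg⟩ := hg
    rw [Finset.mem_image] at hg
    obtain ⟨P, hP, rfl⟩ := hg
    rw [List.mem_toFinset, List.mem_inits] at hP
    have hred : FreeGroup.reduce P = P := by
      obtain ⟨Q, hQ⟩ := hP
      have h1 : FreeGroup.IsReduced h.toWord := FreeGroup.isReduced_toWord
      rw [← hQ] at h1
      have h2 : FreeGroup.IsReduced P := List.IsChain.left_of_append h1
      exact h2.reduce_eq
    rw [FreeGroup.toWord_mk, hred] at hL
    subst hL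
    refine ⟨h, hh, Finset.mem_image.2 ⟨L, ?_, rfl⟩⟩
    rw [List.mem_toFinset, List.mem_inits]
    exact (List.prefix_append L [y]).trans hP
  · intro g hg
    rw [Finset.mem_biUnion]
    refine ⟨g, hg, Finset.mem_image.2 ⟨g.toWord, ?_, FreeGroup.mk_toWord⟩⟩
    rw [List.mem_toFinset, List.mem_inits]

theorem mem_KT {G : Type*} [Group G] {T : Set G} {a : MonoidAlgebra K G} :
    a ∈ KT K T ↔ SuppOn T a := Iff.rfl

theorem SuppOn.mono {G : Type*} [Group G] {T T' : Set G} (h : T ⊆ T') {a : MonoidAlgebra K G}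
    (ha : SuppOn T a) : SuppOn T' a := fun g hg => h (ha g hg)

theorem exists_supp {G : Type*} [Group G] [DecidableEq G]
    (R₀ : Submodule K (MonoidAlgebra K G)) (h : R₀.FG) :
    ∃ F : Finset G, ∀ a ∈ R₀, SuppOn (F : Set G) a := by
  classical
  obtain ⟨s, rfl⟩ := h
  refine ⟨s.biUnion (fun a => a.coeff.support), ?_⟩
  have : Submodule.span K (s : Set (MonoidAlgebra K G)) ≤
      KT K ((s.biUnion (fun a => a.coeff.support) : Finset G) : Set G) := by
    rw [Submodule.span_le]
    intro a ha
    rw [SetLike.mem_coe, mem_KT]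
    intro g hg
    rw [Finset.mem_coe, Finset.mem_biUnion]
    exact ⟨a, ha, Finsupp.mem_support_iff.2 hg⟩
  exact fun a ha => this ha

theorem rI_le_iff {A : Type*} [Ring A] (S T : Set A) : rI S ≤ rI T ↔ ∀ a ∈ S, a ∈ rI T := by
  rw [rI, Submodule.span_le]; rfl

theorem KT_empty {G : Type*} [Group G] : KT K (∅ : Set G) = ⊥ := by
  rw [eq_bot_iff]
  intro a ha
  rw [Submodule.mem_bot, ← MonoidAlgebra.coeff_eq_zero]
  ext g
  by_contra h
  exact ha g h

theorem hh_of_Ex_bot (R : Submodule K (MonoidAlgebra K (FreeGroup X)))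
    (h : ∀ z : X, Ex R (FreeGroup.of z) = ⊥) : hh R = (finrank K R : ℤ) := by
  unfold hh
  rw [Finset.sum_eq_zero, sub_zero]
  intro x _
  rw [h x, finrank_bot, Nat.cast_zero]

theorem hh_bot : hh (⊥ : Submodule K (MonoidAlgebra K (FreeGroup X))) = 0 := by
  rw [hh_of_Ex_bot, finrank_bot, Nat.cast_zero]
  intro z
  unfold Ex
  rw [bot_inf_eq]

theorem rI_mul_mem {A : Type*} [Ring A] {S : Set A} {x : A} (hx : x ∈ rI S) (a : A) :
    x * a ∈ rI S := by
  have := Submodule.smul_mem (rI S) (MulOpposite.op a) hx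
  simpa using this

theorem mr_mul {G : Type*} [Group G] (g h : G) (b : MonoidAlgebra K G) :
    mr (K := K) (g * h) b = mr h (mr g b) := by
  simp only [mr, LinearMap.mulRight_apply, mul_assoc, MonoidAlgebra.single_mul_single, mul_one]

theorem mr_one {G : Type*} [Group G] (b : MonoidAlgebra K G) :
    mr (K := K) (1 : G) b = b := by
  simp only [mr, LinearMap.mulRight_apply, ← MonoidAlgebra.one_def, mul_one]

theorem mul_word_mem (b : MonoidAlgebra K (FreeGroup X)) (L : List (X × Bool)) :
    ∃ T₀ : Finset (FreeGroup X), ∀ T : Finset (FreeGroup X), T₀ ⊆ T →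
      ∀ R : Submodule K (MonoidAlgebra K (FreeGroup X)), Closed (T : Set (FreeGroup X)) R → b ∈ R →
        mr (FreeGroup.mk L) b ∈ R := by
  classical
  induction L using List.reverseRecOn with
  | nil =>
    refine ⟨∅, fun T _ R hR hb => ?_⟩
    rw [← FreeGroup.one_eq_mk, mr_one]
    exact hb
  | append_singleton L y ih =>
    obtain ⟨T₀, hT₀⟩ := ih
    refine ⟨T₀ ∪ (mr (FreeGroup.mk (L ++ [y])) b).coeff.support, fun T hT R hR hb => ?_⟩
    have h1 := hT₀ T (Finset.union_subset_left hT) R hR hb
    rw [← FreeGroup.mul_mk, mr_mul]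
    apply hR.2 _ h1 y
    intro g hg
    rw [← mr_mul, FreeGroup.mul_mk] at hg
    exact Finset.mem_coe.2 (hT (Finset.mem_union_right _ (Finsupp.mem_support_iff.2 hg)))

theorem mul_elt_mem (b a : MonoidAlgebra K (FreeGroup X)) :
    ∃ T₀ : Finset (FreeGroup X), ∀ T : Finset (FreeGroup X), T₀ ⊆ T →
      ∀ R : Submodule K (MonoidAlgebra K (FreeGroup X)), Closed (T : Set (FreeGroup X)) R → b ∈ R →
        b * a ∈ R := by
  classical
  induction a using MonoidAlgebra.induction_linear with
  | zero => exact ⟨∅, fun T _ R _ _ => by rw [mul_zero]; exact zero_mem _⟩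
  | add f g hf hg =>
    obtain ⟨T1, h1⟩ := hf
    obtain ⟨T2, h2⟩ := hg
    refine ⟨T1 ∪ T2, fun T hT R hR hb => ?_⟩
    rw [mul_add]
    exact add_mem (h1 T (Finset.union_subset_left hT) R hR hb)
      (h2 T (Finset.union_subset_right hT) R hR hb)
  | single g c =>
    obtain ⟨T1, h1⟩ := mul_word_mem b g.toWord
    refine ⟨T1, fun T hT R hR hb => ?_⟩
    have h2 := h1 T hT R hR hb
    rw [FreeGroup.mk_toWord] at h2
    have h3 : b * MonoidAlgebra.single g c = c • mr g b := by
      rw [mr, LinearMap.mulRight_apply, ← mul_smul_comm, MonoidAlgebra.smul_single, smul_eq_mul,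
        mul_one]
    rw [h3]
    exact Submodule.smul_mem _ _ h2

theorem span_elt_mem (S : Set (MonoidAlgebra K (FreeGroup X))) (f : MonoidAlgebra K (FreeGroup X))
    (hf : f ∈ rI S) :
    ∃ T₀ : Finset (FreeGroup X), ∀ T : Finset (FreeGroup X), T₀ ⊆ T →
      ∀ R : Submodule K (MonoidAlgebra K (FreeGroup X)), Closed (T : Set (FreeGroup X)) R →
        (∀ b ∈ S, b ∈ R) → f ∈ R := by
  classical
  induction hf using Submodule.span_induction with
  | mem x hx => exact ⟨∅, fun T _ R _ h => h x hx⟩
  | zero => exact ⟨∅, fun T _ R _ _ => zero_mem _⟩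
  | add x y _ _ hx hy =>
    obtain ⟨T1, h1⟩ := hx
    obtain ⟨T2, h2⟩ := hy
    refine ⟨T1 ∪ T2, fun T hT R hR hb => ?_⟩
    exact add_mem (h1 T (Finset.union_subset_left hT) R hR hb)
      (h2 T (Finset.union_subset_right hT) R hR hb)
  | smul r x _ hx =>
    obtain ⟨T1, h1⟩ := hx
    obtain ⟨T2, h2⟩ := mul_elt_mem x r.unop
    refine ⟨T1 ∪ T2, fun T hT R hR hb => ?_⟩
    have h3 := h2 T (Finset.union_subset_right hT) R hR (h1 T (Finset.union_subset_left hT) R hR hb)
    exact h3

end GenAux

/-- TARGET 1 -/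
theorem gen_le {K : Type*} [Field K] {X : Type*} [Fintype X] [DecidableEq X]
    (R₀ : Submodule K (MonoidAlgebra K (FreeGroup X))) [FiniteDimensional K R₀] :
    ∃ t : Finset (MonoidAlgebra K (FreeGroup X)), (t.card : ℤ) ≤ hh R₀ ∧
      rI (t : Set (MonoidAlgebra K (FreeGroup X))) = rI (R₀ : Set (MonoidAlgebra K (FreeGroup X))) := by
  classical
  obtain ⟨F, hF⟩ := exists_supp R₀ (Module.Finite.iff_fg.1 inferInstance)
  obtain ⟨T, hT, hFT⟩ := exists_prefixClosed F
  obtain ⟨R, hRR, hcl, hRI, hhR⟩ := closure_exists T R₀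
    (fun a ha => (hF a ha).mono (Finset.coe_subset.2 hFT))
  have hempty : PrefixClosed (∅ : Finset (FreeGroup X)) := by
    intro g hg; exact absurd hg (Finset.notMem_empty g)
  obtain ⟨t, htR, hcard, hgen⟩ := leaf_removal T ∅ hT hempty (Finset.empty_subset T) R hcl
  have hb : R ⊓ KT K ((∅ : Finset (FreeGroup X)) : Set (FreeGroup X)) = ⊥ := by
    rw [Finset.coe_empty, KT_empty, inf_bot_eq]
  rw [hb, hh_bot] at hcard
  rw [hb] at hgen
  refine ⟨t, by linarith, le_antisymm ?_ ?_⟩
  · rw [rI_le_iff]
    exact fun a ha => hRI a (htR a ha)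
  · rw [rI_le_iff]
    intro a ha
    have h1 := hgen a (hRR ha)
    have h2 : rI (((⊥ : Submodule K (MonoidAlgebra K (FreeGroup X))) : Set (MonoidAlgebra K (FreeGroup X))) ∪
        (t : Set (MonoidAlgebra K (FreeGroup X)))) ≤ rI (t : Set (MonoidAlgebra K (FreeGroup X))) := by
      rw [rI_le_iff]
      rintro b (hb | hb)
      · rw [SetLike.mem_coe, Submodule.mem_bot] at hb
        rw [hb]; exact zero_mem _
      · exact Submodule.subset_span hb
    exact h2 h1

/-- TARGET 2 -/
theorem gen_restrict {K : Type*} [Field K] {X : Type*} [Fintype X] [DecidableEq X]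
    (S : Finset (MonoidAlgebra K (FreeGroup X))) (f : MonoidAlgebra K (FreeGroup X))
    (hf : f ∈ rI (S : Set (MonoidAlgebra K (FreeGroup X))))
    (T' : Finset (FreeGroup X)) (hT' : PrefixClosed T') (hfT : SuppOn (T' : Set (FreeGroup X)) f) :
    ∃ (R' : Submodule K (MonoidAlgebra K (FreeGroup X))) (t : Finset (MonoidAlgebra K (FreeGroup X))),
      (∀ a ∈ R', SuppOn (T' : Set (FreeGroup X)) a) ∧ f ∈ R' ∧
      rI ((R' : Set (MonoidAlgebra K (FreeGroup X))) ∪ (t : Set (MonoidAlgebra K (FreeGroup X)))) =
        rI (S : Set (MonoidAlgebra K (FreeGroup X))) ∧ (t.card : ℤ) + hh R' ≤ S.card := by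
  classical
  have hfg : (Submodule.span K (S : Set (MonoidAlgebra K (FreeGroup X)))).FG := ⟨S, rfl⟩
  obtain ⟨F, hF⟩ := exists_supp (Submodule.span K (S : Set (MonoidAlgebra K (FreeGroup X)))) hfg
  obtain ⟨T₀, hT₀⟩ := span_elt_mem _ f hf
  obtain ⟨T, hT, hFT⟩ := exists_prefixClosed (F ∪ T₀ ∪ T')
  have hF' : F ⊆ T := (Finset.union_subset_left (Finset.union_subset_left hFT))
  have hT0' : T₀ ⊆ T := (Finset.union_subset_right (Finset.union_subset_left hFT))
  have hT'' : T' ⊆ T := Finset.union_subset_right hFT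
  obtain ⟨R, hRR, hcl, hRI, hhR⟩ := closure_exists T
    (Submodule.span K (S : Set (MonoidAlgebra K (FreeGroup X))))
    (fun a ha => (hF a ha).mono (Finset.coe_subset.2 hF'))
  obtain ⟨t, htR, hcard, hgen⟩ := leaf_removal T T' hT hT' hT'' R hcl
  have hSR : ∀ b ∈ (S : Set (MonoidAlgebra K (FreeGroup X))), b ∈ R := fun b hb =>
    hRR (Submodule.subset_span hb)
  have hspan : ∀ a ∈ Submodule.span K (S : Set (MonoidAlgebra K (FreeGroup X))),
      a ∈ rI (S : Set (MonoidAlgebra K (FreeGroup X))) := by
    intro a ha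
    induction ha using Submodule.span_induction with
    | mem x hx => exact Submodule.subset_span hx
    | zero => exact zero_mem _
    | add x y _ _ hx hy => exact add_mem hx hy
    | smul c x _ hx =>
      have := rI_mul_mem hx (c • (1 : MonoidAlgebra K (FreeGroup X)))
      rwa [mul_smul_comm, mul_one] at this
  have hRS : ∀ a ∈ R, a ∈ rI (S : Set (MonoidAlgebra K (FreeGroup X))) := by
    intro a ha
    have h1 := hRI a ha
    exact (rI_le_iff _ _).2 hspan h1
  refine ⟨R ⊓ KT K (T' : Set (FreeGroup X)), t, fun a ha => ha.2, ⟨hT₀ T hT0' R hcl hSR, hfT⟩,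
    le_antisymm ?_ ?_, ?_⟩
  · rw [rI_le_iff]
    rintro b (hb | hb)
    · exact hRS b hb.1
    · exact hRS b (htR b hb)
  · rw [rI_le_iff]
    intro b hb
    exact hgen b (hSR b hb)
  · have h1 : hh (Submodule.span K (S : Set (MonoidAlgebra K (FreeGroup X)))) ≤ S.card := by
      unfold hh
      have h2 : finrank K (Submodule.span K (S : Set (MonoidAlgebra K (FreeGroup X)))) ≤ S.card :=
        finrank_span_finset_le_card S
      have h3 : (0 : ℤ) ≤ ∑ x : X, (finrank K (Ex (Submodule.span K
          (S : Set (MonoidAlgebra K (FreeGroup X)))) (FreeGroup.of x)) : ℤ) :=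
        Finset.sum_nonneg (fun x _ => by positivity)
      have h4 : (finrank K (Submodule.span K (S : Set (MonoidAlgebra K (FreeGroup X)))) : ℤ) ≤
        (S.card : ℤ) := by exact_mod_cast h2
      linarith
    linarith

/-- TARGET 3 -/
theorem letter_primitive {K : Type*} [Field K] {X : Type*} [Fintype X] [DecidableEq X]
    (S : Finset (MonoidAlgebra K (FreeGroup X))) (y : X)
    (hy : (MonoidAlgebra.single (FreeGroup.of y) (1 : K) - 1 : MonoidAlgebra K (FreeGroup X)) ∈
      rI (S : Set (MonoidAlgebra K (FreeGroup X))))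
    (hS : rI (S : Set (MonoidAlgebra K (FreeGroup X))) ≠ ⊤) :
    ∃ t : Finset (MonoidAlgebra K (FreeGroup X)), t.card + 1 ≤ S.card ∧
      rI (insert (MonoidAlgebra.single (FreeGroup.of y) (1 : K) - 1)
        (t : Set (MonoidAlgebra K (FreeGroup X)))) = rI (S : Set (MonoidAlgebra K (FreeGroup X))) := by
  classical
  set u : MonoidAlgebra K (FreeGroup X) := MonoidAlgebra.single (FreeGroup.of y) (1 : K) with hu
  have hone : (1 : MonoidAlgebra K (FreeGroup X)) = MonoidAlgebra.single 1 1 := MonoidAlgebra.one_def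
  have hy1 : FreeGroup.of y ≠ 1 := FreeGroup.of_ne_one y
  have hpc : PrefixClosed ({1, FreeGroup.of y} : Finset (FreeGroup X)) := by
    intro g hg L z hL
    rw [Finset.mem_insert, Finset.mem_singleton] at hg
    rcases hg with rfl | rfl
    · rw [FreeGroup.toWord_one] at hL
      exact absurd hL.symm (by simp)
    · rw [FreeGroup.toWord_of] at hL
      have : L = [] := by
        have h1 := congrArg List.length hL
        simp at h1
        exact h1
      subst this
      rw [← FreeGroup.one_eq_mk]
      simp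
  have hsupp : SuppOn (({1, FreeGroup.of y} : Finset (FreeGroup X)) : Set (FreeGroup X)) (u - 1) := by
    intro g hg
    rw [Finset.coe_insert, Finset.coe_singleton, Set.mem_insert_iff, Set.mem_singleton_iff]
    by_contra hcon
    rw [not_or] at hcon
    apply hg
    rw [hu, hone, MonoidAlgebra.coeff_sub, MonoidAlgebra.coeff_single, MonoidAlgebra.coeff_single,
      Finsupp.sub_apply, Finsupp.single_apply, Finsupp.single_apply, if_neg (Ne.symm hcon.2),
      if_neg (Ne.symm hcon.1), sub_zero]
  obtain ⟨R', t, hR'T, hfR', hgen, hcard⟩ := gen_restrict S (u - 1) hy {1, FreeGroup.of y} hpc hsupp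
  have h1not : (1 : MonoidAlgebra K (FreeGroup X)) ∉ R' := by
    intro h1
    apply hS
    rw [← hgen, eq_top_iff]
    intro a _
    have h2 : (1 : MonoidAlgebra K (FreeGroup X)) ∈ rI ((R' : Set (MonoidAlgebra K (FreeGroup X))) ∪
      (t : Set (MonoidAlgebra K (FreeGroup X)))) := Submodule.subset_span (Or.inl h1)
    have := rI_mul_mem h2 a
    rwa [one_mul] at this
  -- the shape of the elements of `R'`
  have hshape : ∀ a ∈ R', a = a.coeff (FreeGroup.of y) • (u - 1) := by
    intro a ha
    have hexp : a = a.coeff (FreeGroup.of y) • u + a.coeff 1 • (1 : MonoidAlgebra K (FreeGroup X)) := by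
      apply MonoidAlgebra.ext
      ext g
      rw [hu, hone, MonoidAlgebra.coeff_add, MonoidAlgebra.coeff_smul, MonoidAlgebra.coeff_smul,
        MonoidAlgebra.coeff_single, MonoidAlgebra.coeff_single, Finsupp.add_apply,
        Finsupp.smul_apply, Finsupp.smul_apply, Finsupp.single_apply, Finsupp.single_apply]
      by_cases hg1 : g = 1
      · subst hg1
        rw [if_neg hy1, if_pos rfl]; simp
      · by_cases hgy : g = FreeGroup.of y
        · subst hgy
          rw [if_pos rfl, if_neg (Ne.symm hg1)]; simp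
        · rw [if_neg (Ne.symm hgy), if_neg (Ne.symm hg1)]
          simp only [smul_zero, add_zero]
          by_contra h
          have := hR'T a ha g h
          rw [Finset.coe_insert, Finset.coe_singleton, Set.mem_insert_iff, Set.mem_singleton_iff] at this
          rcases this with h | h
          · exact hg1 h
          · exact hgy h
    have hsum : a.coeff (FreeGroup.of y) + a.coeff 1 = 0 := by
      by_contra hne
      apply h1not
      have h2 : (a.coeff (FreeGroup.of y) + a.coeff 1) • (1 : MonoidAlgebra K (FreeGroup X)) ∈ R' := by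
        have h3 : (a.coeff (FreeGroup.of y) + a.coeff 1) • (1 : MonoidAlgebra K (FreeGroup X)) =
            a - a.coeff (FreeGroup.of y) • (u - 1) := by
          conv_rhs => rw [hexp]
          rw [MonoidAlgebra.coeff_add]
          simp only [MonoidAlgebra.coeff_smul, Finsupp.add_apply, Finsupp.smul_apply]
          rw [hu, hone]
          simp only [MonoidAlgebra.coeff_single, Finsupp.single_apply, if_neg (Ne.symm hy1), if_pos,
            smul_eq_mul, mul_one, mul_zero, add_zero]
          rw [smul_sub, add_smul]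
          abel
        rw [h3]
        exact sub_mem ha (Submodule.smul_mem _ _ hfR')
      have h4 := Submodule.smul_mem R' (a.coeff (FreeGroup.of y) + a.coeff 1)⁻¹ h2
      rwa [inv_smul_smul₀ hne] at h4
    have h5 : a.coeff 1 = - a.coeff (FreeGroup.of y) := by
      rw [add_comm] at hsum
      exact eq_neg_of_add_eq_zero_left hsum
    conv_lhs => rw [hexp, h5]
    rw [smul_sub, neg_smul, sub_eq_add_neg]
  have hune : u - 1 ≠ 0 := by
    intro h0
    have h1 := congrArg (fun z => (MonoidAlgebra.coeff z) (FreeGroup.of y)) h0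
    simp only [MonoidAlgebra.coeff_sub, Finsupp.sub_apply, MonoidAlgebra.coeff_zero,
      Finsupp.zero_apply] at h1
    rw [hu, hone, MonoidAlgebra.coeff_single, MonoidAlgebra.coeff_single, Finsupp.single_eq_same,
      Finsupp.single_apply, if_neg (Ne.symm hy1), sub_zero] at h1
    exact one_ne_zero h1
  have hR'eq : R' = Submodule.span K {u - 1} := by
    apply le_antisymm
    · intro a ha
      rw [hshape a ha]
      exact Submodule.smul_mem _ _ (Submodule.mem_span_singleton_self _)
    · rw [Submodule.span_singleton_le_iff_mem]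
      exact hfR'
  have hfin : finrank K R' = 1 := by
    rw [hR'eq]
    exact finrank_span_singleton hune
  have hEx : ∀ z : X, Ex R' (FreeGroup.of z) = ⊥ := by
    intro z
    rw [eq_bot_iff]
    rintro a ⟨ha1, ha2⟩
    have ha2' : mr (FreeGroup.of z) a ∈ R' := ha2
    rw [Submodule.mem_bot]
    have hs := hshape a ha1
    by_contra hane
    have hc : a.coeff (FreeGroup.of y) ≠ 0 := by
      intro h0
      rw [h0, zero_smul] at hs
      exact hane hs
    have hmr : mr (FreeGroup.of z) a = a.coeff (FreeGroup.of y) •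
        (MonoidAlgebra.single (FreeGroup.of y * FreeGroup.of z) (1 : K) -
          MonoidAlgebra.single (FreeGroup.of z) (1 : K)) := by
      conv_lhs => rw [hs]
      rw [map_smul, mr, LinearMap.mulRight_apply, sub_mul, hu, MonoidAlgebra.single_mul_single,
        one_mul, one_mul]
    have hne1 : FreeGroup.of y * FreeGroup.of z ≠ FreeGroup.of z := by
      intro h; exact hy1 (mul_eq_right.1 h)
    have hc1 : (mr (FreeGroup.of z) a).coeff (FreeGroup.of y * FreeGroup.of z) ≠ 0 := by
      rw [hmr, MonoidAlgebra.coeff_smul, Finsupp.smul_apply, MonoidAlgebra.coeff_sub,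
        Finsupp.sub_apply, MonoidAlgebra.coeff_single, MonoidAlgebra.coeff_single,
        Finsupp.single_eq_same, Finsupp.single_apply, if_neg (Ne.symm hne1), sub_zero, smul_eq_mul,
        mul_one]
      exact hc
    have hm := hR'T _ ha2' _ hc1
    have hw : (FreeGroup.of y * FreeGroup.of z).toWord = [(y, true), (z, true)] := by
      rw [FreeGroup.toWord_mul, FreeGroup.toWord_of, FreeGroup.toWord_of]
      simp [FreeGroup.reduce]
    rw [Finset.coe_insert, Finset.coe_singleton, Set.mem_insert_iff, Set.mem_singleton_iff] at hm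
    rcases hm with h | h
    · rw [h, FreeGroup.toWord_one] at hw
      exact absurd hw (by simp)
    · rw [h, FreeGroup.toWord_of] at hw
      exact absurd hw (by simp)
  have hhR' : hh R' = 1 := by
    rw [hh_of_Ex_bot R' hEx, hfin, Nat.cast_one]
  refine ⟨t, ?_, ?_⟩
  · rw [hhR'] at hcard
    exact_mod_cast hcard
  · rw [← hgen]
    apply le_antisymm
    · rw [rI_le_iff]
      intro a ha
      rcases Set.mem_insert_iff.1 ha with h | h
      · rw [h]; exact Submodule.subset_span (Or.inl hfR')
      · exact Submodule.subset_span (Or.inr h)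
    · rw [rI_le_iff]
      rintro a (ha | ha)
      · rw [hshape a ha]
        have h1 : (u - 1) ∈ rI (insert (u - 1) (t : Set (MonoidAlgebra K (FreeGroup X)))) :=
          Submodule.subset_span (Set.mem_insert _ _)
        have h2 := rI_mul_mem h1 (a.coeff (FreeGroup.of y) • (1 : MonoidAlgebra K (FreeGroup X)))
        rwa [mul_smul_comm, mul_one] at h2
      · exact Submodule.subset_span (Set.mem_insert_of_mem _ ha)

end Pool.Agent.Helper166_PQ
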