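import Mathlib

/-!
# A step in a graph without cut vertices
-/

set_option autoImplicit false

namespace Pool.Agent.Helper166_PQ

/-- connectedness of a finite set for a relation -/
def Conn {N : Type*} [DecidableEq N] (adj : N → N → Prop) (D : Finset N) : Prop :=
  D.Nonempty ∧ ∀ D' ⊆ D, D'.Nonempty → D' ≠ D → ∃ x ∈ D', ∃ y ∈ D \ D', adj x y

theorem aux_st_conn_insert {N : Type*} [DecidableEq N] (adj : N → N → Prop)
    (hs : ∀ x y, adj x y → adj y x) (Z : Finset N) (hZ : Conn adj Z) (z y : N) (hz : z ∈ Z)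
    (hzy : adj z y) : Conn adj (insert y Z) := by
  by_cases hyZ : y ∈ Z
  · rwa [Finset.insert_eq_of_mem hyZ]
  refine ⟨Finset.insert_nonempty _ _, ?_⟩
  intro D' hD' hne hneq
  by_cases hy : y ∈ D'
  · by_cases he : (D'.erase y).Nonempty
    · have hsub : D'.erase y ⊆ Z := by
        intro x hx
        rw [Finset.mem_erase] at hx
        rcases Finset.mem_insert.1 (hD' hx.2) with h | h
        · exact absurd h hx.1
        · exact h
      have hnn : D'.erase y ≠ Z := by
        intro h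
        apply hneq
        rw [← h, Finset.insert_erase hy]
      obtain ⟨x, hx, w, hw, hxw⟩ := hZ.2 _ hsub he hnn
      rw [Finset.mem_sdiff] at hw
      refine ⟨x, Finset.mem_of_mem_erase hx, w, ?_, hxw⟩
      rw [Finset.mem_sdiff]
      refine ⟨Finset.mem_insert_of_mem hw.1, ?_⟩
      intro hwD
      apply hw.2
      rw [Finset.mem_erase]
      refine ⟨?_, hwD⟩
      rintro rfl
      exact hyZ hw.1
    · refine ⟨y, hy, z, ?_, hs _ _ hzy⟩
      rw [Finset.mem_sdiff]
      refine ⟨Finset.mem_insert_of_mem hz, ?_⟩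
      intro hzD
      apply he
      refine ⟨z, ?_⟩
      rw [Finset.mem_erase]
      refine ⟨?_, hzD⟩
      rintro rfl
      exact hyZ hz
  · have hsub : D' ⊆ Z := by
      intro x hx
      rcases Finset.mem_insert.1 (hD' hx) with h | h
      · rw [h] at hx
        exact absurd hx hy
      · exact h
    by_cases heq : D' = Z
    · refine ⟨z, heq ▸ hz, y, ?_, hzy⟩
      rw [Finset.mem_sdiff]
      exact ⟨Finset.mem_insert_self _ _, hy⟩
    · obtain ⟨x, hx, w, hw, hxw⟩ := hZ.2 _ hsub hne heq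
      rw [Finset.mem_sdiff] at hw
      refine ⟨x, hx, w, ?_, hxw⟩
      rw [Finset.mem_sdiff]
      exact ⟨Finset.mem_insert_of_mem hw.1, hw.2⟩

theorem aux_st_conn_singleton {N : Type*} [DecidableEq N] (adj : N → N → Prop) (z : N) :
    Conn adj {z} := by
  refine ⟨Finset.singleton_nonempty z, ?_⟩
  intro D' hD' hne hneq
  exact absurd ((Finset.Nonempty.subset_singleton_iff hne).1 hD') hneq

/-- TARGET -/
theorem st_step {N : Type*} [DecidableEq N] (adj : N → N → Prop) (hs : ∀ x y, adj x y → adj y x)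
    (U M D : Finset N) (hU : ∀ n ∈ U, Conn adj (U.erase n)) (hM : M.Nonempty)
    (hMD : Disjoint M D) (hUMD : M ∪ D = U) (hD : Conn adj D) (hD2 : 2 ≤ D.card) :
    ∃ n ∈ D, (∃ m ∈ M, adj m n) ∧ Conn adj (D.erase n) := by
  classical
  -- step 1: some element of `D` is adjacent to an element of `M`
  obtain ⟨d, hd⟩ := hD.1
  have hdU : d ∈ U := by rw [← hUMD]; exact Finset.mem_union_right _ hd
  have hdM : d ∉ M := fun h => (Finset.disjoint_left.1 hMD h) hd
  obtain ⟨m0, hm0, n0, hn0, hmn0⟩ := (hU d hdU).2 M (by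
    intro x hx
    rw [Finset.mem_erase]
    refine ⟨?_, ?_⟩
    · rintro rfl
      exact hdM hx
    · rw [← hUMD]; exact Finset.mem_union_left _ hx) hM (by
    intro h
    obtain ⟨e, he⟩ : (D.erase d).Nonempty := by
      rw [← Finset.card_pos, Finset.card_erase_of_mem hd]
      omega
    rw [Finset.mem_erase] at he
    have : e ∈ M := by
      rw [h, Finset.mem_erase]
      refine ⟨he.1, ?_⟩
      rw [← hUMD]; exact Finset.mem_union_right _ he.2
    exact (Finset.disjoint_left.1 hMD this) he.2)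
  have hn0D : n0 ∈ D := by
    rw [Finset.mem_sdiff, Finset.mem_erase, ← hUMD, Finset.mem_union] at hn0
    rcases hn0.1.2 with h | h
    · exact absurd h hn0.2
    · exact h
  -- step 2: a maximal pair
  set P : Finset (N × Finset N) := (D ×ˢ D.powerset).filter
    (fun q => (∃ m ∈ M, adj m q.1) ∧ q.2 ⊆ D.erase q.1 ∧ Conn adj q.2) with hP
  have hPne : P.Nonempty := by
    obtain ⟨e, he⟩ : (D.erase n0).Nonempty := by
      rw [← Finset.card_pos, Finset.card_erase_of_mem hn0D]
      omega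
    refine ⟨(n0, {e}), ?_⟩
    rw [hP, Finset.mem_filter, Finset.mem_product, Finset.mem_powerset]
    refine ⟨⟨hn0D, ?_⟩, ⟨m0, hm0, hmn0⟩, ?_, aux_st_conn_singleton adj e⟩
    · rw [Finset.singleton_subset_iff]; exact Finset.mem_of_mem_erase he
    · rw [Finset.singleton_subset_iff]; exact he
  obtain ⟨⟨n, Z⟩, hmem, hmax⟩ := P.exists_max_image (fun q => q.2.card) hPne
  have hmem' := hmem
  rw [hP, Finset.mem_filter, Finset.mem_product, Finset.mem_powerset] at hmem'
  obtain ⟨⟨hnD, hZD⟩, ⟨m, hmM, hmn⟩, hZn, hZc⟩ := hmem'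
  simp only at hnD hZD hmn hZn hZc
  have hmaxP : ∀ n' Z', n' ∈ D → (∃ m ∈ M, adj m n') → Z' ⊆ D.erase n' → Conn adj Z' →
      Z'.card ≤ Z.card := by
    intro n' Z' h1 h2 h3 h4
    refine hmax (n', Z') ?_
    rw [hP, Finset.mem_filter, Finset.mem_product, Finset.mem_powerset]
    exact ⟨⟨h1, h3.trans (Finset.erase_subset _ _)⟩, h2, h3, h4⟩
  refine ⟨n, hnD, ⟨m, hmM, hmn⟩, ?_⟩
  by_contra hcon
  have hZne : Z ≠ D.erase n := by
    rintro h
    exact hcon (h ▸ hZc)
  set Y := D.erase n \ Z with hY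
  have hYne : Y.Nonempty := by
    rw [hY, Finset.sdiff_nonempty]
    intro h
    exact hZne (Finset.Subset.antisymm hZn h)
  have hnoadj : ∀ z ∈ Z, ∀ y ∈ Y, ¬ adj z y := by
    intro z hz y hy hzy
    rw [hY, Finset.mem_sdiff] at hy
    have hc := aux_st_conn_insert adj hs Z hZc z y hz hzy
    have := hmaxP n (insert y Z) hnD ⟨m, hmM, hmn⟩ (by
      rw [Finset.insert_subset_iff]
      exact ⟨hy.1, hZn⟩) hc
    rw [Finset.card_insert_of_notMem hy.2] at this
    omega
  have hnZ : n ∉ Z := fun h => (Finset.mem_erase.1 (hZn h)).1 rfl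
  -- `n` is adjacent to `Z`
  obtain ⟨z, hz, y', hy', hzy'⟩ := hD.2 Z hZD hZc.1 (by
    rintro rfl
    exact hnZ hnD)
  have hy'n : y' = n := by
    by_contra h
    rw [Finset.mem_sdiff] at hy'
    refine hnoadj z hz y' ?_ hzy'
    rw [hY, Finset.mem_sdiff, Finset.mem_erase]
    exact ⟨⟨h, hy'.1⟩, hy'.2⟩
  subst hy'n
  have hnU : y' ∈ U := by rw [← hUMD]; exact Finset.mem_union_right _ hnD
  obtain ⟨n', hn', w, hw, hn'w⟩ := (hU y' hnU).2 Y (by
    intro x hx
    rw [hY, Finset.mem_sdiff, Finset.mem_erase] at hx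
    rw [Finset.mem_erase, ← hUMD]
    exact ⟨hx.1.1, Finset.mem_union_right _ hx.1.2⟩) hYne (by
    intro h
    have hmY : m ∈ Y := by
      rw [h, Finset.mem_erase, ← hUMD]
      refine ⟨?_, Finset.mem_union_left _ hmM⟩
      rintro rfl
      exact (Finset.disjoint_left.1 hMD hmM) hnD
    rw [hY, Finset.mem_sdiff, Finset.mem_erase] at hmY
    exact (Finset.disjoint_left.1 hMD hmM) hmY.1.2)
  have hwM : w ∈ M := by
    rw [Finset.mem_sdiff, Finset.mem_erase, ← hUMD, Finset.mem_union] at hw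
    obtain ⟨⟨hwy, hw1 | hw1⟩, hw2⟩ := hw
    · exact hw1
    · exfalso
      have hwZ : w ∈ Z := by
        by_contra h
        apply hw2
        rw [hY, Finset.mem_sdiff, Finset.mem_erase]
        exact ⟨⟨hwy, hw1⟩, h⟩
      exact hnoadj w hwZ n' hn' (hs _ _ hn'w)
  rw [hY, Finset.mem_sdiff, Finset.mem_erase] at hn'
  have hfin := hmaxP n' (insert y' Z) hn'.1.2 ⟨w, hwM, hs _ _ hn'w⟩ (by
    rw [Finset.insert_subset_iff]
    refine ⟨?_, ?_⟩
    · rw [Finset.mem_erase]
      exact ⟨fun h => hn'.1.1 h.symm, hnD⟩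
    · intro x hx
      rw [Finset.mem_erase]
      refine ⟨?_, hZD hx⟩
      rintro rfl
      exact hn'.2 hx) (aux_st_conn_insert adj hs Z hZc z y' hz hzy')
  rw [Finset.card_insert_of_notMem hnZ] at hfin
  omega

end Pool.Agent.Helper166_PQ
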