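import Mathlib
import Pool.Agent.Helper166_PQ.Defs
import Pool.Agent.Helper166_PQ.Step

set_option autoImplicit false
set_option linter.unusedSectionVars false

namespace Pool.Agent.Helper166_PQ

open Module

section Aux

variable {K V : Type*} [Field K] [Fintype V] [DecidableEq V]

/-- the elements of `c` with a node in `M` -/
def aux_SM (c : Finset V) (a b : V → ℕ) (M : Finset ℕ) : Finset V :=
  c.filter fun v => a v ∈ M ∨ b v ∈ M

theorem aux_supp_mono {S T : Finset V} (h : S ⊆ T) : supp K S ≤ supp K T :=
  fun _ hx v hv => hx v (fun h' => hv (h h'))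

theorem aux_rk_empty (R : Submodule K (V → K)) : rk R ∅ = 0 := by
  have h : (R ⊓ supp K (∅ : Finset V) : Submodule K (V → K)) = ⊥ := by
    rw [eq_bot_iff]
    rintro x ⟨-, hx⟩
    rw [Submodule.mem_bot]
    ext v
    exact hx v (by simp)
  rw [rk, h, finrank_bot]

theorem aux_rk_super (R : Submodule K (V → K)) (S T : Finset V) :
    rk R S + rk R T ≤ rk R (S ∪ T) + rk R (S ∩ T) := by
  unfold rk
  rw [← Submodule.finrank_sup_add_finrank_inf_eq]
  apply Nat.add_le_add
  · apply Submodule.finrank_mono
    apply sup_le
    · exact inf_le_inf_left _ (aux_supp_mono Finset.subset_union_left)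
    · exact inf_le_inf_left _ (aux_supp_mono Finset.subset_union_right)
  · apply Submodule.finrank_mono
    rintro x ⟨⟨h1, h2⟩, ⟨-, h3⟩⟩
    refine ⟨h1, fun v hv => ?_⟩
    by_cases hS : v ∈ S
    · exact h3 v (fun hT => hv (Finset.mem_inter.2 ⟨hS, hT⟩))
    · exact h2 v hS

theorem aux_split_le (R : Submodule K (V → K)) (S T W : Finset V) (hW : S ∪ T = W)
    (hx : ∀ x ∈ R ⊓ supp K W, res S x ∈ R) :
    R ⊓ supp K W ≤ (R ⊓ supp K S) ⊔ (R ⊓ supp K T) := by
  intro x hxW
  have h1 : res S x ∈ R ⊓ supp K S := by
    refine ⟨hx x hxW, fun v hv => ?_⟩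
    rw [res_apply, if_neg hv]
  have h2 : x - res S x ∈ R ⊓ supp K T := by
    refine ⟨R.sub_mem hxW.1 (hx x hxW), fun v hv => ?_⟩
    rw [Pi.sub_apply, res_apply]
    by_cases hS : v ∈ S
    · rw [if_pos hS, sub_self]
    · rw [if_neg hS, sub_zero]
      apply hxW.2 v
      rw [← hW, Finset.mem_union]
      tauto
  have h3 : x = res S x + (x - res S x) := by abel
  rw [h3]
  exact Submodule.add_mem_sup h1 h2

theorem aux_rk_split_le (R : Submodule K (V → K)) (S T W : Finset V) (hW : S ∪ T = W)
    (hx : ∀ x ∈ R ⊓ supp K W, res S x ∈ R) :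
    rk R W ≤ rk R S + rk R T := by
  unfold rk
  calc finrank K (R ⊓ supp K W : Submodule K (V → K))
      ≤ finrank K ((R ⊓ supp K S) ⊔ (R ⊓ supp K T) : Submodule K (V → K)) :=
        Submodule.finrank_mono (aux_split_le R S T W hW hx)
    _ ≤ _ := by
        rw [← Submodule.finrank_sup_add_finrank_inf_eq]
        exact Nat.le_add_right _ _

theorem aux_rk_split_lt (R : Submodule K (V → K)) (S T W : Finset V) (hW : S ∪ T = W)
    (hST : Disjoint S T) (hx : ∃ x ∈ R ⊓ supp K W, res S x ∉ R) :
    rk R S + rk R T + 1 ≤ rk R W := by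
  have hinf : finrank K ((R ⊓ supp K S) ⊓ (R ⊓ supp K T) : Submodule K (V → K)) = 0 := by
    have h : ((R ⊓ supp K S) ⊓ (R ⊓ supp K T) : Submodule K (V → K)) = ⊥ := by
      rw [eq_bot_iff]
      rintro x ⟨⟨-, h2⟩, ⟨-, h3⟩⟩
      rw [Submodule.mem_bot]
      ext v
      by_cases hS : v ∈ S
      · exact h3 v (fun hT => (Finset.disjoint_left.1 hST) hS hT)
      · exact h2 v hS
    rw [h, finrank_bot]
  unfold rk
  rw [← Submodule.finrank_sup_add_finrank_inf_eq, hinf, add_zero]
  apply Submodule.finrank_lt_finrank_of_lt
  rw [lt_iff_le_and_ne]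
  refine ⟨?_, ?_⟩
  · apply sup_le
    · exact inf_le_inf_left _ (aux_supp_mono (hW ▸ Finset.subset_union_left))
    · exact inf_le_inf_left _ (aux_supp_mono (hW ▸ Finset.subset_union_right))
  · intro heq
    obtain ⟨x, hxW, hxR⟩ := hx
    rw [← heq] at hxW
    obtain ⟨y, hy, z, hz, rfl⟩ := Submodule.mem_sup.1 hxW
    apply hxR
    have h : res S (y + z) = y := by
      ext v
      rw [res_apply, Pi.add_apply]
      by_cases hS : v ∈ S
      · rw [if_pos hS, hz.2 v (Finset.disjoint_left.1 hST hS), add_zero]
      · rw [if_neg hS, hy.2 v hS]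
    rw [h]
    exact hy.1

theorem aux_mem_nodes {c : Finset V} {a b : V → ℕ} {n : ℕ} :
    n ∈ nodes c a b ↔ ∃ v ∈ c, a v = n ∨ b v = n := by
  unfold nodes
  rw [Finset.mem_union, Finset.mem_image, Finset.mem_image]
  constructor
  · rintro (⟨v, hv, h⟩ | ⟨v, hv, h⟩)
    · exact ⟨v, hv, Or.inl h⟩
    · exact ⟨v, hv, Or.inr h⟩
  · rintro ⟨v, hv, h | h⟩
    · exact Or.inl ⟨v, hv, h⟩
    · exact Or.inr ⟨v, hv, h⟩

theorem aux_mem_star {c : Finset V} {a b : V → ℕ} {n : ℕ} {v : V} :
    v ∈ star c a b n ↔ v ∈ c ∧ (a v = n ∨ b v = n) := by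
  unfold star; rw [Finset.mem_filter]

theorem aux_mem_SM {c : Finset V} {a b : V → ℕ} {M : Finset ℕ} {v : V} :
    v ∈ aux_SM c a b M ↔ v ∈ c ∧ (a v ∈ M ∨ b v ∈ M) := by
  unfold aux_SM; rw [Finset.mem_filter]

theorem aux_a_mem {c : Finset V} {a b : V → ℕ} {v : V} (hv : v ∈ c) : a v ∈ nodes c a b :=
  aux_mem_nodes.2 ⟨v, hv, Or.inl rfl⟩

theorem aux_b_mem {c : Finset V} {a b : V → ℕ} {v : V} (hv : v ∈ c) : b v ∈ nodes c a b :=
  aux_mem_nodes.2 ⟨v, hv, Or.inr rfl⟩

theorem aux_card_nodes (c : Finset V) (a b : V → ℕ) : (nodes c a b).card ≤ 2 * c.card := by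
  unfold nodes
  calc (c.image a ∪ c.image b).card ≤ (c.image a).card + (c.image b).card :=
        Finset.card_union_le _ _
    _ ≤ c.card + c.card := Nat.add_le_add Finset.card_image_le Finset.card_image_le
    _ = 2 * c.card := by ring

/-- adjacency of nodes -/
def aux_adj (c : Finset V) (a b : V → ℕ) (n n' : ℕ) : Prop :=
  n ≠ n' ∧ ∃ v, v ∈ star c a b n ∧ v ∈ star c a b n'

/-- Step 2a -/
theorem aux_conn (R : Submodule K (V → K))
    (c : Finset V) (a b : V → ℕ) (hab : ∀ v ∈ c, a v ≠ b v)
    (NC : ∀ n ∈ nodes c a b, R ⊓ supp K c ≤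
      ⨆ n' ∈ (nodes c a b).erase n, R ⊓ supp K (star c a b n'))
    (CONN : ∀ S ⊆ c, S.Nonempty → S ≠ c → ∃ x ∈ R ⊓ supp K c, res S x ∉ R)
    (n : ℕ) (hn : n ∈ nodes c a b) : Conn (aux_adj c a b) ((nodes c a b).erase n) := by
  refine ⟨?_, ?_⟩
  · obtain ⟨v, hv, h⟩ := aux_mem_nodes.1 hn
    rcases h with h | h
    · exact ⟨b v, Finset.mem_erase.2 ⟨fun h' => hab v hv (h.trans h'.symm), aux_b_mem hv⟩⟩
    · exact ⟨a v, Finset.mem_erase.2 ⟨fun h' => hab v hv (h'.trans h.symm), aux_a_mem hv⟩⟩
  · intro D' hD' hD'n hD'ne
    by_contra hcon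
    push Not at hcon
    obtain ⟨m0, hm0⟩ := hD'n
    obtain ⟨m1, hm1, hm1'⟩ : ∃ m ∈ (nodes c a b).erase n, m ∉ D' := by
      by_contra h
      push Not at h
      exact hD'ne (Finset.Subset.antisymm hD' h)
    have hdisj : ∀ m ∈ D', ∀ m' ∈ (nodes c a b).erase n \ D', ∀ v, v ∈ star c a b m →
        v ∉ star c a b m' := by
      intro m hm m' hm' v hv hv'
      apply hcon m hm m' hm'
      refine ⟨?_, v, hv, hv'⟩
      rintro rfl
      exact (Finset.mem_sdiff.1 hm').2 hm
    have hne : ∀ m ∈ nodes c a b, ∃ v, v ∈ star c a b m := by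
      intro m hm
      obtain ⟨v, hv, h⟩ := aux_mem_nodes.1 hm
      exact ⟨v, aux_mem_star.2 ⟨hv, h⟩⟩
    have hSM : ∀ v, v ∈ aux_SM c a b D' ↔ ∃ m ∈ D', v ∈ star c a b m := by
      intro v
      rw [aux_mem_SM]
      constructor
      · rintro ⟨hv, h | h⟩
        · exact ⟨_, h, aux_mem_star.2 ⟨hv, Or.inl rfl⟩⟩
        · exact ⟨_, h, aux_mem_star.2 ⟨hv, Or.inr rfl⟩⟩
      · rintro ⟨m, hm, h⟩
        obtain ⟨hv, h⟩ := aux_mem_star.1 h
        refine ⟨hv, ?_⟩
        rcases h with h | h
        · left; rwa [h]
        · right; rwa [h]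
    obtain ⟨x, hx, hxR⟩ := CONN (aux_SM c a b D') (Finset.filter_subset _ _)
      (by
        obtain ⟨v, hv⟩ := hne m0 (Finset.mem_of_mem_erase (hD' hm0))
        exact ⟨v, (hSM v).2 ⟨m0, hm0, hv⟩⟩)
      (by
        intro heq
        obtain ⟨v, hv⟩ := hne m1 (Finset.mem_of_mem_erase hm1)
        have hvc : v ∈ aux_SM c a b D' := by rw [heq]; exact (aux_mem_star.1 hv).1
        obtain ⟨m, hm, h⟩ := (hSM v).1 hvc
        exact hdisj m hm m1 (Finset.mem_sdiff.2 ⟨hm1, hm1'⟩) v h hv)
    apply hxR
    have hx' := NC n hn hx
    -- every element of the sum restricts into R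
    have key : (⨆ n' ∈ (nodes c a b).erase n, R ⊓ supp K (star c a b n')) ≤
        Submodule.comap (res (aux_SM c a b D')) R := by
      apply iSup₂_le
      intro m hm y hy
      rw [Submodule.mem_comap]
      by_cases hmD : m ∈ D'
      · have h : res (aux_SM c a b D') y = y := by
          ext v
          rw [res_apply]
          by_cases hv : v ∈ star c a b m
          · rw [if_pos ((hSM v).2 ⟨m, hmD, hv⟩)]
          · rw [hy.2 v hv]; simp
        rw [h]; exact hy.1
      · have h : res (aux_SM c a b D') y = 0 := by
          ext v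
          rw [res_apply]
          by_cases hv : v ∈ star c a b m
          · rw [if_neg]; · rfl
            intro hvS
            obtain ⟨m', hm', h⟩ := (hSM v).1 hvS
            exact hdisj m' hm' m (Finset.mem_sdiff.2 ⟨hm, hmD⟩) v h hv
          · rw [hy.2 v hv]; simp
        rw [h]; exact R.zero_mem
    exact key hx'

/-- Step 2b -/
theorem aux_claim (R : Submodule K (V → K))
    (c : Finset V) (a b : V → ℕ) (hab : ∀ v ∈ c, a v ≠ b v)
    (hconn : ∀ n ∈ nodes c a b, Conn (aux_adj c a b) ((nodes c a b).erase n))
    (hsplit : ∀ n ∈ nodes c a b, ∀ S ⊆ star c a b n, S.Nonempty → S ≠ star c a b n →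
      ∃ x ∈ R ⊓ supp K (star c a b n), res S x ∉ R) :
    ∀ (k : ℕ) (M D : Finset ℕ), D.card = k → M.Nonempty → Disjoint M D → M ∪ D = nodes c a b →
      Conn (aux_adj c a b) D →
      rk R (aux_SM c a b M) + ∑ n ∈ D, (rk R (star c a b n) + 1) ≤
        rk R c + rk R (aux_SM c a b D) + 1 := by
  intro k
  induction k with
  | zero =>
    intro M D hDk hM hMD hU hD
    rw [Finset.card_eq_zero] at hDk
    rw [hDk] at hD
    exact absurd hD.1 (by simp)
  | succ k ih =>
    intro M D hDk hM hMD hU hD
    rcases Nat.eq_zero_or_pos k with hk0 | hk0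
    · -- base case
      have h1 : D.card = 1 := by omega
      obtain ⟨n, rfl⟩ := Finset.card_eq_one.1 h1
      have hnM : n ∉ M := by simpa using hMD
      have e1 : aux_SM c a b M = c := by
        ext v
        rw [aux_mem_SM]
        refine ⟨fun h => h.1, fun hv => ⟨hv, ?_⟩⟩
        have ha : a v ∈ M ∪ {n} := hU ▸ aux_a_mem hv
        have hb : b v ∈ M ∪ {n} := hU ▸ aux_b_mem hv
        rw [Finset.mem_union, Finset.mem_singleton] at ha hb
        have := hab v hv
        rcases ha with ha | ha
        · exact Or.inl ha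
        · rcases hb with hb | hb
          · exact Or.inr hb
          · exact absurd (ha.trans hb.symm) this
      have e2 : aux_SM c a b {n} = star c a b n := by
        ext v
        rw [aux_mem_SM, aux_mem_star, Finset.mem_singleton, Finset.mem_singleton]
      rw [e1, e2, Finset.sum_singleton]
      omega
    · obtain ⟨n, hnD, ⟨m, hmM, hmn⟩, hDn⟩ := st_step (aux_adj c a b)
        (fun x y h => ⟨h.1.symm, h.2.imp fun v hv => ⟨hv.2, hv.1⟩⟩)
        (nodes c a b) M D hconn hM hMD hU hD (by omega)
      have hnU : n ∈ nodes c a b := hU ▸ Finset.mem_union_right _ hnD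
      have hnM : n ∉ M := fun h => Finset.disjoint_left.1 hMD h hnD
      have ih' := ih (insert n M) (D.erase n) (by rw [Finset.card_erase_of_mem hnD]; omega)
        (Finset.insert_nonempty _ _)
        (by
          rw [Finset.disjoint_left]
          intro x hx hx'
          rw [Finset.mem_insert] at hx
          rw [Finset.mem_erase] at hx'
          rcases hx with hx | hx
          · exact hx'.1 hx
          · exact Finset.disjoint_left.1 hMD hx hx'.2)
        (by
          rw [← hU]
          ext x
          simp only [Finset.mem_union, Finset.mem_insert, Finset.mem_erase]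
          by_cases hx : x = n
          · subst hx; simp [hnD]
          · simp [hx])
        hDn
      -- the sets
      have eM : aux_SM c a b M ∪ star c a b n = aux_SM c a b (insert n M) := by
        ext v
        simp only [Finset.mem_union, aux_mem_SM, aux_mem_star, Finset.mem_insert]
        tauto
      have eD : aux_SM c a b (D.erase n) ∪ star c a b n = aux_SM c a b D := by
        ext v
        simp only [Finset.mem_union, aux_mem_SM, aux_mem_star, Finset.mem_erase]
        constructor
        · rintro (⟨hv, h | h⟩ | ⟨hv, h | h⟩)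
          · exact ⟨hv, Or.inl h.2⟩
          · exact ⟨hv, Or.inr h.2⟩
          · exact ⟨hv, Or.inl (h ▸ hnD)⟩
          · exact ⟨hv, Or.inr (h ▸ hnD)⟩
        · rintro ⟨hv, h⟩
          by_cases h1 : a v = n
          · exact Or.inr ⟨hv, Or.inl h1⟩
          · by_cases h2 : b v = n
            · exact Or.inr ⟨hv, Or.inr h2⟩
            · left
              refine ⟨hv, ?_⟩
              rcases h with h | h
              · exact Or.inl ⟨h1, h⟩
              · exact Or.inr ⟨h2, h⟩
      have s1 := aux_rk_super R (aux_SM c a b M) (star c a b n)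
      have s2 := aux_rk_super R (aux_SM c a b (D.erase n)) (star c a b n)
      rw [eM] at s1
      rw [eD] at s2
      -- for v in the star, exactly one of the two
      have hother : ∀ v ∈ star c a b n, (v ∈ aux_SM c a b M ↔ v ∉ aux_SM c a b (D.erase n)) := by
        intro v hv
        obtain ⟨hvc, hv⟩ := aux_mem_star.1 hv
        have hne := hab v hvc
        have ha : a v ∈ M ∪ D := hU ▸ aux_a_mem hvc
        have hb : b v ∈ M ∪ D := hU ▸ aux_b_mem hvc
        rw [Finset.mem_union] at ha hb
        have dis : ∀ x, x ∈ M → x ∉ D := fun x hx => Finset.disjoint_left.1 hMD hx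
        simp only [aux_mem_SM, Finset.mem_erase]
        rcases hv with hv | hv
        · have hb' : b v ≠ n := fun h => hne (hv.trans h.symm)
          have := dis (b v)
          simp only [hv, hnM, hvc, hb', hnD]
          tauto
        · have ha' : a v ≠ n := fun h => hne (h.trans hv.symm)
          have := dis (a v)
          simp only [hv, hnM, hvc, ha', hnD]
          tauto
      have s3 := aux_rk_split_lt R (aux_SM c a b M ∩ star c a b n)
        (aux_SM c a b (D.erase n) ∩ star c a b n) (star c a b n)
        (by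
          ext v
          rw [Finset.mem_union, Finset.mem_inter, Finset.mem_inter]
          by_cases hv : v ∈ star c a b n
          · have := hother v hv
            tauto
          · tauto)
        (by
          rw [Finset.disjoint_left]
          intro v hv hv'
          rw [Finset.mem_inter] at hv hv'
          exact (hother v hv.2).1 hv.1 hv'.1)
        (by
          apply hsplit n hnU _ Finset.inter_subset_right
          · obtain ⟨-, v, hv, hv'⟩ := hmn
            refine ⟨v, Finset.mem_inter.2 ⟨?_, hv'⟩⟩
            obtain ⟨hvc, h⟩ := aux_mem_star.1 hv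
            rw [aux_mem_SM]
            refine ⟨hvc, ?_⟩
            rcases h with h | h
            · left; rwa [h]
            · right; rwa [h]
          · intro heq
            -- n is adjacent to something in D.erase n
            obtain ⟨x, hx, y, hy, hxy⟩ := hD.2 {n} (by simpa using hnD) (by simp)
              (by
                intro h
                rw [← h] at hDk
                simp at hDk
                omega)
            rw [Finset.mem_singleton] at hx
            subst hx
            rw [Finset.mem_sdiff, Finset.mem_singleton] at hy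
            obtain ⟨-, v, hv, hv'⟩ := hxy
            have h1 : v ∈ aux_SM c a b (D.erase x) := by
              obtain ⟨hvc, h⟩ := aux_mem_star.1 hv'
              rw [aux_mem_SM]
              refine ⟨hvc, ?_⟩
              rcases h with h | h
              · left; rw [h]; exact Finset.mem_erase.2 ⟨hy.2, hy.1⟩
              · right; rw [h]; exact Finset.mem_erase.2 ⟨hy.2, hy.1⟩
            have h2 : v ∈ aux_SM c a b M := by
              have : v ∈ aux_SM c a b M ∩ star c a b x := by rw [heq]; exact hv
              exact (Finset.mem_inter.1 this).1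
            exact (hother v hv).1 h2 h1)
      have s4 : ∑ n ∈ D, (rk R (star c a b n) + 1) =
          ∑ n ∈ D.erase n, (rk R (star c a b n) + 1) + (rk R (star c a b n) + 1) :=
        (Finset.sum_erase_add _ _ hnD).symm
      rw [s4]
      omega

end Aux

/-- TARGET -/
theorem local_lemma {K V : Type*} [Field K] [Fintype V] [DecidableEq V] (R : Submodule K (V → K))
    (c : Finset V) (hc : c.Nonempty) (a b : V → ℕ) (hab : ∀ v ∈ c, a v ≠ b v)
    (NC : ∀ n ∈ nodes c a b, R ⊓ supp K c ≤
      ⨆ n' ∈ (nodes c a b).erase n, R ⊓ supp K (star c a b n'))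
    (CONN : ∀ S ⊆ c, S.Nonempty → S ≠ c → ∃ x ∈ R ⊓ supp K c, res S x ∉ R) :
    (nodes c a b).card + ∑ n ∈ nodes c a b, rk R (star c a b n) ≤ 2 * rk R c + 2 := by
  induction hk : 2 * c.card - (nodes c a b).card using Nat.strong_induction_on generalizing a b with
  | _ k ih =>
  by_cases hsp : ∀ n ∈ nodes c a b, ∀ S ⊆ star c a b n, S.Nonempty → S ≠ star c a b n →
      ∃ x ∈ R ⊓ supp K (star c a b n), res S x ∉ R
  · -- Step 2
    obtain ⟨v0, hv0⟩ := hc
    have hconn := aux_conn R c a b hab NC CONN
    have hn1 : a v0 ∈ nodes c a b := aux_a_mem hv0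
    have h := aux_claim R c a b hab hconn hsp _ {a v0} ((nodes c a b).erase (a v0)) rfl
      (Finset.singleton_nonempty _) (by simp)
      (by
        ext x
        rw [Finset.mem_union, Finset.mem_singleton, Finset.mem_erase]
        constructor
        · rintro (h | h)
          · rw [h]; exact hn1
          · exact h.2
        · intro h
          by_cases hx : x = a v0
          · exact Or.inl hx
          · exact Or.inr ⟨hx, h⟩)
      (hconn _ hn1)
    have e1 : aux_SM c a b {a v0} = star c a b (a v0) := by
      ext v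
      rw [aux_mem_SM, aux_mem_star, Finset.mem_singleton, Finset.mem_singleton]
    have e2 : aux_SM c a b ((nodes c a b).erase (a v0)) = c := by
      ext v
      rw [aux_mem_SM]
      refine ⟨fun h => h.1, fun hv => ⟨hv, ?_⟩⟩
      by_cases h1 : a v = a v0
      · right
        exact Finset.mem_erase.2 ⟨fun h2 => hab v hv (h1.trans h2.symm), aux_b_mem hv⟩
      · left
        exact Finset.mem_erase.2 ⟨h1, aux_a_mem hv⟩
    rw [e1, e2] at h
    have e3 : ∑ n ∈ nodes c a b, (rk R (star c a b n) + 1) =
        ∑ n ∈ (nodes c a b).erase (a v0), (rk R (star c a b n) + 1) +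
          (rk R (star c a b (a v0)) + 1) :=
      (Finset.sum_erase_add _ _ hn1).symm
    have e4 : ∑ n ∈ nodes c a b, (rk R (star c a b n) + 1) =
        ∑ n ∈ nodes c a b, rk R (star c a b n) + (nodes c a b).card := by
      rw [Finset.sum_add_distrib, Finset.sum_const, smul_eq_mul, mul_one]
    omega
  · -- Step 1
    push Not at hsp
    obtain ⟨n, hn, S, hSn, hSne, hSne', hres⟩ := hsp
    obtain ⟨f, hf⟩ := Infinite.exists_notMem_finset (nodes c a b)
    set T : Finset V := star c a b n \ S with hT
    have hfn : f ≠ n := fun h => hf (h ▸ hn)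
    have hTne : T.Nonempty := by
      rw [hT, Finset.sdiff_nonempty]
      exact fun h => hSne' (Finset.Subset.antisymm hSn h)
    have hST : S ∪ T = star c a b n := by
      rw [hT]; exact Finset.union_sdiff_of_subset hSn
    have hfa : ∀ v ∈ c, a v ≠ f := fun v hv h => hf (h ▸ aux_a_mem hv)
    have hfb : ∀ v ∈ c, b v ≠ f := fun v hv h => hf (h ▸ aux_b_mem hv)
    set a' : V → ℕ := fun v => if v ∈ T ∧ a v = n then f else a v with ha'
    set b' : V → ℕ := fun v => if v ∈ T ∧ b v = n then f else b v with hb'
    have hab' : ∀ v ∈ c, a' v ≠ b' v := by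
      intro v hv
      have h1 := hab v hv
      have h2 := hfa v hv
      have h3 := hfb v hv
      simp only [ha', hb']
      split_ifs with h4 h5 h5
      · exact absurd (h4.2.trans h5.2.symm) h1
      · exact fun h => h3 h.symm
      · exact h2
      · exact h1
    have hTn : ∀ v, v ∈ T ↔ v ∈ c ∧ (a v = n ∨ b v = n) ∧ v ∉ S := by
      intro v
      rw [hT, Finset.mem_sdiff, aux_mem_star]
      tauto
    have hSn' : ∀ v, v ∈ S → v ∈ c ∧ (a v = n ∨ b v = n) := fun v hv => aux_mem_star.1 (hSn hv)
    have star_n : star c a' b' n = S := by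
      ext v
      rw [aux_mem_star]
      simp only [ha', hb']
      have h1 := hTn v
      have h2 := hSn' v
      constructor
      · rintro ⟨hv, h⟩
        by_cases hvT : v ∈ T
        · exfalso
          simp only [hvT, true_and] at h
          rcases h with h | h
          · split_ifs at h with h3
            · exact hfn h
            · exact h3 h
          · split_ifs at h with h3
            · exact hfn h
            · exact h3 h
        · simp only [hvT, false_and, if_false] at h
          tauto
      · intro hvS
        have hvT : v ∉ T := by tauto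
        simp only [hvT, false_and, if_false]
        exact h2 hvS
    have star_f : star c a' b' f = T := by
      ext v
      rw [aux_mem_star]
      simp only [ha', hb']
      have h1 := hTn v
      constructor
      · rintro ⟨hv, h⟩
        by_contra hvT
        simp only [hvT, false_and, if_false] at h
        rcases h with h | h
        · exact hfa v hv h
        · exact hfb v hv h
      · intro hvT
        obtain ⟨hv, h, -⟩ := h1.1 hvT
        refine ⟨hv, ?_⟩
        rcases h with h | h
        · left; rw [if_pos ⟨hvT, h⟩]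
        · right; rw [if_pos ⟨hvT, h⟩]
    have star_m : ∀ m, m ≠ n → m ≠ f → star c a' b' m = star c a b m := by
      intro m hmn hmf
      ext v
      rw [aux_mem_star, aux_mem_star]
      simp only [ha', hb']
      have e1 : (if v ∈ T ∧ a v = n then f else a v) = m ↔ a v = m := by
        split_ifs with h
        · constructor
          · intro h'; exact absurd h'.symm hmf
          · intro h'; exact absurd (h'.symm.trans h.2) hmn
        · rfl
      have e2 : (if v ∈ T ∧ b v = n then f else b v) = m ↔ b v = m := by
        split_ifs with h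
        · constructor
          · intro h'; exact absurd h'.symm hmf
          · intro h'; exact absurd (h'.symm.trans h.2) hmn
        · rfl
      rw [e1, e2]
    have star_ne : ∀ m, m ∈ nodes c a' b' ↔ (star c a' b' m).Nonempty := by
      intro m
      rw [aux_mem_nodes]
      constructor
      · rintro ⟨v, hv, h⟩; exact ⟨v, aux_mem_star.2 ⟨hv, h⟩⟩
      · rintro ⟨v, hv⟩; exact ⟨v, (aux_mem_star.1 hv).1, (aux_mem_star.1 hv).2⟩
    have star_ne0 : ∀ m, m ∈ nodes c a b ↔ (star c a b m).Nonempty := by
      intro m
      rw [aux_mem_nodes]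
      constructor
      · rintro ⟨v, hv, h⟩; exact ⟨v, aux_mem_star.2 ⟨hv, h⟩⟩
      · rintro ⟨v, hv⟩; exact ⟨v, (aux_mem_star.1 hv).1, (aux_mem_star.1 hv).2⟩
    have nodes' : nodes c a' b' = insert f (nodes c a b) := by
      ext m
      rw [star_ne, Finset.mem_insert]
      by_cases hmf : m = f
      · rw [hmf, star_f]; simp [hTne]
      · by_cases hmn : m = n
        · rw [hmn, star_n]; simp [hSne, hn]
        · rw [star_m m hmn hmf, star_ne0]; simp [hmf]
    have hle : R ⊓ supp K (star c a b n) ≤ (R ⊓ supp K S) ⊔ (R ⊓ supp K T) :=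
      aux_split_le R S T _ hST hres
    have hrk : rk R (star c a b n) ≤ rk R S + rk R T := aux_rk_split_le R S T _ hST hres
    -- old sums are below new ones
    have hsum : ∀ m ∈ (nodes c a' b'), ∃ m0 ∈ nodes c a b,
        (⨆ n' ∈ (nodes c a b).erase m0, R ⊓ supp K (star c a b n')) ≤
        ⨆ n' ∈ (nodes c a' b').erase m, R ⊓ supp K (star c a' b' n') := by
      intro m hm
      rw [nodes', Finset.mem_insert] at hm
      by_cases hmn : m = n ∨ m = f
      · refine ⟨n, hn, ?_⟩
        apply iSup₂_le
        intro m' hm'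
        rw [Finset.mem_erase] at hm'
        have hm'f : m' ≠ f := fun h => hf (h ▸ hm'.2)
        have : m' ∈ (nodes c a' b').erase m := by
          rw [nodes', Finset.mem_erase, Finset.mem_insert]
          refine ⟨?_, Or.inr hm'.2⟩
          rcases hmn with h | h
          · rw [h]; exact hm'.1
          · rw [h]; exact hm'f
        refine le_trans ?_ (le_iSup₂ (f := fun n' (_ : n' ∈ (nodes c a' b').erase m) =>
          R ⊓ supp K (star c a' b' n')) m' this)
        rw [star_m m' hm'.1 hm'f]
      · push Not at hmn
        have hmU : m ∈ nodes c a b := by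
          rcases hm with h | h
          · exact absurd h hmn.2
          · exact h
        refine ⟨m, hmU, ?_⟩
        apply iSup₂_le
        intro m' hm'
        rw [Finset.mem_erase] at hm'
        have hm'f : m' ≠ f := fun h => hf (h ▸ hm'.2)
        by_cases hm'n : m' = n
        · rw [hm'n]
          refine le_trans hle (sup_le ?_ ?_)
          · have : n ∈ (nodes c a' b').erase m := by
              rw [nodes', Finset.mem_erase, Finset.mem_insert]
              exact ⟨hmn.1.symm, Or.inr hn⟩
            refine le_trans ?_ (le_iSup₂ (f := fun n' (_ : n' ∈ (nodes c a' b').erase m) =>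
              R ⊓ supp K (star c a' b' n')) n this)
            rw [star_n]
          · have : f ∈ (nodes c a' b').erase m := by
              rw [nodes', Finset.mem_erase, Finset.mem_insert]
              exact ⟨hmn.2.symm, Or.inl rfl⟩
            refine le_trans ?_ (le_iSup₂ (f := fun n' (_ : n' ∈ (nodes c a' b').erase m) =>
              R ⊓ supp K (star c a' b' n')) f this)
            rw [star_f]
        · have : m' ∈ (nodes c a' b').erase m := by
            rw [nodes', Finset.mem_erase, Finset.mem_insert]
            exact ⟨hm'.1, Or.inr hm'.2⟩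
          refine le_trans ?_ (le_iSup₂ (f := fun n' (_ : n' ∈ (nodes c a' b').erase m) =>
            R ⊓ supp K (star c a' b' n')) m' this)
          rw [star_m m' hm'n hm'f]
    have hcard : (nodes c a' b').card = (nodes c a b).card + 1 := by
      rw [nodes', Finset.card_insert_of_notMem hf]
    have hcb := aux_card_nodes c a' b'
    have h := ih (2 * c.card - (nodes c a' b').card) (by omega) a' b' hab'
      (fun m hm => by
        obtain ⟨m0, hm0, hle'⟩ := hsum m hm
        exact (NC m0 hm0).trans hle') rfl
    have hs : ∑ m ∈ nodes c a' b', rk R (star c a' b' m) =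
        rk R T + (∑ m ∈ (nodes c a b).erase n, rk R (star c a b m) + rk R S) := by
      rw [nodes', Finset.sum_insert hf, star_f]
      congr 1
      rw [← Finset.sum_erase_add _ _ hn, star_n]
      congr 1
      apply Finset.sum_congr rfl
      intro m hm
      rw [Finset.mem_erase] at hm
      rw [star_m m hm.1 (fun h => hf (h ▸ hm.2))]
    have hs2 : ∑ m ∈ nodes c a b, rk R (star c a b m) =
        ∑ m ∈ (nodes c a b).erase n, rk R (star c a b m) + rk R (star c a b n) :=
      (Finset.sum_erase_add _ _ hn).symm
    omega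

end Pool.Agent.Helper166_PQ
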