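import Mathlib
import Pool.Agent.Helper166_PQ.Defs

/-!
# Linear algebra preliminaries for the optimisation argument
-/

set_option autoImplicit false
set_option linter.unusedSectionVars false

namespace Pool.Agent.Helper166_PQ

open Module

section LinAlg

variable {K M N : Type*} [Field K] [AddCommGroup M] [Module K M] [AddCommGroup N] [Module K N]
variable [FiniteDimensional K M] [FiniteDimensional K N]

theorem finrank_map_add (W : Submodule K M) (φ : M →ₗ[K] N) :
    finrank K (W.map φ) + finrank K (W ⊓ LinearMap.ker φ : Submodule K M) = finrank K W := by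
  have h := LinearMap.finrank_range_add_finrank_ker (φ.domRestrict W)
  rw [LinearMap.range_domRestrict] at h
  rw [← h]
  congr 1
  have h2 : (W ⊓ LinearMap.ker φ : Submodule K M) = (LinearMap.ker (φ.domRestrict W)).map W.subtype := by
    rw [LinearMap.ker_domRestrict, Submodule.map_comap_subtype]
  rw [h2]
  exact (LinearEquiv.finrank_eq (Submodule.equivMapOfInjective W.subtype W.injective_subtype _)).symm

/-- Adding images does not increase the difference of dimensions. -/
theorem finrank_fold (W W' : Submodule K M) (hW : W ≤ W') (R : Submodule K N) (φ : M →ₗ[K] N)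
    (hR : W.map φ ≤ R) :
    finrank K (R ⊔ W'.map φ : Submodule K N) + finrank K W ≤ finrank K R + finrank K W' := by
  have h1 := Submodule.finrank_sup_add_finrank_inf_eq R (W'.map φ)
  have h2 := finrank_map_add W φ
  have h3 := finrank_map_add W' φ
  have h4 : finrank K (W.map φ) ≤ finrank K (R ⊓ W'.map φ : Submodule K N) :=
    Submodule.finrank_mono (le_inf hR (Submodule.map_mono hW))
  have h5 : finrank K (W ⊓ LinearMap.ker φ : Submodule K M) ≤
      finrank K (W' ⊓ LinearMap.ker φ : Submodule K M) :=
    Submodule.finrank_mono (inf_le_inf_right _ hW)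
  omega

/-- Restricting to a preimage. -/
theorem finrank_unfold (W : Submodule K M) (R R₁ : Submodule K N) (h₁ : R₁ ≤ R) (ψ : M →ₗ[K] N)
    (hψ : W.map ψ ≤ R) :
    finrank K W + finrank K R₁ ≤ finrank K R + finrank K (W ⊓ R₁.comap ψ : Submodule K M) := by
  have h2 := finrank_map_add W (R₁.mkQ ∘ₗ ψ)
  have h3 := finrank_map_add R R₁.mkQ
  rw [Submodule.ker_mkQ, inf_eq_right.2 h₁] at h3
  rw [LinearMap.ker_comp, Submodule.ker_mkQ, Submodule.map_comp] at h2
  have h4 := Submodule.finrank_mono (Submodule.map_mono (f := R₁.mkQ) hψ)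
  omega

/-- A subspace is generated over a smaller one by `finrank R - finrank R'` elements. -/
theorem exists_finset_span (R R' : Submodule K M) (h : R' ≤ R) :
    ∃ t : Finset M, t.card + finrank K R' ≤ finrank K R ∧ R' ⊔ Submodule.span K (t : Set M) = R := by
  classical
  obtain ⟨Q, hQ⟩ := Submodule.exists_isCompl (R'.submoduleOf R)
  let Q' : Submodule K M := Q.map R.subtype
  have hsup : R' ⊔ Q' = R := by
    have h1 : (R'.submoduleOf R).map R.subtype = R' := by
      rw [Submodule.submoduleOf, Submodule.map_comap_subtype, inf_eq_right.2 h]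
    rw [← h1, ← Submodule.map_sup, hQ.sup_eq_top, Submodule.map_top, Submodule.range_subtype]
  have hinf : R' ⊓ Q' = ⊥ := by
    have h1 : (R'.submoduleOf R).map R.subtype = R' := by
      rw [Submodule.submoduleOf, Submodule.map_comap_subtype, inf_eq_right.2 h]
    rw [← h1, ← Submodule.map_inf _ R.injective_subtype, hQ.inf_eq_bot, Submodule.map_bot]
  have hdim := Submodule.finrank_sup_add_finrank_inf_eq R' Q'
  rw [hsup, hinf, finrank_bot, add_zero] at hdim
  let b := Module.finBasis K Q'
  refine ⟨Finset.univ.image fun i => (b i : M), ?_, ?_⟩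
  · have := Finset.card_image_le (s := (Finset.univ : Finset (Fin (finrank K Q'))))
      (f := fun i => (b i : M))
    rw [Finset.card_univ, Fintype.card_fin] at this
    omega
  · have h2 : Submodule.span K (((Finset.univ.image fun i => (b i : M)) : Finset M) : Set M) = Q' := by
      rw [Finset.coe_image, Finset.coe_univ, Set.image_univ]
      have h3 : (Set.range fun i => (b i : M)) = Q'.subtype '' (Set.range b) := by
        rw [← Set.range_comp]; rfl
      rw [h3, Submodule.span_image, b.span_eq, Submodule.map_top, Submodule.range_subtype]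
    rw [h2, hsup]

end LinAlg

section Res

variable {K V : Type*} [Field K] [DecidableEq V]

theorem res_res (S T : Finset V) (x : V → K) : res S (res T x) = res (S ∩ T) x := by
  ext v
  simp only [res_apply, Finset.mem_inter]
  by_cases h1 : v ∈ S <;> by_cases h2 : v ∈ T <;> simp [h1, h2]

theorem res_comm (S T : Finset V) (x : V → K) : res S (res T x) = res T (res S x) := by
  rw [res_res, res_res, Finset.inter_comm]

theorem res_mem_supp (S : Finset V) (x : V → K) : res S x ∈ supp K S := by
  intro v hv
  rw [res_apply, if_neg hv]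

theorem res_eq_self {S : Finset V} {x : V → K} (h : x ∈ supp K S) : res S x = x := by
  ext v
  rw [res_apply]
  by_cases hv : v ∈ S
  · rw [if_pos hv]
  · rw [if_neg hv, h v hv]

theorem res_of_subset {S T : Finset V} (h : S ⊆ T) (x : V → K) : res S (res T x) = res S x := by
  rw [res_res, Finset.inter_eq_left.2 h]

end Res

section CycLemmas

variable {V Ed : Type} [Fintype V] [DecidableEq V] [Fintype Ed] [DecidableEq Ed]
variable {K : Type*} [Field K] (C : Cyc V Ed)

namespace Cyc

theorem P_apply (β : Bool) (r : Ed → K) (v : V) :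
    C.P β r v = ∑ e, if C.en β e = v then r e else 0 := rfl

/-- edges with end of kind `β` in `S` -/
def pre (β : Bool) (S : Finset V) : Finset Ed := Finset.univ.filter fun e => C.en β e ∈ S

theorem mem_pre {β : Bool} {S : Finset V} {e : Ed} : e ∈ C.pre β S ↔ C.en β e ∈ S := by
  simp [pre]

theorem mem_cls {p : V → ℕ} {ε : ℕ} {e : Ed} : e ∈ C.cls p ε ↔ C.q p e = ε := by
  simp [cls]

theorem res_P (β : Bool) (S : Finset V) (r : Ed → K) :
    res S (C.P β r) = C.P β (res (C.pre β S) r) := by
  ext v
  rw [res_apply, P_apply, P_apply]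
  by_cases hv : v ∈ S
  · rw [if_pos hv]
    refine Finset.sum_congr rfl fun e _ => ?_
    by_cases he : C.en β e = v
    · rw [if_pos he, if_pos he, res_apply, if_pos (C.mem_pre.2 (he ▸ hv))]
    · rw [if_neg he, if_neg he]
  · rw [if_neg hv]
    symm
    refine Finset.sum_eq_zero fun e _ => ?_
    by_cases he : C.en β e = v
    · rw [if_pos he, res_apply, if_neg (fun h => hv (he ▸ C.mem_pre.1 h))]
    · rw [if_neg he]

theorem P_supp_kind (β : Bool) (r : Ed → K) (v : V) (hv : C.kind v ≠ β) : C.P β r v = 0 := by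
  rw [P_apply]
  refine Finset.sum_eq_zero fun e _ => ?_
  rw [if_neg]
  intro h
  exact hv (h ▸ C.kind_en β e)

theorem pair_inj_q {p : V → ℕ} {e e' : Ed} : C.q p e = C.q p e' ↔
    C.lab e = C.lab e' ∧ p (C.en false e) = p (C.en false e') ∧
      p (C.en true e) = p (C.en true e') := by
  simp [q, Nat.pair_eq_pair]

theorem q_end {p : V → ℕ} {e e' : Ed} (h : C.q p e = C.q p e') (β : Bool) :
    p (C.en β e) = p (C.en β e') := by
  cases β
  · exact (C.pair_inj_q.1 h).2.1
  · exact (C.pair_inj_q.1 h).2.2

theorem q_lab {p : V → ℕ} {e e' : Ed} (h : C.q p e = C.q p e') : C.lab e = C.lab e' :=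
  (C.pair_inj_q.1 h).1

theorem q_ext {p : V → ℕ} {e e' : Ed} (h : C.lab e = C.lab e')
    (h' : ∀ β, p (C.en β e) = p (C.en β e')) : C.q p e = C.q p e' :=
  C.pair_inj_q.2 ⟨h, h' false, h' true⟩

/-- an edge is determined by its label and one end -/
theorem en_inj {β : Bool} {e e' : Ed} (hl : C.lab e = C.lab e') (h : C.en β e = C.en β e') :
    e = e' := by
  have hk : C.kind (C.en β e) = β := C.kind_en β e
  have h1 := C.en_eq (C.en β e) e (by rw [hk])
  have h2 := C.en_eq (C.en β e) e' (by rw [hk]; exact h.symm)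
  rcases h1 with h1 | h1 <;> rcases h2 with h2 | h2
  · rw [h1, h2]
  · exfalso
    apply C.lab_ne (C.en β e)
    rw [← h1, ← h2, hl]
  · exfalso
    apply C.lab_ne (C.en β e)
    rw [← h1, ← h2, hl]
  · rw [h1, h2]

theorem sum_cls (p : V → ℕ) (r : Ed → K) :
    ∑ ε ∈ Finset.univ.image (C.q p), res (C.cls p ε) r = r := by
  ext e
  rw [Finset.sum_apply]
  rw [Finset.sum_eq_single (C.q p e)]
  · rw [res_apply, if_pos (C.mem_cls.2 rfl)]
  · intro ε _ hε
    rw [res_apply, if_neg]
    intro h
    exact hε (C.mem_cls.1 h).symm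
  · intro h
    exact absurd (Finset.mem_image_of_mem _ (Finset.mem_univ e)) h

theorem mem_Wd {p : V → ℕ} {R : Submodule K (V → K)} {r : Ed → K} :
    r ∈ C.Wd p R ↔ ∀ ε β, C.P β (res (C.cls p ε) r) ∈ R := Iff.rfl

theorem P_mem {p : V → ℕ} {R : Submodule K (V → K)} {r : Ed → K} (h : r ∈ C.Wd p R) (β : Bool) :
    C.P β r ∈ R := by
  rw [← C.sum_cls p r, map_sum]
  exact Submodule.sum_mem _ fun ε _ => h ε β

/-- `E'` is a union of classes -/
def Sat (p : V → ℕ) (E' : Finset Ed) : Prop := ∀ e e', C.q p e = C.q p e' → (e ∈ E' → e' ∈ E')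

theorem res_sat_mem {p : V → ℕ} {R : Submodule K (V → K)} {r : Ed → K} (h : r ∈ C.Wd p R)
    {E' : Finset Ed} (hE : C.Sat p E') : res E' r ∈ C.Wd p R := by
  intro ε β
  by_cases h1 : ∃ e ∈ C.cls p ε, e ∈ E'
  · obtain ⟨e, he, heE⟩ := h1
    have : res (C.cls p ε) (res E' r) = res (C.cls p ε) r := by
      refine res_of_subset ?_ r
      intro e' he'
      exact hE e e' ((C.mem_cls.1 he).trans (C.mem_cls.1 he').symm) heE
    rw [this]
    exact h ε β
  · have : res (C.cls p ε) (res E' r) = 0 := by
      ext e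
      rw [res_apply]
      by_cases he : e ∈ C.cls p ε
      · rw [if_pos he, res_apply, if_neg]
        · rfl
        · intro h2
          exact h1 ⟨e, he, h2⟩
      · rw [if_neg he]; rfl
    rw [this, map_zero]
    exact R.zero_mem

theorem sat_cls (p : V → ℕ) (ε : ℕ) : C.Sat p (C.cls p ε) := by
  intro e e' h he
  rw [C.mem_cls] at *
  rw [← h, he]

theorem sat_pre (p : V → ℕ) (β : Bool) (k : ℕ) :
    C.Sat p (C.pre β (Finset.univ.filter fun v => p v = k)) := by
  intro e e' h he
  rw [C.mem_pre, Finset.mem_filter] at *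
  exact ⟨Finset.mem_univ _, by rw [← C.q_end h β]; exact he.2⟩

theorem res_cls_mem {p : V → ℕ} {R : Submodule K (V → K)} {r : Ed → K} (h : r ∈ C.Wd p R)
    (ε : ℕ) : res (C.cls p ε) r ∈ C.Wd p R := C.res_sat_mem h (C.sat_cls p ε)

end Cyc

end CycLemmas

section Ideals

variable {V : Type} [Fintype V] [DecidableEq V]
variable {K : Type*} [Field K] {A : Type*} [Ring A] [Algebra K A]

theorem smul_mem_rI {I : Submodule Aᵐᵒᵖ A} {a : A} (c : K) (h : a ∈ I) : c • a ∈ I := by
  have : c • a = a * algebraMap K A c := by rw [← Algebra.commutes, Algebra.smul_def]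
  rw [this]
  exact mul_mem_right' h _

theorem omega_mem_Id (ω : A) (br : (V → K) →ₗ[K] A) (R : Submodule K (V → K)) : ω ∈ Id ω br R :=
  subset_rI (Set.mem_insert _ _)

theorem br_mem_Id (ω : A) (br : (V → K) →ₗ[K] A) (R : Submodule K (V → K)) {x : V → K}
    (hx : x ∈ R) : br x ∈ Id ω br R :=
  subset_rI (Set.mem_insert_of_mem _ ⟨x, hx, rfl⟩)

theorem Id_le (ω : A) (br : (V → K) →ₗ[K] A) (R : Submodule K (V → K)) {I : Submodule Aᵐᵒᵖ A}
    (h : ω ∈ I) (h' : ∀ x ∈ R, br x ∈ I) : Id ω br R ≤ I := by
  refine rI_le ?_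
  intro a ha
  rcases Set.mem_insert_iff.1 ha with rfl | ⟨x, hx, rfl⟩
  · exact h
  · exact h' x hx

theorem Id_mono (ω : A) (br : (V → K) →ₗ[K] A) {R R' : Submodule K (V → K)} (h : R ≤ R') :
    Id ω br R ≤ Id ω br R' :=
  Id_le ω br R (omega_mem_Id ω br R') fun _ hx => br_mem_Id ω br R' (h hx)

theorem GW_add (ω : A) (br : (V → K) →ₗ[K] A) {R R' : Submodule K (V → K)} (h : R' ≤ R) {j : ℕ}
    (hj : GW ω (Id ω br R') j) :
    ∃ k, k + finrank K R' ≤ finrank K R ∧ GW ω (Id ω br R) (j + k) := by
  classical
  obtain ⟨t, ht, hsp⟩ := exists_finset_span R R' h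
  obtain ⟨s, hs, hI⟩ := hj
  refine ⟨t.card, ht, s ∪ t.image br, ?_, ?_⟩
  · exact (Finset.card_union_le _ _).trans (add_le_add hs Finset.card_image_le)
  · apply le_antisymm
    · refine rI_le ?_
      intro a ha
      rcases Set.mem_insert_iff.1 ha with rfl | ha
      · exact omega_mem_Id _ br R
      · rw [Finset.coe_union, Finset.coe_image] at ha
        rcases ha with ha | ⟨x, hx, rfl⟩
        · apply Id_mono ω br h
          rw [← hI]
          exact subset_rI (Set.mem_insert_of_mem _ ha)
        · refine br_mem_Id ω br R ?_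
          rw [← hsp]
          exact Submodule.mem_sup_right (Submodule.subset_span hx)
    · refine Id_le ω br R (subset_rI (Set.mem_insert _ _)) ?_
      set J := rI (insert ω (((s ∪ t.image br : Finset A)) : Set A)) with hJ
      have h1 : Id ω br R' ≤ J := by
        rw [← hI]
        refine rI_le ?_
        intro a ha
        rcases Set.mem_insert_iff.1 ha with rfl | ha
        · exact subset_rI (Set.mem_insert _ _)
        · exact subset_rI (Set.mem_insert_of_mem _ (by
            rw [Finset.coe_union]; exact Or.inl ha))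
      have h2 : ∀ x ∈ Submodule.span K (t : Set (V → K)), br x ∈ J := by
        intro x hx
        induction hx using Submodule.span_induction with
        | mem x hx =>
          refine subset_rI (Set.mem_insert_of_mem _ ?_)
          rw [Finset.coe_union, Finset.coe_image]
          exact Or.inr ⟨x, hx, rfl⟩
        | zero => rw [map_zero]; exact J.zero_mem
        | add x y _ _ hx hy => rw [map_add]; exact J.add_mem hx hy
        | smul c x _ hx => rw [map_smul]; exact smul_mem_rI c hx
      intro x hx
      rw [← hsp] at hx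
      obtain ⟨y, hy, z, hz, rfl⟩ := Submodule.mem_sup.1 hx
      rw [map_add]
      exact J.add_mem (h1 (br_mem_Id ω br R' hy)) (h2 z hz)

end Ideals

end Pool.Agent.Helper166_PQ
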