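import Mathlib
import Pool.Agent.Helper166_PQ.Opt1

/-!
# Moves which preserve the validity of a structure
-/

set_option autoImplicit false
set_option linter.unusedSectionVars false
set_option linter.unusedVariables false

namespace Pool.Agent.Helper166_PQ

open Module

variable {V Ed : Type} [Fintype V] [DecidableEq V] [Fintype Ed] [DecidableEq Ed]
variable {K : Type*} [Field K] {A : Type*} [Ring A] [Algebra K A]

/-- The valid structures. -/
structure Valid (C : Cyc V Ed) (ω : A) (br : (V → K) →ₗ[K] A) (m : ℕ) (p : V → ℕ)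
    (R : Submodule K (V → K)) : Prop where
  kinded : C.Kinded p
  graded : Graded p R
  le_m : finrank K R + 1 ≤ m + finrank K (C.Wd p R)
  lt_gw : ∀ k, GW ω (Id ω br R) k → finrank K R < k + finrank K (C.Wd p R)
  ne_top : Id ω br R ≠ ⊤

variable {C : Cyc V Ed} {ω : A} {br : (V → K) →ₗ[K] A} {m : ℕ} {p : V → ℕ}
  {R : Submodule K (V → K)}

/-- A general step to a smaller subspace, for the same colouring. -/
theorem Valid.shrink (h : Valid C ω br m p R) (R' : Submodule K (V → K)) (hR' : R' ≤ R)
    (hg : Graded p R') (k₂ : ℕ)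
    (hgw : ∀ j, GW ω (Id ω br R') j → GW ω (Id ω br R) (j + k₂))
    (hd : finrank K R' + finrank K (C.Wd p R) + k₂ ≤ finrank K R + finrank K (C.Wd p R')) :
    Valid C ω br m p R' where
  kinded := h.kinded
  graded := hg
  le_m := by have := h.le_m; omega
  lt_gw := by
    intro k hk
    have := h.lt_gw _ (hgw k hk)
    omega
  ne_top := by
    intro htop
    apply h.ne_top
    rw [eq_top_iff, ← htop]
    exact Id_mono ω br hR'

/-- the relations which come from the edges -/
def edgePart (C : Cyc V Ed) (p : V → ℕ) (R : Submodule K (V → K)) : Submodule K (V → K) :=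
  (C.Wd p R).map (C.P false) ⊔ (C.Wd p R).map (C.P true)

theorem map_P_le (β : Bool) : (C.Wd p R).map (C.P β) ≤ R := by
  rintro _ ⟨r, hr, rfl⟩
  exact C.P_mem hr β

theorem edgePart_le : edgePart C p R ≤ R := sup_le (map_P_le false) (map_P_le true)

theorem graded_map_P (β : Bool) (E' : Finset Ed) (_hE : C.Sat p E') :
    Graded p (((C.Wd p R).map (res E')).map (C.P β)) := by
  rintro _ ⟨_, ⟨r, hr, rfl⟩, rfl⟩ k
  rw [C.res_P, res_comm]
  exact ⟨_, ⟨_, C.res_sat_mem hr (C.sat_pre p β k), rfl⟩, rfl⟩

theorem Graded.sup {R R' : Submodule K (V → K)} (h : Graded p R) (h' : Graded p R') :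
    Graded p (R ⊔ R') := by
  intro x hx k
  obtain ⟨y, hy, z, hz, rfl⟩ := Submodule.mem_sup.1 hx
  rw [map_add]
  exact Submodule.add_mem_sup (h y hy k) (h' z hz k)

theorem graded_map_P' (β : Bool) : Graded p ((C.Wd p R).map (C.P β)) := by
  have h := graded_map_P (C := C) (p := p) (R := R) β Finset.univ (fun _ _ _ _ => Finset.mem_univ _)
  have h2 : (C.Wd p R).map (res (Finset.univ : Finset Ed)) = C.Wd p R := by
    have : (res (Finset.univ : Finset Ed) : (Ed → K) →ₗ[K] (Ed → K)) = LinearMap.id := by
      ext x e
      simp [res_apply]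
    rw [this, Submodule.map_id]
  rwa [h2] at h

theorem Wd_le_edgePart : C.Wd p R ≤ C.Wd p (edgePart C p R) := by
  intro r hr ε β
  have h1 := C.res_cls_mem hr ε
  cases β
  · exact Submodule.mem_sup_left ⟨_, h1, rfl⟩
  · exact Submodule.mem_sup_right ⟨_, h1, rfl⟩

theorem Valid.edgePart (h : Valid C ω br m p R) : Valid C ω br m p (edgePart C p R) := by
  classical
  have hle := edgePart_le (C := C) (p := p) (R := R)
  refine h.shrink _ hle ((graded_map_P' false).sup (graded_map_P' true))
    (finrank K R - finrank K (Helper166_PQ.edgePart C p R)) ?_ ?_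
  · intro j hj
    obtain ⟨k, hk, hk'⟩ := GW_add ω br hle hj
    obtain ⟨t, ht, hI⟩ := hk'
    exact ⟨t, by omega, hI⟩
  · have h1 := Submodule.finrank_mono hle
    have h2 := Submodule.finrank_mono (Wd_le_edgePart (C := C) (p := p) (R := R))
    omega

section Unfold

variable (C p R)

/-- the edge relations without the class `ε₀` -/
def Wno (ε₀ : ℕ) : Submodule K (Ed → K) := (C.Wd p R).map (res (Finset.univ.filter fun e => C.q p e ≠ ε₀))

/-- the smaller subspace for the unfolding move -/
def unf (β : Bool) (ε₀ : ℕ) : Submodule K (V → K) :=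
  (Wno C p R ε₀).map (C.P β) ⊔ (C.Wd p R).map (C.P (!β))

variable {C p R}

theorem sat_ne (ε₀ : ℕ) : C.Sat p (Finset.univ.filter fun e => C.q p e ≠ ε₀) := by
  intro e e' h he
  rw [Finset.mem_filter] at *
  exact ⟨Finset.mem_univ _, h ▸ he.2⟩

theorem Wno_le (ε₀ : ℕ) : Wno C p R ε₀ ≤ C.Wd p R := by
  rintro _ ⟨r, hr, rfl⟩
  exact C.res_sat_mem hr (sat_ne ε₀)

theorem unf_le (β : Bool) (ε₀ : ℕ) : unf C p R β ε₀ ≤ R :=
  sup_le ((Submodule.map_mono (Wno_le ε₀)).trans (map_P_le β)) (map_P_le _)

theorem unf_graded (β : Bool) (ε₀ : ℕ) : Graded p (unf C p R β ε₀) :=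
  (graded_map_P β _ (sat_ne ε₀)).sup (graded_map_P' _)

theorem W1_le (β : Bool) (ε₀ : ℕ) :
    C.Wd p R ⊓ (unf C p R β ε₀).comap (C.P β ∘ₗ res (C.cls p ε₀)) ≤ C.Wd p (unf C p R β ε₀) := by
  rintro r ⟨hr, hr'⟩ ε γ
  by_cases hγ : γ = β
  · subst hγ
    by_cases hε : ε = ε₀
    · subst hε
      exact hr'
    · refine Submodule.mem_sup_left ⟨_, ⟨_, C.res_cls_mem hr ε, ?_⟩, rfl⟩
      ext e
      rw [res_apply, res_apply]
      by_cases h1 : C.q p e = ε
      · rw [if_pos, if_pos (C.mem_cls.2 h1)]
        rw [Finset.mem_filter]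
        exact ⟨Finset.mem_univ _, by rw [h1]; exact hε⟩
      · rw [if_neg (fun h => h1 (C.mem_cls.1 h))]
        simp
  · have hγ' : γ = !β := by cases γ <;> cases β <;> simp_all
    rw [hγ']
    exact Submodule.mem_sup_right ⟨_, C.res_cls_mem hr ε, rfl⟩

theorem finrank_unf (β : Bool) (ε₀ : ℕ) :
    finrank K (unf C p R β ε₀) + finrank K (C.Wd p R) ≤
      finrank K R + finrank K (C.Wd p (unf C p R β ε₀)) := by
  have h1 := finrank_unfold (C.Wd p R) R (unf C p R β ε₀) (unf_le β ε₀)
    (C.P β ∘ₗ res (C.cls p ε₀)) (by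
      rintro _ ⟨r, hr, rfl⟩
      exact hr ε₀ β)
  have h2 := Submodule.finrank_mono (W1_le (C := C) (p := p) (R := R) β ε₀)
  omega

end Unfold

/-- The evaluation is compatible with the edges. -/
def Compat (C : Cyc V Ed) (ω : A) (br : (V → K) →ₗ[K] A) (lam : ℕ → Aˣ) : Prop :=
  ∀ e, br (Pi.single (C.en true e) 1) - br (Pi.single (C.en false e) 1) * (lam (C.lab e) : A) ∈
    rI ({ω} : Set A)

theorem P_eq_sum (β : Bool) (r : Ed → K) : C.P β r = ∑ e, r e • Pi.single (C.en β e) (1 : K) := by
  ext v
  rw [C.P_apply, Finset.sum_apply]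
  refine Finset.sum_congr rfl fun e _ => ?_
  rw [Pi.smul_apply, smul_eq_mul, Pi.single_apply]
  by_cases h : C.en β e = v
  · rw [if_pos h, if_pos h.symm, mul_one]
  · rw [if_neg h, if_neg (fun h' => h h'.symm), mul_zero]

theorem compat_label {lam : ℕ → Aˣ} (hc : Compat C ω br lam) (l : ℕ) (r : Ed → K)
    (hr : ∀ e, r e ≠ 0 → C.lab e = l) :
    br (C.P true r) - br (C.P false r) * (lam l : A) ∈ rI ({ω} : Set A) := by
  rw [P_eq_sum, P_eq_sum, map_sum, map_sum, Finset.sum_mul, ← Finset.sum_sub_distrib]
  refine Submodule.sum_mem _ fun e _ => ?_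
  by_cases h : r e = 0
  · rw [h]; simp
  · have := hc e
    rw [hr e h] at this
    have h2 := smul_mem_rI (K := K) (r e) this
    rw [smul_sub, ← smul_mul_assoc, ← map_smul, ← map_smul] at h2
    exact h2

theorem compat_mem {lam : ℕ → Aˣ} (hc : Compat C ω br lam) (l : ℕ) (r : Ed → K)
    (hr : ∀ e, r e ≠ 0 → C.lab e = l) (I : Submodule Aᵐᵒᵖ A) (hω : ω ∈ I) (β : Bool)
    (h : br (C.P (!β) r) ∈ I) : br (C.P β r) ∈ I := by
  have h1 := compat_label hc l r hr
  have h2 : rI ({ω} : Set A) ≤ I := rI_le (by intro a ha; rw [Set.mem_singleton_iff.1 ha]; exact hω)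
  have h3 := h2 h1
  cases β
  · have h4 := I.sub_mem h h3
    rw [Bool.not_false, sub_sub_cancel] at h4
    have h5 := mul_mem_right' h4 ((lam l)⁻¹ : Aˣ)
    rwa [mul_assoc, Units.mul_inv, mul_one] at h5
  · have h4 := I.add_mem h3 (mul_mem_right' h (lam l))
    simpa using h4

theorem Valid.unf {lam : ℕ → Aˣ} (hc : Compat C ω br lam) (h : Valid C ω br m p R)
    (hR : R ≤ Helper166_PQ.edgePart C p R) (β : Bool) (ε₀ : ℕ) :
    Valid C ω br m p (Helper166_PQ.unf C p R β ε₀) := by
  have hId : Id ω br (Helper166_PQ.unf C p R β ε₀) = Id ω br R := by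
    apply le_antisymm (Id_mono ω br (unf_le β ε₀))
    refine Id_le ω br R (omega_mem_Id ω br _) ?_
    have key : ∀ r ∈ C.Wd p R, ∀ γ, br (C.P γ r) ∈ Id ω br (Helper166_PQ.unf C p R β ε₀) := by
      intro r hr γ
      by_cases hγ : γ = β
      · subst hγ
        have hsplit : r = res (Finset.univ.filter fun e => C.q p e ≠ ε₀) r + res (C.cls p ε₀) r := by
          ext e
          rw [Pi.add_apply, res_apply, res_apply]
          by_cases h1 : C.q p e = ε₀
          · rw [if_neg, if_pos (C.mem_cls.2 h1), zero_add]
            rw [Finset.mem_filter]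
            exact fun h => h.2 h1
          · rw [if_pos, if_neg (fun h => h1 (C.mem_cls.1 h)), add_zero]
            rw [Finset.mem_filter]
            exact ⟨Finset.mem_univ _, h1⟩
        rw [hsplit, map_add, map_add]
        refine Submodule.add_mem _ ?_ ?_
        · exact br_mem_Id ω br _ (Submodule.mem_sup_left ⟨_, ⟨r, hr, rfl⟩, rfl⟩)
        · by_cases hne : ∃ e, e ∈ C.cls p ε₀
          · obtain ⟨e₀, he₀⟩ := hne
            refine compat_mem hc (C.lab e₀) _ ?_ _ (omega_mem_Id ω br _) γ ?_
            · intro e he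
              rw [res_apply] at he
              have h1 : e ∈ C.cls p ε₀ := by
                by_contra h1
                rw [if_neg h1] at he
                exact he rfl
              exact C.q_lab ((C.mem_cls.1 h1).trans (C.mem_cls.1 he₀).symm)
            · exact br_mem_Id ω br _ (Submodule.mem_sup_right ⟨_, C.res_cls_mem hr ε₀, rfl⟩)
          · have : res (C.cls p ε₀) r = 0 := by
              ext e
              rw [res_apply, if_neg (fun h => hne ⟨e, h⟩)]
              rfl
            rw [this, map_zero, map_zero]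
            exact Submodule.zero_mem _
      · have hγ' : γ = !β := by cases γ <;> cases β <;> simp_all
        rw [hγ']
        exact br_mem_Id ω br _ (Submodule.mem_sup_right ⟨_, hr, rfl⟩)
    intro x hx
    obtain ⟨y, ⟨r, hr, rfl⟩, z, ⟨s, hs, rfl⟩, rfl⟩ := Submodule.mem_sup.1 (hR hx)
    rw [map_add]
    exact Submodule.add_mem _ (key r hr false) (key s hs true)
  refine h.shrink _ (unf_le β ε₀) (unf_graded β ε₀) 0 ?_ ?_
  · intro j hj
    rw [hId] at hj
    simpa using hj
  · have := finrank_unf (C := C) (p := p) (R := R) β ε₀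
    omega

section Split

variable (C p R)

/-- recolouring `S` with a fresh colour -/
def recol (p : V → ℕ) (S : Finset V) (f : ℕ) (v : V) : ℕ := if v ∈ S then f else p v

/-- the larger space of edge relations -/
def splW (β : Bool) (S : Finset V) : Submodule K (Ed → K) :=
  C.Wd p R ⊔ (C.Wd p R).map (res (C.pre β S))

/-- the larger space of vertex relations -/
def splR (β : Bool) (S : Finset V) : Submodule K (V → K) := R ⊔ (splW C p R β S).map (C.P (!β))

variable {C p R}

theorem splW_pre {β : Bool} {S : Finset V} {r : Ed → K} (hr : r ∈ splW C p R β S) :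
    res (C.pre β S) r ∈ splW C p R β S := by
  obtain ⟨x, hx, _, ⟨y, hy, rfl⟩, rfl⟩ := Submodule.mem_sup.1 hr
  rw [map_add, res_res, Finset.inter_self]
  exact Submodule.add_mem _ (Submodule.mem_sup_right ⟨x, hx, rfl⟩)
    (Submodule.mem_sup_right ⟨y, hy, rfl⟩)

theorem splW_sat {β : Bool} {S : Finset V} {r : Ed → K} (hr : r ∈ splW C p R β S)
    {E' : Finset Ed} (hE : C.Sat p E') : res E' r ∈ splW C p R β S := by
  obtain ⟨x, hx, _, ⟨y, hy, rfl⟩, rfl⟩ := Submodule.mem_sup.1 hr
  rw [map_add, res_comm]
  exact Submodule.add_mem _ (Submodule.mem_sup_left (C.res_sat_mem hx hE))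
    (Submodule.mem_sup_right ⟨_, C.res_sat_mem hy hE, rfl⟩)

theorem res_split {c S : Finset V} (hS : S ⊆ c)
    (hsp : ∀ x ∈ R ⊓ supp K c, res S x ∈ R) {x : V → K} (hx : res c x ∈ R) : res S x ∈ R := by
  have h1 := hsp (res c x) ⟨hx, res_mem_supp c x⟩
  rwa [res_of_subset hS] at h1

theorem splW_P {β : Bool} {k : ℕ} {S : Finset V} (hg : Graded p R)
    (hS : S ⊆ Finset.univ.filter fun v => p v = k)
    (hsp : ∀ x ∈ R ⊓ supp K (Finset.univ.filter fun v => p v = k), res S x ∈ R)
    {r : Ed → K} (hr : r ∈ splW C p R β S) (γ : Bool) : C.P γ r ∈ splR C p R β S := by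
  by_cases hγ : γ = β
  · subst hγ
    refine Submodule.mem_sup_left ?_
    obtain ⟨x, hx, _, ⟨y, hy, rfl⟩, rfl⟩ := Submodule.mem_sup.1 hr
    rw [map_add]
    refine R.add_mem (C.P_mem hx γ) ?_
    rw [← C.res_P]
    exact res_split hS hsp (hg _ (C.P_mem hy γ) k)
  · have hγ' : γ = !β := by cases γ <;> cases β <;> simp_all
    rw [hγ']
    exact Submodule.mem_sup_right ⟨r, hr, rfl⟩

theorem recol_kinded (hk : C.Kinded p) {S : Finset V} {k f : ℕ}
    (hS : S ⊆ Finset.univ.filter fun v => p v = k) (hf : ∀ v, p v ≠ f) :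
    C.Kinded (recol p S f) := by
  intro v v' h
  unfold recol at h
  by_cases h1 : v ∈ S <;> by_cases h2 : v' ∈ S
  · have h3 := (Finset.mem_filter.1 (hS h1)).2
    have h4 := (Finset.mem_filter.1 (hS h2)).2
    exact hk v v' (h3.trans h4.symm)
  · rw [if_pos h1, if_neg h2] at h
    exact absurd h.symm (hf v')
  · rw [if_neg h1, if_pos h2] at h
    exact absurd h (hf v)
  · rw [if_neg h1, if_neg h2] at h
    exact hk v v' h

theorem recol_graded {β : Bool} (hg : Graded p R) {S : Finset V} {k f : ℕ}
    (hS : S ⊆ Finset.univ.filter fun v => p v = k) (hf : ∀ v, p v ≠ f)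
    (hkind : ∀ v ∈ S, C.kind v = β)
    (hsp : ∀ x ∈ R ⊓ supp K (Finset.univ.filter fun v => p v = k), res S x ∈ R) :
    Graded (recol p S f) (splR C p R β S) := by
  refine Graded.sup ?_ ?_
  · intro x hx k'
    by_cases hk' : k' = f
    · have : (Finset.univ.filter fun v => recol p S f v = k') = S := by
        ext v
        simp only [Finset.mem_filter, Finset.mem_univ, true_and, recol, hk']
        by_cases h : v ∈ S
        · simp [h]
        · simp [h, hf v]
      rw [this]
      exact res_split hS hsp (hg x hx k)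
    · have : res (Finset.univ.filter fun v => recol p S f v = k') x =
          res (Finset.univ.filter fun v => p v = k') x -
            (if k' = k then res S x else 0) := by
        ext v
        rw [Pi.sub_apply, res_apply, res_apply]
        by_cases h : v ∈ S
        · have h3 := (Finset.mem_filter.1 (hS h)).2
          have h5 : v ∉ Finset.univ.filter fun v => recol p S f v = k' := by
            rw [Finset.mem_filter, recol, if_pos h]
            exact fun h6 => hk' h6.2.symm
          rw [if_neg h5]
          by_cases h4 : k' = k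
          · rw [if_pos, if_pos h4, res_apply, if_pos h, sub_self]
            rw [Finset.mem_filter]
            exact ⟨Finset.mem_univ _, h3.trans h4.symm⟩
          · rw [if_neg, if_neg h4]
            · simp
            · rw [Finset.mem_filter]
              exact fun h6 => h4 (h6.2.symm.trans h3)
        · have h5 : (v ∈ Finset.univ.filter fun v => recol p S f v = k') ↔
              (v ∈ Finset.univ.filter fun v => p v = k') := by
            rw [Finset.mem_filter, Finset.mem_filter, recol, if_neg h]
          have h6 : (if k' = k then res S x else 0) v = 0 := by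
            by_cases h4 : k' = k
            · rw [if_pos h4, res_apply, if_neg h]
            · rw [if_neg h4]; rfl
          rw [h6, sub_zero]
          by_cases h7 : v ∈ Finset.univ.filter fun v => p v = k'
          · rw [if_pos h7, if_pos (h5.2 h7)]
          · rw [if_neg h7, if_neg (fun h8 => h7 (h5.1 h8))]
      rw [this]
      refine R.sub_mem (hg x hx k') ?_
      by_cases h4 : k' = k
      · rw [if_pos h4]; exact res_split hS hsp (hg x hx k)
      · rw [if_neg h4]; exact R.zero_mem
  · rintro _ ⟨r, hr, rfl⟩ k'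
    rw [C.res_P]
    by_cases hk' : k' = f
    · have : C.P (!β) (res (C.pre (!β) (Finset.univ.filter fun v => recol p S f v = k')) r) = 0 := by
        rw [← C.res_P]
        ext v
        rw [res_apply]
        by_cases h : v ∈ Finset.univ.filter fun v => recol p S f v = k'
        · rw [if_pos h]
          apply C.P_supp_kind
          have h1 : v ∈ S := by
            by_contra h1
            rw [Finset.mem_filter, recol, if_neg h1] at h
            exact hf v (h.2.trans hk')
          rw [hkind v h1]
          cases β <;> simp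
        · rw [if_neg h]; rfl
      rw [this]
      exact Submodule.zero_mem _
    · have : C.pre (!β) (Finset.univ.filter fun v => recol p S f v = k') =
          C.pre (!β) (Finset.univ.filter fun v => p v = k') := by
        ext e
        rw [C.mem_pre, C.mem_pre, Finset.mem_filter, Finset.mem_filter, recol, if_neg]
        intro h
        have h1 := hkind _ h
        rw [C.kind_en] at h1
        cases β <;> simp at h1
      rw [this]
      exact ⟨_, splW_sat hr (C.sat_pre p (!β) k'), rfl⟩

theorem splW_le {β : Bool} (hg : Graded p R) {S : Finset V} {k f : ℕ}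
    (hS : S ⊆ Finset.univ.filter fun v => p v = k) (hf : ∀ v, p v ≠ f)
    (hkind : ∀ v ∈ S, C.kind v = β)
    (hsp : ∀ x ∈ R ⊓ supp K (Finset.univ.filter fun v => p v = k), res S x ∈ R) :
    splW C p R β S ≤ C.Wd (recol p S f) (splR C p R β S) := by
  intro r hr ε γ
  refine splW_P hg hS hsp ?_ γ
  by_cases hne : ∃ e, e ∈ C.cls (recol p S f) ε
  · obtain ⟨e₀, he₀⟩ := hne
    -- the other end is never in `S`
    have hother : ∀ e, C.en (!β) e ∉ S := by
      intro e h
      have h1 := hkind _ h
      rw [C.kind_en] at h1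
      cases β <;> simp at h1
    by_cases h0 : C.en β e₀ ∈ S
    · have : res (C.cls (recol p S f) ε) r = res (C.cls p (C.q p e₀)) (res (C.pre β S) r) := by
        rw [res_res]
        congr 2
        ext e
        rw [Finset.mem_inter, C.mem_cls, C.mem_cls, C.mem_pre, ← C.mem_cls.1 he₀]
        constructor
        · intro h
          have h1 := C.q_end h β
          have h2 := C.q_end h (!β)
          unfold recol at h1 h2
          rw [if_neg (hother e), if_neg (hother e₀)] at h2
          rw [if_pos h0] at h1
          have h3 : C.en β e ∈ S := by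
            by_contra h3
            rw [if_neg h3] at h1
            exact hf _ h1
          refine ⟨C.q_ext (C.q_lab h) ?_, h3⟩
          intro δ
          by_cases hδ : δ = β
          · subst hδ
            rw [(Finset.mem_filter.1 (hS h3)).2, (Finset.mem_filter.1 (hS h0)).2]
          · have hδ' : δ = !β := by cases δ <;> cases β <;> simp_all
            rw [hδ']; exact h2
        · rintro ⟨h, h3⟩
          refine C.q_ext (C.q_lab h) ?_
          intro δ
          unfold recol
          by_cases hδ : δ = β
          · subst hδ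
            rw [if_pos h3, if_pos h0]
          · have hδ' : δ = !β := by cases δ <;> cases β <;> simp_all
            rw [hδ', if_neg (hother e), if_neg (hother e₀)]
            exact C.q_end h _
      rw [this]
      exact splW_sat (splW_pre hr) (C.sat_cls p _)
    · have : res (C.cls (recol p S f) ε) r =
          res (C.cls p (C.q p e₀)) (r - res (C.pre β S) r) := by
        ext e
        rw [res_apply, res_apply, Pi.sub_apply, res_apply]
        by_cases h3 : C.en β e ∈ S
        · rw [if_pos (C.mem_pre.2 h3), sub_self, ite_self, if_neg]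
          intro h
          rw [C.mem_cls, ← C.mem_cls.1 he₀] at h
          have h1 := C.q_end h β
          unfold recol at h1
          rw [if_pos h3, if_neg h0] at h1
          exact hf _ h1.symm
        · rw [if_neg (fun h => h3 (C.mem_pre.1 h)), sub_zero]
          have : e ∈ C.cls (recol p S f) ε ↔ e ∈ C.cls p (C.q p e₀) := by
            rw [C.mem_cls, C.mem_cls, ← C.mem_cls.1 he₀]
            have h5 : ∀ δ, ∀ e', (C.en β e' ∉ S) → recol p S f (C.en δ e') = p (C.en δ e') := by
              intro δ e' he'
              unfold recol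
              by_cases hδ : δ = β
              · subst hδ
                rw [if_neg he']
              · have hδ' : δ = !β := by cases δ <;> cases β <;> simp_all
                rw [hδ', if_neg (hother e')]
            constructor
            · intro h
              refine C.q_ext (C.q_lab h) fun δ => ?_
              have := C.q_end h δ
              rwa [h5 δ e h3, h5 δ e₀ h0] at this
            · intro h
              refine C.q_ext (C.q_lab h) fun δ => ?_
              rw [h5 δ e h3, h5 δ e₀ h0]
              exact C.q_end h δ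
          by_cases h : e ∈ C.cls (recol p S f) ε
          · rw [if_pos h, if_pos (this.1 h)]
          · rw [if_neg h, if_neg (fun h' => h (this.2 h'))]
      rw [this]
      exact splW_sat (Submodule.sub_mem _ hr (splW_pre hr)) (C.sat_cls p _)
  · have : res (C.cls (recol p S f) ε) r = 0 := by
      ext e
      rw [res_apply, if_neg (fun h => hne ⟨e, h⟩)]
      rfl
    rw [this]
    exact Submodule.zero_mem _

theorem Id_splR {lam : ℕ → Aˣ} (hc : Compat C ω br lam) {β : Bool} (hg : Graded p R)
    {S : Finset V} {k : ℕ} (hS : S ⊆ Finset.univ.filter fun v => p v = k)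
    (hsp : ∀ x ∈ R ⊓ supp K (Finset.univ.filter fun v => p v = k), res S x ∈ R) :
    Id ω br (splR C p R β S) = Id ω br R := by
  apply le_antisymm _ (Id_mono ω br le_sup_left)
  refine Id_le ω br _ (omega_mem_Id ω br _) ?_
  intro x hx
  obtain ⟨y, hy, _, ⟨r, hr, rfl⟩, rfl⟩ := Submodule.mem_sup.1 hx
  rw [map_add]
  refine Submodule.add_mem _ (br_mem_Id ω br R hy) ?_
  obtain ⟨r₁, hr₁, _, ⟨r₂, hr₂, rfl⟩, rfl⟩ := Submodule.mem_sup.1 hr
  rw [map_add, map_add]
  refine Submodule.add_mem _ (br_mem_Id ω br R (C.P_mem hr₁ _)) ?_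
  -- decompose into classes
  have hs : res (C.pre β S) r₂ = ∑ ε ∈ Finset.univ.image (C.q p),
      res (C.cls p ε) (res (C.pre β S) r₂) := (C.sum_cls p _).symm
  rw [hs, map_sum, map_sum]
  refine Submodule.sum_mem _ fun ε hε => ?_
  obtain ⟨e₀, _, rfl⟩ := Finset.mem_image.1 hε
  refine compat_mem hc (C.lab e₀) _ ?_ _ (omega_mem_Id ω br _) (!β) ?_
  · intro e he
    rw [res_apply] at he
    have h1 : e ∈ C.cls p (C.q p e₀) := by
      by_contra h1
      rw [if_neg h1] at he
      exact he rfl
    exact C.q_lab (C.mem_cls.1 h1)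
  · rw [Bool.not_not, res_comm, ← C.res_P]
    refine br_mem_Id ω br R ?_
    exact res_split hS hsp (hg _ (hr₂ _ β) k)

theorem Valid.split {lam : ℕ → Aˣ} (hc : Compat C ω br lam) (h : Valid C ω br m p R)
    {β : Bool} {S : Finset V} {k f : ℕ}
    (hS : S ⊆ Finset.univ.filter fun v => p v = k) (hf : ∀ v, p v ≠ f)
    (hkind : ∀ v ∈ S, C.kind v = β)
    (hsp : ∀ x ∈ R ⊓ supp K (Finset.univ.filter fun v => p v = k), res S x ∈ R) :
    Valid C ω br m (recol p S f) (splR C p R β S) := by
  have hId := Id_splR hc (β := β) h.graded hS hsp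
  have h1 := finrank_fold (C.Wd p R) (splW C p R β S) le_sup_left R (C.P (!β)) (map_P_le _)
  have h2 := Submodule.finrank_mono (splW_le h.graded hS hf hkind hsp)
  have h3 : finrank K (splR C p R β S) = finrank K (R ⊔ (splW C p R β S).map (C.P (!β)) :
    Submodule K (V → K)) := rfl
  exact
    { kinded := recol_kinded h.kinded hS hf
      graded := recol_graded h.graded hS hf hkind hsp
      le_m := by have := h.le_m; omega
      lt_gw := by
        intro j hj
        rw [hId] at hj
        have := h.lt_gw j hj
        omega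
      ne_top := by rw [hId]; exact h.ne_top }

theorem card_recol {S : Finset V} {k f : ℕ} (hS : S ⊆ Finset.univ.filter fun v => p v = k)
    (hne : S.Nonempty) (hS' : S ≠ Finset.univ.filter fun v => p v = k) (hf : ∀ v, p v ≠ f) :
    (Finset.univ.image (recol p S f)).card = (Finset.univ.image p).card + 1 := by
  have : Finset.univ.image (recol p S f) = insert f (Finset.univ.image p) := by
    ext j
    simp only [Finset.mem_image, Finset.mem_univ, true_and, Finset.mem_insert, recol]
    constructor
    · rintro ⟨v, hv⟩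
      by_cases h : v ∈ S
      · rw [if_pos h] at hv; exact Or.inl hv.symm
      · rw [if_neg h] at hv; exact Or.inr ⟨v, hv⟩
    · rintro (h | ⟨v, hv⟩)
      · obtain ⟨v, hv⟩ := hne
        exact ⟨v, by rw [if_pos hv, h]⟩
      · by_cases h : v ∈ S
        · have h3 := (Finset.mem_filter.1 (hS h)).2
          have h4 : ∃ u ∈ Finset.univ.filter fun v => p v = k, u ∉ S := by
            by_contra hcon
            push Not at hcon
            exact hS' (Finset.Subset.antisymm hS hcon)
          obtain ⟨u, hu, hu'⟩ := h4
          refine ⟨u, ?_⟩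
          rw [if_neg hu', (Finset.mem_filter.1 hu).2, ← h3, hv]
        · exact ⟨v, by rw [if_neg h, hv]⟩
  rw [this, Finset.card_insert_of_notMem]
  intro h
  obtain ⟨v, _, hv⟩ := Finset.mem_image.1 h
  exact hf v hv

end Split

end Pool.Agent.Helper166_PQ
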