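import Mathlib
import Pool.Agent.Helper166_PQ.Opt2
import Pool.Agent.Helper166_PQ.Local

/-!
# The optimal structure
-/

set_option autoImplicit false
set_option linter.unusedSectionVars false
set_option linter.unusedVariables false

namespace Pool.Agent.Helper166_PQ

open Module

variable {V Ed : Type} [Fintype V] [DecidableEq V] [Fintype Ed] [DecidableEq Ed]
variable {K : Type*} [Field K] {A : Type*} [Ring A] [Algebra K A]

variable {C : Cyc V Ed} {ω : A} {br : (V → K) →ₗ[K] A} {m : ℕ} {p : V → ℕ}
  {R : Submodule K (V → K)}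

/-- the vertices of a colour -/
def vcl (p : V → ℕ) (k : ℕ) : Finset V := Finset.univ.filter fun v => p v = k

/-- colour of an end of an edge class -/
def ecol (β : Bool) (ε : ℕ) : ℕ :=
  bif β then (Nat.unpair (Nat.unpair ε).2).2 else (Nat.unpair (Nat.unpair ε).2).1

theorem ecol_q (C : Cyc V Ed) (p : V → ℕ) (β : Bool) (e : Ed) : ecol β (C.q p e) = p (C.en β e) := by
  cases β <;> simp [ecol, Cyc.q]

/-- The ends of kind `β` of the edges of a class. -/
def est (C : Cyc V Ed) (p : V → ℕ) (β : Bool) (ε : ℕ) : Finset V := (C.cls p ε).image (C.en β)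

theorem mem_nodes_iff {k : ℕ} {β : Bool} (hk : ∀ v, p v = k → C.kind v = β) (ε : ℕ) :
    ε ∈ nodes (vcl p k) (fun v => C.q p (C.i0 v)) (fun v => C.q p (C.i1 v)) ↔
      ε ∈ Finset.univ.image (C.q p) ∧ ecol β ε = k := by
  unfold nodes vcl
  simp only [Finset.mem_union, Finset.mem_image, Finset.mem_filter, Finset.mem_univ, true_and]
  constructor
  · rintro (⟨v, hv, rfl⟩ | ⟨v, hv, rfl⟩)
    · refine ⟨⟨_, rfl⟩, ?_⟩
      rw [ecol_q, ← hk v hv, C.en_i0, hv]
    · refine ⟨⟨_, rfl⟩, ?_⟩
      rw [ecol_q, ← hk v hv, C.en_i1, hv]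
  · rintro ⟨⟨e, rfl⟩, he⟩
    rw [ecol_q] at he
    have h1 := hk _ he
    have h2 := C.en_eq (C.en β e) e (by rw [h1])
    rcases h2 with h2 | h2
    · exact Or.inl ⟨C.en β e, he, by rw [← h2]⟩
    · exact Or.inr ⟨C.en β e, he, by rw [← h2]⟩

theorem star_eq {k : ℕ} {β : Bool} (hk : ∀ v, p v = k → C.kind v = β) {ε : ℕ}
    (hε : ecol β ε = k) :
    star (vcl p k) (fun v => C.q p (C.i0 v)) (fun v => C.q p (C.i1 v)) ε = est C p β ε := by
  ext v
  unfold star vcl est
  simp only [Finset.mem_image, Finset.mem_filter, Finset.mem_univ, true_and]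
  constructor
  · rintro ⟨hv, h | h⟩
    · exact ⟨C.i0 v, C.mem_cls.2 h, by rw [← hk v hv]; exact C.en_i0 v⟩
    · exact ⟨C.i1 v, C.mem_cls.2 h, by rw [← hk v hv]; exact C.en_i1 v⟩
  · rintro ⟨e, he, rfl⟩
    rw [C.mem_cls] at he
    have h0 : p (C.en β e) = k := by rw [← ecol_q C p β e, he, hε]
    refine ⟨h0, ?_⟩
    have h1 := hk _ h0
    have h2 := C.en_eq (C.en β e) e (by rw [h1])
    rcases h2 with h2 | h2
    · left; rw [← h2]; exact he
    · right; rw [← h2]; exact he

/-- `finrank W` is at most the sum of the ranks of the stars -/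
theorem finrank_Wd_le (β : Bool) :
    finrank K (C.Wd p R) ≤ ∑ ε ∈ Finset.univ.image (C.q p), rk R (est C p β ε) := by
  let J := (↥(Finset.univ.image (C.q p)) : Type)
  letI : Fintype J := Finset.Subtype.fintype (Finset.univ.image (C.q p))
  have hmem : ∀ (r : Ed → K), r ∈ C.Wd p R → ∀ ε, C.P β (res (C.cls p ε) r) ∈
      (R ⊓ supp K (est C p β ε) : Submodule K (V → K)) := by
    intro r hr ε
    refine ⟨hr ε β, ?_⟩
    intro v hv
    rw [C.P_apply]
    refine Finset.sum_eq_zero fun e _ => ?_
    by_cases h : C.en β e = v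
    · rw [if_pos h, res_apply, if_neg]
      intro h2
      exact hv (Finset.mem_image.2 ⟨e, h2, h⟩)
    · rw [if_neg h]
  let Φ : C.Wd p R →ₗ[K] ((j : J) → (R ⊓ supp K (est C p β j.1) : Submodule K (V → K))) :=
    LinearMap.pi fun j => LinearMap.codRestrict _
      ((C.P β ∘ₗ res (C.cls p j.1)) ∘ₗ (C.Wd p R).subtype) fun r => hmem r.1 r.2 j.1
  have hinj : Function.Injective Φ := by
    rw [← LinearMap.ker_eq_bot, LinearMap.ker_eq_bot']
    intro r hr
    ext e
    have h1 := congrFun hr ⟨C.q p e, Finset.mem_image_of_mem _ (Finset.mem_univ e)⟩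
    have h2 : C.P β (res (C.cls p (C.q p e)) r.1) = 0 := congrArg Subtype.val h1
    have h3 := congrFun h2 (C.en β e)
    rw [C.P_apply, Finset.sum_eq_single e] at h3
    · rw [if_pos rfl, res_apply, if_pos (C.mem_cls.2 rfl)] at h3
      exact h3
    · intro e' _ hne
      by_cases h : C.en β e' = C.en β e
      · rw [if_pos h, res_apply, if_neg]
        intro h4
        exact hne (C.en_inj (C.q_lab (C.mem_cls.1 h4)) h)
      · rw [if_neg h]
    · intro h
      exact absurd (Finset.mem_univ e) h
  have h := LinearMap.finrank_le_finrank_of_injective hinj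
  rw [Module.finrank_pi_fintype] at h
  rw [← Finset.sum_coe_sort]
  exact h

theorem sum_rk_le : ∑ k ∈ Finset.univ.image p, rk R (vcl p k) ≤ finrank K R := by
  let J := (↥(Finset.univ.image p) : Type)
  letI : Fintype J := Finset.Subtype.fintype (Finset.univ.image p)
  let Ψ : ((j : J) → (R ⊓ supp K (vcl p j.1) : Submodule K (V → K))) →ₗ[K] R :=
    LinearMap.codRestrict R (∑ j : J, (Submodule.subtype _) ∘ₗ LinearMap.proj j) (by
      intro x
      rw [LinearMap.sum_apply]
      exact Submodule.sum_mem _ fun j _ => (x j).2.1)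
  have hinj : Function.Injective Ψ := by
    rw [← LinearMap.ker_eq_bot, LinearMap.ker_eq_bot']
    intro x hx
    ext j v
    have h1 : (∑ j : J, (Submodule.subtype _) ∘ₗ LinearMap.proj j :
      ((j : J) → (R ⊓ supp K (vcl p j.1) : Submodule K (V → K))) →ₗ[K] (V → K)) x = 0 :=
      congrArg Subtype.val hx
    rw [LinearMap.sum_apply] at h1
    by_cases hv : p v = j.1
    · have h2 := congrFun h1 v
      rw [Finset.sum_apply, Finset.sum_eq_single j] at h2
      · exact h2
      · intro j' _ hne
        refine (x j').2.2 v ?_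
        intro h3
        apply hne
        apply Subtype.ext
        rw [← (Finset.mem_filter.1 h3).2, hv]
      · intro h; exact absurd (Finset.mem_univ j) h
    · have := (x j).2.2 v (by
        intro h3
        exact hv (Finset.mem_filter.1 h3).2)
      rw [this]; rfl
  have h := LinearMap.finrank_le_finrank_of_injective hinj
  rw [Module.finrank_pi_fintype] at h
  rw [← Finset.sum_coe_sort]
  exact h

/-- Summation of the local inequalities. -/
theorem total_ineq (hk : C.Kinded p)
    (hloc : ∀ k ∈ Finset.univ.image p,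
      (nodes (vcl p k) (fun v => C.q p (C.i0 v)) (fun v => C.q p (C.i1 v))).card +
        ∑ n ∈ nodes (vcl p k) (fun v => C.q p (C.i0 v)) (fun v => C.q p (C.i1 v)),
          rk R (star (vcl p k) (fun v => C.q p (C.i0 v)) (fun v => C.q p (C.i1 v)) n) ≤
        2 * rk R (vcl p k) + 2) :
    (Finset.univ.image (C.q p)).card + finrank K (C.Wd p R) ≤
      (Finset.univ.image p).card + finrank K R := by
  classical
  let I : Bool → Finset ℕ := fun β => (Finset.univ.filter fun v => C.kind v = β).image p
  have hI : Finset.univ.image p = I false ∪ I true := by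
    ext k
    simp only [I, Finset.mem_image, Finset.mem_union, Finset.mem_univ, true_and,
      Finset.mem_filter]
    constructor
    · rintro ⟨v, rfl⟩
      cases h : C.kind v
      · exact Or.inl ⟨v, h, rfl⟩
      · exact Or.inr ⟨v, h, rfl⟩
    · rintro (⟨v, _, rfl⟩ | ⟨v, _, rfl⟩) <;> exact ⟨v, rfl⟩
  have hdisj : Disjoint (I false) (I true) := by
    rw [Finset.disjoint_left]
    intro k h1 h2
    obtain ⟨v, hv, rfl⟩ := Finset.mem_image.1 h1
    obtain ⟨v', hv', h⟩ := Finset.mem_image.1 h2
    have := hk _ _ h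
    rw [(Finset.mem_filter.1 hv).2, (Finset.mem_filter.1 hv').2] at this
    exact Bool.noConfusion this
  have hkind : ∀ β, ∀ k ∈ I β, ∀ v, p v = k → C.kind v = β := by
    intro β k hk' v hv
    obtain ⟨v', hv', rfl⟩ := Finset.mem_image.1 hk'
    rw [← (Finset.mem_filter.1 hv').2]
    exact hk _ _ hv
  have hmaps : ∀ β, ∀ ε ∈ Finset.univ.image (C.q p), ecol β ε ∈ I β := by
    intro β ε hε
    obtain ⟨e, _, rfl⟩ := Finset.mem_image.1 hε
    rw [ecol_q]
    exact Finset.mem_image_of_mem _ (Finset.mem_filter.2 ⟨Finset.mem_univ _, C.kind_en β e⟩)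
  have hN : ∀ β, ∀ k ∈ I β,
      nodes (vcl p k) (fun v => C.q p (C.i0 v)) (fun v => C.q p (C.i1 v)) =
        (Finset.univ.image (C.q p)).filter fun ε => ecol β ε = k := by
    intro β k hk'
    ext ε
    rw [mem_nodes_iff (hkind β k hk'), Finset.mem_filter]
  have hcard : ∀ β, ∑ k ∈ I β,
      (nodes (vcl p k) (fun v => C.q p (C.i0 v)) (fun v => C.q p (C.i1 v))).card =
        (Finset.univ.image (C.q p)).card := by
    intro β
    rw [Finset.card_eq_sum_card_fiberwise (hmaps β)]
    exact Finset.sum_congr rfl fun k hk' => by rw [hN β k hk']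
  have hsum : ∀ β, ∑ k ∈ I β,
      ∑ n ∈ nodes (vcl p k) (fun v => C.q p (C.i0 v)) (fun v => C.q p (C.i1 v)),
          rk R (star (vcl p k) (fun v => C.q p (C.i0 v)) (fun v => C.q p (C.i1 v)) n) =
        ∑ ε ∈ Finset.univ.image (C.q p), rk R (est C p β ε) := by
    intro β
    rw [← Finset.sum_fiberwise_of_maps_to (hmaps β)]
    refine Finset.sum_congr rfl fun k hk' => ?_
    rw [hN β k hk']
    refine Finset.sum_congr rfl fun ε hε => ?_
    rw [star_eq (hkind β k hk') (Finset.mem_filter.1 hε).2]
  have h1 := Finset.sum_le_sum hloc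
  rw [hI, Finset.sum_union hdisj, Finset.sum_union hdisj, Finset.sum_add_distrib,
    Finset.sum_add_distrib, hcard, hcard, hsum, hsum, Finset.sum_add_distrib,
    Finset.sum_add_distrib, ← Finset.mul_sum, ← Finset.mul_sum, Finset.sum_const,
    Finset.sum_const, smul_eq_mul, smul_eq_mul] at h1
  have h2 := sum_rk_le (p := p) (R := R)
  rw [hI, Finset.sum_union hdisj] at h2
  have h3 := finrank_Wd_le (C := C) (p := p) (R := R) false
  have h4 := finrank_Wd_le (C := C) (p := p) (R := R) true
  have h5 := Finset.card_union_of_disjoint hdisj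
  rw [← hI] at h5
  omega

theorem opt {lam : ℕ → Aˣ} (hc : Compat C ω br lam) (m : ℕ) (p₀ : V → ℕ)
    (R₀ : Submodule K (V → K)) (h₀ : Valid C ω br m p₀ R₀) :
    ∃ (p : V → ℕ) (R : Submodule K (V → K)), Valid C ω br m p R ∧
      (Finset.univ.image (C.q p)).card + finrank K (C.Wd p R) ≤
        (Finset.univ.image p).card + finrank K R := by
  classical
  let μ : (V → ℕ) × Submodule K (V → K) → ℕ := fun x =>
    (Fintype.card V - (Finset.univ.image x.1).card) * (Fintype.card V + 1) + finrank K x.2
  obtain ⟨⟨p, R⟩, hv, hmin⟩ := (measure μ).wf.has_min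
    {x | Valid C ω br m x.1 x.2} ⟨(p₀, R₀), h₀⟩
  have hv' : Valid C ω br m p R := hv
  have hmin' : ∀ p' R', Valid C ω br m p' R' → μ (p, R) ≤ μ (p', R') := by
    intro p' R' h
    have := hmin (p', R') h
    exact not_lt.1 this
  refine ⟨p, R, hv', total_ineq hv'.kinded ?_⟩
  have hsame : ∀ R', R' ≤ R → Valid C ω br m p R' → R' = R := by
    intro R' hle h
    refine Submodule.eq_of_le_of_finrank_le hle ?_
    have := hmin' p R' h
    simp only [μ] at this
    omega
  have hedge : Helper166_PQ.edgePart C p R = R := hsame _ edgePart_le hv'.edgePart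
  have hunf : ∀ β ε₀, Helper166_PQ.unf C p R β ε₀ = R := fun β ε₀ =>
    hsame _ (unf_le β ε₀) (hv'.unf hc hedge.ge β ε₀)
  intro k hk
  obtain ⟨v₀, _, hv₀⟩ := Finset.mem_image.1 hk
  set β := C.kind v₀ with hβ
  have hkind : ∀ v, p v = k → C.kind v = β := fun v h => hv'.kinded v v₀ (h.trans hv₀.symm)
  refine local_lemma R (vcl p k) ⟨v₀, Finset.mem_filter.2 ⟨Finset.mem_univ _, hv₀⟩⟩ _ _ ?_ ?_ ?_
  · intro v _ h
    exact C.lab_ne v (C.q_lab h)
  · -- NC
    intro ε₀ hε₀ x hx
    rw [← hunf β ε₀] at hx
    obtain ⟨hx1, hx2⟩ := hx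
    obtain ⟨_, ⟨_, ⟨r, hr, rfl⟩, rfl⟩, _, ⟨s, hs, rfl⟩, hsum⟩ := Submodule.mem_sup.1 hx1
    have h1 : x = res (vcl p k) (C.P β (res (Finset.univ.filter fun e => C.q p e ≠ ε₀) r)) := by
      rw [← res_eq_self hx2, ← hsum, map_add]
      have : res (vcl p k) (C.P (!β) s) = 0 := by
        ext v
        rw [res_apply]
        by_cases h : v ∈ vcl p k
        · rw [if_pos h]
          apply C.P_supp_kind
          rw [hkind v (Finset.mem_filter.1 h).2]
          cases β <;> simp
        · rw [if_neg h]; rfl
      rw [this, add_zero]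
    rw [h1, ← C.sum_cls p (res (Finset.univ.filter fun e => C.q p e ≠ ε₀) r), map_sum, map_sum]
    refine Submodule.sum_mem _ fun ε hε => ?_
    by_cases hne : ε = ε₀
    · have : res (C.cls p ε) (res (Finset.univ.filter fun e => C.q p e ≠ ε₀) r) = 0 := by
        ext e
        rw [res_apply, res_apply]
        by_cases h : e ∈ C.cls p ε
        · rw [if_pos h, if_neg]
          · rfl
          · rw [Finset.mem_filter]
            exact fun h2 => h2.2 ((C.mem_cls.1 h).trans hne)
        · rw [if_neg h]; rfl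
      rw [this, map_zero, map_zero]
      exact Submodule.zero_mem _
    · have hr' := C.res_sat_mem hr (sat_ne (C := C) (p := p) ε₀)
      by_cases hcol : ecol β ε = k
      · have hmem : ε ∈ (nodes (vcl p k) (fun v => C.q p (C.i0 v))
            (fun v => C.q p (C.i1 v))).erase ε₀ :=
          Finset.mem_erase.2 ⟨hne, (mem_nodes_iff hkind ε).2 ⟨hε, hcol⟩⟩
        refine Submodule.mem_iSup_of_mem ε (Submodule.mem_iSup_of_mem hmem ?_)
        refine ⟨hv'.graded _ (hr' ε β) k, ?_⟩
        rw [star_eq hkind hcol]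
        intro v hv
        rw [res_apply]
        split_ifs
        · rw [C.P_apply]
          refine Finset.sum_eq_zero fun e _ => ?_
          by_cases h : C.en β e = v
          · rw [if_pos h, res_apply, if_neg]
            intro h2
            exact hv (Finset.mem_image.2 ⟨e, h2, h⟩)
          · rw [if_neg h]
        · rfl
      · have : res (vcl p k) (C.P β (res (C.cls p ε)
            (res (Finset.univ.filter fun e => C.q p e ≠ ε₀) r))) = 0 := by
          ext v
          rw [res_apply]
          by_cases h : v ∈ vcl p k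
          · rw [if_pos h, C.P_apply]
            refine Finset.sum_eq_zero fun e _ => ?_
            by_cases h2 : C.en β e = v
            · rw [if_pos h2, res_apply, if_neg]
              intro h3
              apply hcol
              rw [← C.mem_cls.1 h3, ecol_q, h2]
              exact (Finset.mem_filter.1 h).2
            · rw [if_neg h2]
          · rw [if_neg h]; rfl
        rw [this]
        exact Submodule.zero_mem _
  · -- CONN
    intro S hS hSne hSne'
    by_contra hcon
    push Not at hcon
    obtain ⟨f, hf⟩ : ∃ f : ℕ, ∀ v, p v ≠ f := by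
      obtain ⟨f, hf⟩ := Infinite.exists_notMem_finset (Finset.univ.image p)
      exact ⟨f, fun v h => hf (Finset.mem_image.2 ⟨v, Finset.mem_univ _, h⟩)⟩
    have hval := hv'.split hc (β := β) hS hf
      (fun v hv => hkind v (Finset.mem_filter.1 (hS hv)).2) hcon
    have h1 := hmin' _ _ hval
    have h2 := card_recol hS hSne hSne' hf
    simp only [μ] at h1
    rw [h2] at h1
    have h3 : finrank K (splR C p R β S) ≤ Fintype.card V := by
      have := Submodule.finrank_le (splR C p R β S)
      rwa [Module.finrank_fintype_fun_eq_card] at this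
    have h4 : (Finset.univ.image (recol p S f)).card ≤ Fintype.card V := Finset.card_image_le
    rw [h2] at h4
    have h5 : Fintype.card V - (Finset.univ.image p).card =
        Fintype.card V - ((Finset.univ.image p).card + 1) + 1 := by omega
    rw [h5, add_mul] at h1
    omega

end Pool.Agent.Helper166_PQ
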