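import Mathlib
import Pool.Agent.Helper166_PQ.Opt2

/-!
# Cycles of even length and alternating products
-/

set_option autoImplicit false
set_option linter.unusedSectionVars false

namespace Pool.Agent.Helper166_PQ

open Module

section CycDef

/-- the next vertex -/
def nx {n : ℕ} (v : Fin n) : Fin n := ⟨(v.1 + 1) % n, Nat.mod_lt _ (lt_of_le_of_lt (Nat.zero_le _) v.2)⟩

/-- the preceding vertex -/
def pv {n : ℕ} (v : Fin n) : Fin n :=
  ⟨(v.1 + (n - 1)) % n, Nat.mod_lt _ (lt_of_le_of_lt (Nat.zero_le _) v.2)⟩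

theorem nx_pv {n : ℕ} (v : Fin n) : nx (pv v) = v := by
  apply Fin.ext
  have hv := v.2
  show ((v.1 + (n - 1)) % n + 1) % n = v.1
  rw [Nat.mod_add_mod, show v.1 + (n - 1) + 1 = v.1 + n by omega, Nat.add_mod_right,
    Nat.mod_eq_of_lt hv]

theorem pv_nx {n : ℕ} (v : Fin n) : pv (nx v) = v := by
  apply Fin.ext
  have hv := v.2
  show ((v.1 + 1) % n + (n - 1)) % n = v.1
  rw [Nat.mod_add_mod, show v.1 + 1 + (n - 1) = v.1 + n by omega, Nat.add_mod_right,
    Nat.mod_eq_of_lt hv]

/-- the kind of a vertex -/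
def knd {n : ℕ} (v : Fin n) : Bool := decide (v.1 % 2 = 1)

theorem nx_val {n : ℕ} (v : Fin n) : (nx v).1 = if v.1 + 1 < n then v.1 + 1 else 0 := by
  have hv := v.2
  show (v.1 + 1) % n = _
  split_ifs with h
  · exact Nat.mod_eq_of_lt h
  · rw [show v.1 + 1 = n by omega, Nat.mod_self]

theorem knd_nx {n : ℕ} (h2 : n % 2 = 0) (v : Fin n) : knd (nx v) = !knd v := by
  have hv := v.2
  unfold knd
  rw [nx_val]
  by_cases h1 : v.1 % 2 = 1 <;> split_ifs with h <;> simp [h1] <;> omega

/-- The cycle of (even) length `n`. -/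
def cyc (n : ℕ) (h2 : n % 2 = 0) (lb : ℕ → ℕ) (hlb : ∀ j < n, lb j ≠ lb ((j + 1) % n)) :
    Cyc (Fin n) (Fin n) where
  en β e := if knd e = β then e else nx e
  kind := knd
  i0 v := v
  i1 v := pv v
  lab e := lb e.1
  kind_en β e := by
    split_ifs with h
    · exact h
    · rw [knd_nx h2]
      revert h
      cases β <;> cases knd e <;> simp
  en_i0 v := by rw [if_pos rfl]
  en_i1 v := by
    have h := knd_nx h2 (pv v)
    rw [nx_pv] at h
    rw [if_neg, nx_pv]
    rw [h]
    cases knd (pv v) <;> simp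
  en_eq v e h := by
    split_ifs at h with h1
    · exact Or.inl h
    · right
      rw [← h, pv_nx]
  lab_ne v h := by
    have h1 := hlb (pv v).1 (pv v).2
    apply h1
    have h3 : (nx (pv v)).1 = v.1 := by rw [nx_pv]
    have h4 : (nx (pv v)).1 = ((pv v).1 + 1) % n := rfl
    rw [← h4, h3]
    exact h.symm

end CycDef

section Eval

variable {K : Type*} [Field K] {G : Type*} [Group G] {n : ℕ}

/-- evaluation of functions on the vertices -/
noncomputable def brp (K : Type*) [Field K] {G : Type*} [Group G] (n : ℕ) (a : ℕ → G) :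
    (Fin n → K) →ₗ[K] MonoidAlgebra K G where
  toFun x := ∑ v : Fin n, MonoidAlgebra.single (pth a v.1) (x v)
  map_add' x y := by
    rw [← Finset.sum_add_distrib]
    exact Finset.sum_congr rfl fun v _ => by rw [Pi.add_apply, MonoidAlgebra.single_add]
  map_smul' c x := by
    rw [RingHom.id_apply, Finset.smul_sum]
    exact Finset.sum_congr rfl fun v _ => by
      rw [Pi.smul_apply, MonoidAlgebra.smul_single]

theorem brp_apply (a : ℕ → G) (x : Fin n → K) :
    brp K n a x = ∑ v : Fin n, MonoidAlgebra.single (pth a v.1) (x v) := rfl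

theorem brp_single (a : ℕ → G) (v : Fin n) (c : K) :
    brp K n a (Pi.single v c) = MonoidAlgebra.single (pth a v.1) c := by
  rw [brp_apply, Finset.sum_eq_single v]
  · rw [Pi.single_eq_same]
  · intro v' _ h
    rw [Pi.single_eq_of_ne h, MonoidAlgebra.single_zero]
  · intro h
    exact absurd (Finset.mem_univ v) h

/-- the defect of the edge `e` -/
noncomputable def dfc (K : Type*) [Field K] {G : Type*} [Group G] (n : ℕ) (a : ℕ → G) (e : Fin n) :
    MonoidAlgebra K G :=
  if e.1 + 1 < n then 0 else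
    (MonoidAlgebra.single (pth a n) 1 - 1) * MonoidAlgebra.single (a e.1) 1

theorem edge_defect (h2 : n % 2 = 0) (lb : ℕ → ℕ) (hlb : ∀ j < n, lb j ≠ lb ((j + 1) % n))
    (a : ℕ → G) (e : Fin n) :
    brp K n a (Pi.single ((cyc n h2 lb hlb).en true e) 1) -
      brp K n a (Pi.single ((cyc n h2 lb hlb).en false e) 1) * MonoidAlgebra.single (a e.1) 1 =
      dfc K n a e := by
  have he := e.2
  have hen : ∀ β, (cyc n h2 lb hlb).en β e = if knd e = β then e else nx e := fun _ => rfl
  rw [brp_single, brp_single, MonoidAlgebra.single_mul_single, mul_one, hen, hen]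
  have hstep : pth a (e.1 + 1) = pth a e.1 * (if e.1 % 2 = 0 then a e.1 else (a e.1)⁻¹) := rfl
  unfold dfc
  by_cases hk : e.1 % 2 = 1
  · have hk' : knd e = true := by simp [knd, hk]
    rw [hk', if_pos rfl, if_neg (by simp), nx_val]
    rw [if_neg (by omega)] at hstep
    split_ifs with h
    · rw [hstep]
      rw [inv_mul_cancel_right, sub_self]
    · have : e.1 + 1 = n := by omega
      rw [this] at hstep
      have h0 : pth a 0 = 1 := rfl
      rw [h0, one_mul, sub_mul, one_mul, MonoidAlgebra.single_mul_single, hstep,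
        inv_mul_cancel_right, mul_one]
  · have hk' : knd e = false := by simp [knd, hk]
    rw [hk', if_neg (by simp), if_pos rfl, nx_val]
    rw [if_pos (by omega)] at hstep
    have h : e.1 + 1 < n := by omega
    rw [if_pos h, if_pos h, hstep, sub_self]

theorem dfc_mem (a : ℕ → G) (e : Fin n) :
    dfc K n a e ∈ rI ({MonoidAlgebra.single (pth a n) 1 - 1} : Set (MonoidAlgebra K G)) := by
  unfold dfc
  split_ifs
  · exact Submodule.zero_mem _
  · exact mul_mem_right' (subset_rI (Set.mem_singleton _)) _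

/-- group elements as units -/
noncomputable def un (K : Type*) [Field K] {G : Type*} [Group G] (g : G) : (MonoidAlgebra K G)ˣ where
  val := MonoidAlgebra.single g 1
  inv := MonoidAlgebra.single g⁻¹ 1
  val_inv := by rw [MonoidAlgebra.single_mul_single, mul_inv_cancel, mul_one]; rfl
  inv_val := by rw [MonoidAlgebra.single_mul_single, inv_mul_cancel, mul_one]; rfl

theorem un_val (g : G) : ((un K g : (MonoidAlgebra K G)ˣ) : MonoidAlgebra K G) =
    MonoidAlgebra.single g 1 := rfl

theorem compat_cyc (h2 : n % 2 = 0) (lb : ℕ → ℕ) (hlb : ∀ j < n, lb j ≠ lb ((j + 1) % n))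
    (a : ℕ → G) (lam : ℕ → G) (ha : ∀ j < n, a j = lam (lb j)) :
    Compat (cyc n h2 lb hlb) (MonoidAlgebra.single (pth a n) 1 - 1) (brp K n a)
      (fun l => un K (lam l)) := by
  intro e
  have h := edge_defect (K := K) h2 lb hlb a e
  have h3 : ((un K (lam ((cyc n h2 lb hlb).lab e)) : (MonoidAlgebra K G)ˣ) : MonoidAlgebra K G) =
      MonoidAlgebra.single (a e.1) 1 := by
    have h4 : (cyc n h2 lb hlb).lab e = lb e.1 := rfl
    rw [h4, ha e.1 e.2, un_val]
  rw [h3, h]
  exact dfc_mem a e

end Eval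

end Pool.Agent.Helper166_PQ
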