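import Mathlib
import Pool.Agent.Helper166_PQ.Path1

/-!
# Words of alternating products, and the lift of a structure to a free group on the edge classes
-/

set_option autoImplicit false
set_option linter.unusedSectionVars false

namespace Pool.Agent.Helper166_PQ

open Module

section Words

variable {Y : Type} [DecidableEq Y]

theorem isReduced_range (f : ℕ → Y × Bool) (j : ℕ)
    (h : ∀ i, i + 1 < j → (f i).1 = (f (i + 1)).1 → (f i).2 = (f (i + 1)).2) :
    FreeGroup.IsReduced ((List.range j).map f) := by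
  rw [FreeGroup.IsReduced, List.isChain_iff_getElem]
  intro i hi
  rw [List.getElem_map, List.getElem_map, List.getElem_range, List.getElem_range]
  refine h i ?_
  simpa using hi

theorem toWord_mk_range (f : ℕ → Y × Bool) (j : ℕ)
    (h : ∀ i, i + 1 < j → (f i).1 = (f (i + 1)).1 → (f i).2 = (f (i + 1)).2) :
    (FreeGroup.mk ((List.range j).map f)).toWord = (List.range j).map f := by
  rw [FreeGroup.toWord_mk, (isReduced_range f j h).reduce_eq]

theorem mk_range_succ (f : ℕ → Y × Bool) (j : ℕ) :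
    FreeGroup.mk ((List.range (j + 1)).map f) =
      FreeGroup.mk ((List.range j).map f) * FreeGroup.mk [f j] := by
  rw [List.range_succ, List.map_append, List.map_singleton, FreeGroup.mul_mk]

theorem mk_letter (y : Y × Bool) :
    FreeGroup.mk [y] = if y.2 = true then FreeGroup.of y.1 else (FreeGroup.of y.1)⁻¹ := by
  obtain ⟨y, b⟩ := y
  cases b <;> rfl

theorem pth_of (q : ℕ → Y) (j : ℕ) : pth (fun i => FreeGroup.of (q i)) j =
    FreeGroup.mk ((List.range j).map fun i => (q i, decide (i % 2 = 0))) := by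
  induction j with
  | zero => rfl
  | succ j ih =>
    rw [mk_range_succ, ← ih, mk_letter]
    show pth (fun i => FreeGroup.of (q i)) j * _ = _
    by_cases h : j % 2 = 0 <;> simp [h]

theorem pth_of_inj (q : ℕ → Y) (n : ℕ) (h : ∀ i, i + 1 < n → q i ≠ q (i + 1)) {i j : ℕ}
    (hi : i ≤ n) (hj : j ≤ n) (hij : pth (fun i => FreeGroup.of (q i)) i =
      pth (fun i => FreeGroup.of (q i)) j) : i = j := by
  have h1 := congrArg FreeGroup.toWord hij
  rw [pth_of, pth_of, toWord_mk_range, toWord_mk_range] at h1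
  · simpa using congrArg List.length h1
  · intro k hk h2; exact absurd h2 (h k (by omega))
  · intro k hk h2; exact absurd h2 (h k (by omega))

theorem pth_map {G G' : Type*} [Group G] [Group G'] (f : G →* G') (a : ℕ → G) (j : ℕ) :
    f (pth a j) = pth (fun i => f (a i)) j := by
  induction j with
  | zero => exact map_one f
  | succ j ih =>
    show f (pth a j * _) = pth _ j * _
    rw [map_mul, ih]
    split_ifs <;> simp

theorem pth_congr {G : Type*} [Group G] (a a' : ℕ → G) (j : ℕ) (h : ∀ i < j, a i = a' i) :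
    pth a j = pth a' j := by
  induction j with
  | zero => rfl
  | succ j ih =>
    show pth a j * _ = pth a' j * _
    rw [ih fun i hi => h i (by omega), h j (by omega)]

/-- telescoping -/
theorem pth_tel {G : Type*} [Group G] (a g : ℕ → G) (P : ℕ → G) (n : ℕ)
    (h : ∀ j < n, g j = if j % 2 = 0 then P j * a j * (P (j + 1))⁻¹
      else P (j + 1) * a j * (P j)⁻¹) (j : ℕ) (hj : j ≤ n) :
    pth g j = P 0 * pth a j * (P j)⁻¹ := by
  induction j with
  | zero => show (1 : G) = P 0 * 1 * (P 0)⁻¹; group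
  | succ j ih =>
    show pth g j * _ = P 0 * (pth a j * _) * _
    rw [ih (by omega), h j (by omega)]
    split_ifs <;> group

end Words

section Images

variable {B : Type*} [Ring B] {A : Type*} [Ring A]

theorem map_mem_rI (φ : B →+* A) {S : Set B} {I : Submodule Aᵐᵒᵖ A} (h : ∀ b ∈ S, φ b ∈ I) :
    ∀ b ∈ rI S, φ b ∈ I := by
  intro b hb
  induction hb using Submodule.span_induction with
  | mem x hx => exact h x hx
  | zero => rw [map_zero]; exact I.zero_mem
  | add x y _ _ hx hy => rw [map_add]; exact I.add_mem hx hy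
  | smul c x _ hx =>
    have : φ (c • x) = φ x * φ c.unop := by
      rw [← map_mul]; rfl
    rw [this]
    exact mul_mem_right' hx _

theorem rI_image_le (φ : B →+* A) {S S' : Set B} (h : rI S ≤ rI S') :
    rI (φ '' S) ≤ rI (φ '' S') := by
  refine rI_le ?_
  rintro _ ⟨b, hb, rfl⟩
  exact map_mem_rI φ (I := rI (φ '' S')) (fun b hb => subset_rI ⟨b, hb, rfl⟩) b (h (subset_rI hb))

theorem rI_image_eq (φ : B →+* A) {S S' : Set B} (h : rI S = rI S') :
    rI (φ '' S) = rI (φ '' S') :=
  le_antisymm (rI_image_le φ h.le) (rI_image_le φ h.ge)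

end Images

section Lift

variable {K : Type*} [Field K] {n : ℕ} (h2 : n % 2 = 0) (lb : ℕ → ℕ)
  (hlb : ∀ j < n, lb j ≠ lb ((j + 1) % n)) (p : Fin n → ℕ) (R : Submodule K (Fin n → K))

/-- the set of edge classes -/
abbrev QC : Type := ↥(Finset.univ.image ((cyc n h2 lb hlb).q p))

/-- the class of an edge, as an element of `QC` -/
def qc (e : Fin n) : QC h2 lb hlb p :=
  ⟨(cyc n h2 lb hlb).q p e, Finset.mem_image_of_mem _ (Finset.mem_univ e)⟩

/-- the words of the lift -/
noncomputable def ahat (hn : 0 < n) (j : ℕ) : FreeGroup (QC h2 lb hlb p) :=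
  FreeGroup.of (qc h2 lb hlb p ⟨j % n, Nat.mod_lt _ hn⟩)

theorem ahat_inj (hn : 0 < n) {i j : ℕ} (hi : i ≤ n) (hj : j ≤ n)
    (hij : pth (ahat h2 lb hlb p hn) i = pth (ahat h2 lb hlb p hn) j) : i = j := by
  refine pth_of_inj (fun j => qc h2 lb hlb p ⟨j % n, Nat.mod_lt _ hn⟩) n ?_ hi hj hij
  intro k hk h
  have h3 : (cyc n h2 lb hlb).q p ⟨k % n, Nat.mod_lt _ hn⟩ =
    (cyc n h2 lb hlb).q p ⟨(k + 1) % n, Nat.mod_lt _ hn⟩ := congrArg Subtype.val h
  have h4 := (cyc n h2 lb hlb).q_lab h3
  have h5 : lb (k % n) = lb ((k + 1) % n) := h4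
  rw [Nat.mod_eq_of_lt (show k < n by omega)] at h5
  exact hlb k (by omega) h5

theorem brp_inj {G : Type*} [Group G] (a : ℕ → G)
    (ha : ∀ i < n, ∀ j < n, pth a i = pth a j → i = j) :
    Function.Injective (brp K n a) := by
  classical
  rw [← LinearMap.ker_eq_bot, LinearMap.ker_eq_bot']
  intro x hx
  ext v
  have h := congrArg (fun y : MonoidAlgebra K G => y.coeff (pth a v.1)) hx
  rw [brp_apply, MonoidAlgebra.coeff_sum, Finsupp.finsetSum_apply, Finset.sum_eq_single v] at h
  · simpa using h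
  · intro v' _ hne
    rw [MonoidAlgebra.coeff_single, Finsupp.single_apply, if_neg]
    intro h3
    exact hne (Fin.ext (ha _ v'.2 _ v.2 h3))
  · intro h3; exact absurd (Finset.mem_univ v) h3

/-- the correction at the last edge -/
noncomputable def dz (K : Type*) [Field K] {G : Type*} [Group G] (n : ℕ) (a : ℕ → G) (e : Fin n) :
    MonoidAlgebra K G :=
  if e.1 + 1 < n then 0 else (MonoidAlgebra.single (pth a n) 1 - 1)

theorem dz_mul {G : Type*} [Group G] (a : ℕ → G) (e : Fin n) :
    dz K n a e * MonoidAlgebra.single (a e.1) 1 = dfc K n a e := by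
  unfold dz dfc
  split_ifs
  · rw [zero_mul]
  · rfl

/-- the corrected evaluation of the even ends -/
noncomputable def Tm {G : Type*} [Group G] (a : ℕ → G) : (Fin n → K) →ₗ[K] MonoidAlgebra K G where
  toFun r := brp K n a ((cyc n h2 lb hlb).P false r) + ∑ e, r e • dz K n a e
  map_add' x y := by
    rw [map_add, map_add]
    simp only [Pi.add_apply, add_smul, Finset.sum_add_distrib]
    abel
  map_smul' c x := by
    rw [map_smul, map_smul, RingHom.id_apply, smul_add, Finset.smul_sum]
    simp only [Pi.smul_apply, smul_eq_mul, mul_smul]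

theorem Tm_apply {G : Type*} [Group G] (a : ℕ → G) (r : Fin n → K) : Tm h2 lb hlb a r =
    brp K n a ((cyc n h2 lb hlb).P false r) + ∑ e, r e • dz K n a e := rfl

theorem Tm_mul {G : Type*} [Group G] (a : ℕ → G) (r : Fin n → K) (g : G)
    (hr : ∀ e, r e ≠ 0 → a e.1 = g) :
    Tm h2 lb hlb a r * MonoidAlgebra.single g 1 = brp K n a ((cyc n h2 lb hlb).P true r) := by
  rw [Tm_apply, P_eq_sum, P_eq_sum, map_sum, map_sum, add_mul, Finset.sum_mul, Finset.sum_mul,
    ← Finset.sum_add_distrib]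
  refine Finset.sum_congr rfl fun e _ => ?_
  by_cases h : r e = 0
  · rw [h]; simp
  · rw [← hr e h, map_smul, map_smul, smul_mul_assoc, smul_mul_assoc, dz_mul, ← smul_add,
      ← edge_defect h2 lb hlb a e]
    congr 1
    abel

/-- the lifted subspace -/
noncomputable def Rhat (hn : 0 < n) : Submodule K (MonoidAlgebra K (FreeGroup (QC h2 lb hlb p))) :=
  Submodule.span K {MonoidAlgebra.single (pth (ahat h2 lb hlb p hn) n) 1 - 1} ⊔
    R.map (brp K n (ahat h2 lb hlb p hn))

instance fin_Rhat (hn : 0 < n) : FiniteDimensional K (Rhat h2 lb hlb p R hn) := by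
  unfold Rhat; infer_instance

theorem finrank_Rhat_le (hn : 0 < n) : finrank K (Rhat h2 lb hlb p R hn) ≤ finrank K R + 1 := by
  unfold Rhat
  refine (Submodule.finrank_add_le_finrank_add_finrank _ _).trans ?_
  have h1 : finrank K (Submodule.span K
      {(MonoidAlgebra.single (pth (ahat h2 lb hlb p hn) n) (1 : K) - 1 :
        MonoidAlgebra K (FreeGroup (QC h2 lb hlb p)))}) ≤ 1 := by
    have := finrank_span_le_card (R := K)
      ({(MonoidAlgebra.single (pth (ahat h2 lb hlb p hn) n) (1 : K) - 1 :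
        MonoidAlgebra K (FreeGroup (QC h2 lb hlb p)))} :
        Set (MonoidAlgebra K (FreeGroup (QC h2 lb hlb p))))
    simpa using this
  have h3 := Submodule.finrank_map_le (brp K n (ahat h2 lb hlb p hn)) R
  omega

theorem ahat_eq (hn : 0 < n) (e : Fin n) :
    ahat h2 lb hlb p hn e.1 = FreeGroup.of (qc h2 lb hlb p e) := by
  unfold ahat
  congr 2
  exact Fin.ext (Nat.mod_eq_of_lt e.2)

theorem Tm_mem (hn : 0 < n) {r : Fin n → K} (hr : r ∈ (cyc n h2 lb hlb).Wd p R) :
    Tm h2 lb hlb (ahat h2 lb hlb p hn) r ∈ Rhat h2 lb hlb p R hn := by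
  rw [Tm_apply]
  refine Submodule.add_mem _ ?_ ?_
  · exact Submodule.mem_sup_right ⟨_, (cyc n h2 lb hlb).P_mem hr false, rfl⟩
  · refine Submodule.sum_mem _ fun e _ => Submodule.smul_mem _ _ ?_
    unfold dz
    split_ifs
    · exact Submodule.zero_mem _
    · exact Submodule.mem_sup_left (Submodule.mem_span_singleton_self _)

theorem finrank_Wd_le_Ex (hn : 0 < n) : finrank K ((cyc n h2 lb hlb).Wd p R) ≤
    ∑ ε : QC h2 lb hlb p, finrank K (Ex (Rhat h2 lb hlb p R hn) (FreeGroup.of ε)) := by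
  set C := cyc n h2 lb hlb with hC
  have hsupp : ∀ (ε : QC h2 lb hlb p) (r : Fin n → K) (e : Fin n),
      res (C.cls p ε.1) r e ≠ 0 → ahat h2 lb hlb p hn e.1 = FreeGroup.of ε := by
    intro ε r e he
    rw [ahat_eq]
    congr 1
    apply Subtype.ext
    rw [res_apply] at he
    by_contra h
    rw [if_neg] at he
    · exact he rfl
    · intro h3; exact h (C.mem_cls.1 h3)
  have hmul : ∀ (ε : QC h2 lb hlb p) (r : Fin n → K),
      mr (FreeGroup.of ε) (Tm h2 lb hlb (ahat h2 lb hlb p hn) (res (C.cls p ε.1) r)) =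
        brp K n (ahat h2 lb hlb p hn) (C.P true (res (C.cls p ε.1) r)) := by
    intro ε r
    exact Tm_mul h2 lb hlb _ _ _ (hsupp ε r)
  have hmem : ∀ (r : Fin n → K), r ∈ C.Wd p R → ∀ ε : QC h2 lb hlb p,
      Tm h2 lb hlb (ahat h2 lb hlb p hn) (res (C.cls p ε.1) r) ∈
        Ex (Rhat h2 lb hlb p R hn) (FreeGroup.of ε) := by
    intro r hr ε
    refine ⟨Tm_mem h2 lb hlb p R hn (C.res_cls_mem hr _), ?_⟩
    show mr (FreeGroup.of ε) _ ∈ Rhat h2 lb hlb p R hn
    rw [hmul]
    exact Submodule.mem_sup_right ⟨_, hr _ true, rfl⟩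
  let Φ : C.Wd p R →ₗ[K] ((ε : QC h2 lb hlb p) → Ex (Rhat h2 lb hlb p R hn) (FreeGroup.of ε)) :=
    LinearMap.pi fun ε => LinearMap.codRestrict _
      ((Tm h2 lb hlb (ahat h2 lb hlb p hn) ∘ₗ res (C.cls p ε.1)) ∘ₗ (C.Wd p R).subtype)
      fun r => hmem r.1 r.2 ε
  have hinj : Function.Injective Φ := by
    rw [← LinearMap.ker_eq_bot, LinearMap.ker_eq_bot']
    intro r hr
    ext e
    have h1 := congrFun hr (qc h2 lb hlb p e)
    have h3 : Tm h2 lb hlb (ahat h2 lb hlb p hn) (res (C.cls p (C.q p e)) r.1) = 0 :=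
      congrArg Subtype.val h1
    have h4 := hmul (qc h2 lb hlb p e) r.1
    have h5 : (qc h2 lb hlb p e).1 = C.q p e := rfl
    rw [h5, h3, map_zero] at h4
    have h6 : C.P true (res (C.cls p (C.q p e)) r.1) = 0 := by
      apply brp_inj (K := K) (ahat h2 lb hlb p hn)
        (fun i hi j hj h => ahat_inj h2 lb hlb p hn hi.le hj.le h)
      rw [← h4, map_zero]
    have h7 := congrFun h6 (C.en true e)
    rw [C.P_apply, Finset.sum_eq_single e] at h7
    · rw [if_pos rfl, res_apply, if_pos (C.mem_cls.2 rfl)] at h7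
      exact h7
    · intro e' _ hne
      by_cases h : C.en true e' = C.en true e
      · rw [if_pos h, res_apply, if_neg]
        intro h4
        exact hne (C.en_inj (C.q_lab (C.mem_cls.1 h4)) h)
      · rw [if_neg h]
    · intro h
      exact absurd (Finset.mem_univ e) h
  have : ∀ ε : QC h2 lb hlb p,
      FiniteDimensional K (Ex (Rhat h2 lb hlb p R hn) (FreeGroup.of ε)) := by
    intro ε
    unfold Ex
    infer_instance
  have h := LinearMap.finrank_le_finrank_of_injective hinj
  rw [Module.finrank_pi_fintype] at h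
  exact h

theorem hh_Rhat_le (hn : 0 < n) : hh (Rhat h2 lb hlb p R hn) ≤
    (finrank K R : ℤ) + 1 - finrank K ((cyc n h2 lb hlb).Wd p R) := by
  unfold hh
  have h1 := finrank_Rhat_le h2 lb hlb p R hn
  have h3 := finrank_Wd_le_Ex h2 lb hlb p R hn
  have h4 : (finrank K ((cyc n h2 lb hlb).Wd p R) : ℤ) ≤
      ∑ ε : QC h2 lb hlb p, (finrank K (Ex (Rhat h2 lb hlb p R hn) (FreeGroup.of ε)) : ℤ) := by
    exact_mod_cast h3
  have h5 : (finrank K (Rhat h2 lb hlb p R hn) : ℤ) ≤ finrank K R + 1 := by exact_mod_cast h1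
  linarith

end Lift

end Pool.Agent.Helper166_PQ
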