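import Mathlib

/-!
# Potentials on a closed walk
-/

set_option autoImplicit false

namespace Pool.Agent.Helper166_PQ

lemma aux_pot {G : Type*} [Group G] (n : ℕ) (c e s t : ℕ → ℕ) (lam : ℕ → G)
    (hs : ∀ j < n, s (e j) = if j % 2 = 0 then c j else c (j + 1))
    (ht : ∀ j < n, t (e j) = if j % 2 = 0 then c (j + 1) else c j) :
    ∀ k ≤ n, ∃ (P : ℕ → G) (T : Finset ℕ), P (c 0) = 1 ∧ T ⊆ (Finset.range k).image e ∧
      (∀ ε ∈ T, P (s ε) * lam ε * (P (t ε))⁻¹ = 1) ∧
      ((Finset.range (k + 1)).image c).card ≤ T.card + 1 := by
  intro k
  induction k with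
  | zero =>
    intro _
    refine ⟨fun _ => 1, ∅, rfl, by simp, by simp, ?_⟩
    simp
  | succ k ih =>
    intro hk
    obtain ⟨P, T, h0, hT, hg, hcard⟩ := ih (by omega)
    by_cases hold : c (k + 1) ∈ (Finset.range (k + 1)).image c
    · refine ⟨P, T, h0, ?_, hg, ?_⟩
      · refine hT.trans (Finset.image_subset_image ?_)
        exact Finset.range_subset_range.2 (Nat.le_succ k)
      · rw [Finset.range_add_one (n := k + 1), Finset.image_insert, Finset.insert_eq_of_mem hold]
        exact hcard
    · have hne : ∀ j ≤ k, c j ≠ c (k + 1) := by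
        intro j hj h
        exact hold (Finset.mem_image.2 ⟨j, Finset.mem_range.2 (by omega), h⟩)
      -- both end colours of the old edges are old
      have hends : ∀ ε ∈ (Finset.range k).image e, s ε ≠ c (k + 1) ∧ t ε ≠ c (k + 1) := by
        intro ε hε
        obtain ⟨j, hj, rfl⟩ := Finset.mem_image.1 hε
        rw [Finset.mem_range] at hj
        rw [hs j (by omega), ht j (by omega)]
        constructor
        · split_ifs
          · exact hne _ (by omega)
          · exact hne _ (by omega)
        · split_ifs
          · exact hne _ (by omega)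
          · exact hne _ (by omega)
      have hnew : e k ∉ (Finset.range k).image e := by
        intro hmem
        obtain ⟨h1, h2⟩ := hends _ hmem
        rw [hs k (by omega)] at h1
        rw [ht k (by omega)] at h2
        by_cases hp : k % 2 = 0
        · rw [if_pos hp] at h2; exact h2 rfl
        · rw [if_neg hp] at h1; exact h1 rfl
      have hnT : e k ∉ T := fun h => hnew (hT h)
      set v : G := if k % 2 = 0 then P (c k) * lam (e k) else P (c k) * (lam (e k))⁻¹ with hv
      refine ⟨Function.update P (c (k + 1)) v, insert (e k) T, ?_, ?_, ?_, ?_⟩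
      · rw [Function.update_of_ne (hne 0 (by omega)), h0]
      · rw [Finset.range_add_one, Finset.image_insert]
        exact Finset.insert_subset_insert _ hT
      · intro ε hε
        rw [Finset.mem_insert] at hε
        rcases hε with rfl | hε
        · rw [hs k (by omega), ht k (by omega)]
          by_cases hp : k % 2 = 0
          · rw [if_pos hp, if_pos hp, Function.update_self,
              Function.update_of_ne (hne k le_rfl), hv, if_pos hp]
            simp
          · rw [if_neg hp, if_neg hp, Function.update_self,
              Function.update_of_ne (hne k le_rfl), hv, if_neg hp]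
            simp
        · obtain ⟨h1, h2⟩ := hends _ (hT hε)
          rw [Function.update_of_ne h1, Function.update_of_ne h2]
          exact hg ε hε
      · rw [Finset.range_add_one (n := k + 1), Finset.image_insert,
          Finset.card_insert_of_notMem hold, Finset.card_insert_of_notMem hnT]
        omega

/-- TARGET -/
theorem exists_potential {G : Type*} [Group G] [DecidableEq G] (n : ℕ) (c e s t : ℕ → ℕ) (lam : ℕ → G)
    (hs : ∀ j < n, s (e j) = if j % 2 = 0 then c j else c (j + 1))
    (ht : ∀ j < n, t (e j) = if j % 2 = 0 then c (j + 1) else c j) :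
    ∃ P : ℕ → G, P (c 0) = 1 ∧
      (((Finset.range n).image e).filter fun ε => P (s ε) * lam ε * (P (t ε))⁻¹ ≠ 1).card +
        ((Finset.range (n + 1)).image c).card ≤ ((Finset.range n).image e).card + 1 := by
  obtain ⟨P, T, h0, hT, hg, hcard⟩ := aux_pot n c e s t lam hs ht n le_rfl
  refine ⟨P, h0, ?_⟩
  have h1 : (((Finset.range n).image e).filter fun ε => P (s ε) * lam ε * (P (t ε))⁻¹ ≠ 1) ⊆
      (Finset.range n).image e \ T := by
    intro ε hε
    rw [Finset.mem_filter] at hε
    rw [Finset.mem_sdiff]
    exact ⟨hε.1, fun h => hε.2 (hg ε h)⟩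
  have h2 := Finset.card_le_card h1
  rw [Finset.card_sdiff_of_subset hT] at h2
  have h3 := Finset.card_le_card hT
  omega

end Pool.Agent.Helper166_PQ
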