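import Mathlib
import Pool.Agent.Helper166_PQ.Path2
import Pool.Agent.Helper166_PQ.Gen
import Pool.Agent.Helper166_PQ.Letters

/-!
# The initial structure
-/

set_option autoImplicit false
set_option linter.unusedSectionVars false

namespace Pool.Agent.Helper166_PQ

open Module

section Word

variable {X : Type} [Fintype X] [DecidableEq X] [Encodable X]

/-- the letter of a half edge -/
def ltr (z : ℕ → X × Bool) (j : ℕ) : X × Bool := if j % 2 = 0 then z (j / 2) else nv (z (j / 2))

/-- the group element of a letter -/
def lamL (y : X × Bool) : FreeGroup X := if y.2 = true then 1 else (FreeGroup.of y.1)⁻¹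

/-- the group element of a label -/
def lamN (l : ℕ) : FreeGroup X :=
  match (Encodable.decode l : Option (X × Bool)) with
  | some y => lamL y
  | none => 1

theorem lamN_encode (y : X × Bool) : lamN (Encodable.encode y) = lamL y := by
  unfold lamN
  rw [Encodable.encodek]

/-- the labels -/
def lbz (z : ℕ → X × Bool) (j : ℕ) : ℕ := Encodable.encode (ltr z j)

/-- the group elements of the edges -/
abbrev az (z : ℕ → X × Bool) : ℕ → FreeGroup X := fun j => lamN (lbz z j)

theorem az_apply (z : ℕ → X × Bool) (j : ℕ) : az z j = lamL (ltr z j) := lamN_encode _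

theorem ltr_fst (z : ℕ → X × Bool) (j : ℕ) : (ltr z j).1 = (z (j / 2)).1 := by
  unfold ltr nv
  split_ifs <;> rfl

theorem nv_ne' (y : X × Bool) : nv y ≠ y := by
  obtain ⟨y, b⟩ := y
  cases b <;> simp [nv]

theorem hlbz (z : ℕ → X × Bool) (l : ℕ) (hz : ∀ i < l, z ((i + 1) % l) ≠ nv (z i)) :
    ∀ j < 2 * l, lbz z j ≠ lbz z ((j + 1) % (2 * l)) := by
  intro j hj h
  have h1 : ltr z j = ltr z ((j + 1) % (2 * l)) := Encodable.encode_injective h
  rcases Nat.even_or_odd' j with ⟨i, rfl | rfl⟩
  · rw [Nat.mod_eq_of_lt (by omega)] at h1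
    unfold ltr at h1
    rw [if_pos (by omega), if_neg (by omega), show 2 * i / 2 = i by omega,
      show (2 * i + 1) / 2 = i by omega] at h1
    exact nv_ne' _ h1.symm
  · have h3 := hz i (by omega)
    by_cases hi : i + 1 < l
    · rw [Nat.mod_eq_of_lt (by omega)] at h1
      unfold ltr at h1
      rw [if_neg (by omega), if_pos (by omega), show (2 * i + 1) / 2 = i by omega,
        show (2 * i + 1 + 1) / 2 = i + 1 by omega] at h1
      rw [Nat.mod_eq_of_lt hi] at h3
      exact h3 h1.symm
    · have hil : i + 1 = l := by omega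
      rw [show 2 * i + 1 + 1 = 2 * l by omega, Nat.mod_self] at h1
      unfold ltr at h1
      rw [if_neg (by omega), if_pos (by omega), show (2 * i + 1) / 2 = i by omega,
        show 0 / 2 = 0 by omega] at h1
      rw [hil, Nat.mod_self] at h3
      exact h3 h1.symm

/-- the initial pieces of the word -/
def uu (z : ℕ → X × Bool) (i : ℕ) : FreeGroup X := FreeGroup.mk ((List.range i).map z)

theorem uu_succ (z : ℕ → X × Bool) (i : ℕ) : uu z (i + 1) = uu z i * FreeGroup.mk [z i] :=
  mk_range_succ z i

variable (z : ℕ → X × Bool) (l : ℕ)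

theorem red_of (hz : ∀ i < l, z ((i + 1) % l) ≠ nv (z i)) : ∀ i, i + 1 < l →
    (z i).1 = (z (i + 1)).1 → (z i).2 = (z (i + 1)).2 := by
  intro i hi h
  have h1 := hz i (by omega)
  rw [Nat.mod_eq_of_lt hi] at h1
  by_contra h2
  apply h1
  refine Prod.ext h.symm ?_
  show (z (i + 1)).2 = !(z i).2
  revert h2
  cases (z i).2 <;> cases (z (i + 1)).2 <;> simp

theorem uu_word (hz : ∀ i < l, z ((i + 1) % l) ≠ nv (z i)) {i : ℕ} (hi : i ≤ l) :
    (uu z i).toWord = (List.range i).map z :=
  toWord_mk_range z i fun k hk => red_of z l hz k (by omega)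

theorem uu_inj (hz : ∀ i < l, z ((i + 1) % l) ≠ nv (z i)) {i j : ℕ} (hi : i ≤ l) (hj : j ≤ l)
    (h : uu z i = uu z j) : i = j := by
  have h1 := congrArg FreeGroup.toWord h
  rw [uu_word z l hz hi, uu_word z l hz hj] at h1
  simpa using congrArg List.length h1

theorem lamL_mul (y : X × Bool) : lamL y * (lamL (nv y))⁻¹ = FreeGroup.mk [y] := by
  obtain ⟨y, b⟩ := y
  rw [mk_letter]
  cases b <;> simp [lamL, nv]

theorem pth_one_step {G : Type*} [Group G] (a : ℕ → G) (i : ℕ) :
    pth a (2 * i + 1) = pth a (2 * i) * a (2 * i) := by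
  show pth a (2 * i) * (if _ then _ else _) = _
  rw [if_pos (by omega)]

theorem pth_two {G : Type*} [Group G] (a : ℕ → G) (i : ℕ) :
    pth a (2 * (i + 1)) = pth a (2 * i) * a (2 * i) * (a (2 * i + 1))⁻¹ := by
  rw [← pth_one_step]
  show pth a (2 * i + 1) * (if (2 * i + 1) % 2 = 0 then _ else _) = _
  rw [if_neg (by omega)]
  rfl

theorem az_even (i : ℕ) : az z (2 * i) = lamL (z i) := by
  rw [az_apply]
  unfold ltr
  rw [if_pos (by omega), show 2 * i / 2 = i by omega]

theorem az_odd (i : ℕ) : az z (2 * i + 1) = lamL (nv (z i)) := by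
  rw [az_apply]
  unfold ltr
  rw [if_neg (by omega), show (2 * i + 1) / 2 = i by omega]

theorem pth_even (i : ℕ) : pth (az z) (2 * i) = uu z i := by
  induction i with
  | zero => rfl
  | succ i ih =>
    rw [uu_succ, ← ih, ← lamL_mul, pth_two, az_even, az_odd, mul_assoc]

theorem pth_odd (i : ℕ) : pth (az z) (2 * i + 1) =
    if (z i).2 = true then uu z i else uu z (i + 1) := by
  rw [pth_one_step, pth_even, uu_succ, mk_letter, az_even]
  unfold lamL
  split_ifs <;> simp

theorem pth_odd_mul (i : ℕ) : pth (az z) (2 * i + 1) * FreeGroup.of (z i).1 =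
    if (z i).2 = true then uu z (i + 1) else uu z i := by
  rw [pth_odd, uu_succ, mk_letter]
  split_ifs <;> simp

/-- the odd vertices on the edges of a generator have different group elements -/
theorem odd_inj (hz : ∀ i < l, z ((i + 1) % l) ≠ nv (z i)) {i j : ℕ} (hi : i < l) (hj : j < l)
    (hij : (z i).1 = (z j).1) (h : pth (az z) (2 * i + 1) =
      pth (az z) (2 * j + 1)) : i = j := by
  have h1 : pth (az z) (2 * i + 1) * FreeGroup.of (z i).1 =
      pth (az z) (2 * j + 1) * FreeGroup.of (z j).1 := by rw [h, hij]
  rw [pth_odd, pth_odd] at h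
  rw [pth_odd_mul, pth_odd_mul] at h1
  split_ifs at h h1 with h2 h3 h3
  · exact uu_inj z l hz (by omega) (by omega) h
  · have := uu_inj z l hz (by omega) (by omega) h
    have := uu_inj z l hz (by omega) (by omega) h1
    omega
  · have := uu_inj z l hz (by omega) (by omega) h
    have := uu_inj z l hz (by omega) (by omega) h1
    omega
  · have := uu_inj z l hz (by omega) (by omega) h
    omega

/-- an edge between two elements of the path is an edge of the path -/
theorem exists_edge (hz : ∀ i < l, z ((i + 1) % l) ≠ nv (z i)) {i j : ℕ} (hi : i ≤ l) (hj : j ≤ l)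
    (y : X) (h : uu z i * FreeGroup.of y = uu z j) :
    ∃ k < l, (z k).1 = y ∧ pth (az z) (2 * k + 1) = uu z i := by
  by_cases hA : ∃ k, k + 1 = i ∧ z k = (y, false)
  · obtain ⟨k, rfl, hk⟩ := hA
    refine ⟨k, by omega, by rw [hk], ?_⟩
    rw [pth_odd, hk]
    simp
  · have h1 : uu z i * FreeGroup.of y =
        FreeGroup.mk ((List.range (i + 1)).map (Function.update z i (y, true))) := by
      rw [mk_range_succ, Function.update_self]
      congr 1
      unfold uu
      congr 1
      refine List.map_congr_left ?_
      intro k hk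
      rw [Function.update_of_ne]
      rw [List.mem_range] at hk
      omega
    have h2 : ((List.range (i + 1)).map (Function.update z i (y, true))) = (List.range j).map z := by
      rw [← uu_word z l hz hj, ← h, h1, toWord_mk_range]
      intro k hk hk2
      rw [Function.update_of_ne (by omega)] at hk2 ⊢
      by_cases hki : k + 1 = i
      · rw [hki, Function.update_self] at hk2 ⊢
        by_contra h3
        apply hA
        refine ⟨k, hki, Prod.ext hk2 ?_⟩
        simpa using h3
      · rw [Function.update_of_ne hki] at hk2 ⊢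
        exact red_of z l hz k (by omega) hk2
    have h3 : i + 1 = j := by simpa using congrArg List.length h2
    subst h3
    rw [List.range_succ, List.map_append, List.map_append] at h2
    have h4 := (List.append_inj' h2 (by simp)).2
    rw [List.map_singleton, List.map_singleton, Function.update_self] at h4
    have h5 : (y, true) = z i := by simpa using h4
    refine ⟨i, by omega, by rw [← h5], ?_⟩
    rw [pth_odd, ← h5]
    simp

/-- the vertices of the path -/
def TT : Finset (FreeGroup X) := (Finset.range (l + 1)).image (uu z)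

theorem TT_closed (hz : ∀ i < l, z ((i + 1) % l) ≠ nv (z i)) : PrefixClosed (TT z l) := by
  intro g hg L y hL
  obtain ⟨i, hi, rfl⟩ := Finset.mem_image.1 hg
  rw [Finset.mem_range] at hi
  rw [uu_word z l hz (by omega)] at hL
  rcases i with _ | i
  · simp at hL
  · rw [List.range_succ, List.map_append, List.map_singleton] at hL
    have h1 := (List.append_inj' hL rfl).1
    refine Finset.mem_image.2 ⟨i, Finset.mem_range.2 (by omega), ?_⟩
    rw [← h1]
    rfl

end Word

end Pool.Agent.Helper166_PQ
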