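import Mathlib
import Pool.Agent.Helper166_PQ.Letters

/-!
# Whitehead automorphisms shorten cyclic words
-/

set_option autoImplicit false

namespace Pool.Agent.Helper166_PQ

namespace WH

theorem nv_nv {X : Type*} (z : X × Bool) : nv (nv z) = z := by
  obtain ⟨x, b⟩ := z; simp [nv]

theorem nv_ne {X : Type*} (z : X × Bool) : nv z ≠ z := by
  obtain ⟨x, b⟩ := z; cases b <;> simp [nv]

theorem mk_nv {X : Type} (z : X × Bool) : (FreeGroup.mk [nv z]) = (FreeGroup.mk [z])⁻¹ := by
  rw [FreeGroup.inv_mk]; rfl

section aut

variable {X : Type} (Z : X × Bool → Bool) (A : FreeGroup X)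

/-- the correction factor -/
def pz (z : X × Bool) : FreeGroup X := if Z z = true then A else 1

/-- the Whitehead endomorphism -/
def wh : FreeGroup X →* FreeGroup X :=
  FreeGroup.lift (fun x => pz Z A (x, true) * FreeGroup.of x * (pz Z A (x, false))⁻¹)

theorem wh_letter (z : X × Bool) :
    wh Z A (FreeGroup.mk [z]) = pz Z A z * FreeGroup.mk [z] * (pz Z A (nv z))⁻¹ := by
  obtain ⟨x, b⟩ := z
  have h1 : wh Z A (FreeGroup.mk [(x, true)]) =
      pz Z A (x, true) * FreeGroup.mk [(x, true)] * (pz Z A (x, false))⁻¹ := by
    have : (FreeGroup.mk [(x, true)]) = FreeGroup.of x := rfl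
    rw [this]
    unfold wh
    rw [FreeGroup.lift_apply_of]
  cases b with
  | true => exact h1
  | false =>
    have h2 : (FreeGroup.mk [(x, false)]) = (FreeGroup.mk [(x, true)])⁻¹ := by
      rw [FreeGroup.inv_mk]; rfl
    rw [h2, map_inv, h1]
    change _ = pz Z A (x, false) * _ * (pz Z A (x, true))⁻¹
    group

variable (a : X × Bool) (ha : Z a = false) (ha' : Z (nv a) = false)

include ha ha' in
theorem wh_a : wh Z A (FreeGroup.mk [a]) = FreeGroup.mk [a] := by
  rw [wh_letter]; simp [pz, ha, ha']

include ha ha' in
theorem wh_wh (A' : FreeGroup X) (hA : A = FreeGroup.mk [a] ∨ A = (FreeGroup.mk [a])⁻¹)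
    (hA' : A' = A⁻¹) (w : FreeGroup X) : wh Z A' (wh Z A w) = w := by
  have hf : wh Z A' A = A := by
    rcases hA with rfl | rfl
    · exact wh_a Z _ a ha ha'
    · rw [map_inv, wh_a Z _ a ha ha']
  have hp : ∀ z, wh Z A' (pz Z A z) = pz Z A z := by
    intro z
    unfold pz
    split_ifs
    · exact hf
    · exact map_one _
  have hpp : ∀ z, pz Z A' z = (pz Z A z)⁻¹ := by
    intro z; unfold pz; split_ifs
    · exact hA'
    · simp
  have h : (wh Z A').comp (wh Z A) = MonoidHom.id _ := by
    apply FreeGroup.ext_hom
    intro x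
    have h1 := wh_letter Z A (x, true)
    have h2 := wh_letter Z A' (x, true)
    have e : (FreeGroup.mk [(x, true)]) = FreeGroup.of x := rfl
    rw [e] at h1 h2
    rw [MonoidHom.comp_apply, h1, map_mul, map_mul, map_inv, hp, hp, h2, hpp, hpp,
      MonoidHom.id_apply]
    group
  exact DFunLike.congr_fun h w

end aut

theorem length_flatMap_le {T : Type} (W : ℕ → List T) (hW : ∀ i, (W i).length ≤ 1) (n : ℕ) :
    ((List.range n).flatMap W).length ≤ n := by
  induction n with
  | zero => simp
  | succ n ih =>
    rw [List.range_succ, List.flatMap_append, List.length_append]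
    have := hW n
    simp only [List.flatMap_cons, List.flatMap_nil, List.append_nil]
    omega

theorem length_flatMap_lt {T : Type} (W : ℕ → List T) (hW : ∀ i, (W i).length ≤ 1) (n : ℕ)
    (j : ℕ) (hj : j < n) (hWj : W j = []) :
    ((List.range n).flatMap W).length < n := by
  induction n with
  | zero => omega
  | succ n ih =>
    rw [List.range_succ, List.flatMap_append, List.length_append]
    have h1 := hW n
    simp only [List.flatMap_cons, List.flatMap_nil, List.append_nil]
    by_cases hjn : j = n
    · subst hjn
      have := length_flatMap_le W hW j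
      rw [hWj, List.length_nil]
      omega
    · have := ih (by omega)
      omega

end WH

open WH in
/-- TARGET -/
theorem whitehead_shorten {X : Type} [DecidableEq X] (L : List (X × Bool)) (a : X × Bool)
    (Z : X × Bool → Bool) (ha : Z a = false) (ha' : Z (nv a) = false)
    (hZ : ∀ i : ℕ, ∀ p ∈ L[i % L.length]?, ∀ q ∈ L[(i + 1) % L.length]?,
      (Z (nv p) = true → Z q = true ∨ q = a) ∧ (Z q = true → Z (nv p) = true ∨ nv p = a))
    (hs : ∃ i : ℕ, ∃ p ∈ L[i % L.length]?, ∃ q ∈ L[(i + 1) % L.length]?,
      (nv p = a ∧ Z q = true) ∨ (Z (nv p) = true ∧ q = a)) :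
    ∃ (α : FreeGroup X ≃* FreeGroup X) (u : FreeGroup X) (L' : List (X × Bool)),
      L'.length < L.length ∧ α (FreeGroup.mk L) = u * FreeGroup.mk L' * u⁻¹ := by
  have hl : 0 < L.length := by
    obtain ⟨i, p, hp, _⟩ := hs
    by_contra h
    have h0 : L = [] := List.length_eq_zero_iff.mp (by omega)
    subst h0
    simp at hp
  obtain ⟨k, hk⟩ : ∃ k, L.length = k + 1 := ⟨L.length - 1, by omega⟩
  let z : ℕ → X × Bool := fun i => L[i % L.length]'(Nat.mod_lt _ hl)
  have hz : ∀ i, L[i % L.length]? = some (z i) := fun i => List.getElem?_eq_getElem _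
  have hper : ∀ i, z (i + (k + 1)) = z i := by
    intro i
    simp only [z]
    congr 1
    rw [← hk, Nat.add_mod_right]
  have hJ : ∀ i, (Z (nv (z i)) = true → Z (z (i + 1)) = true ∨ z (i + 1) = a) ∧
      (Z (z (i + 1)) = true → Z (nv (z i)) = true ∨ nv (z i) = a) :=
    fun i => hZ i (z i) (by rw [hz]; rfl) (z (i + 1)) (by rw [hz]; rfl)
  have hS : ∃ i, (nv (z i) = a ∧ Z (z (i + 1)) = true) ∨ (Z (nv (z i)) = true ∧ z (i + 1) = a) := by
    obtain ⟨i, p, hp, q, hq, h⟩ := hs
    rw [hz] at hp hq
    refine ⟨i, ?_⟩
    obtain rfl := Option.some.inj hp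
    obtain rfl := Option.some.inj hq
    exact h
  clear hZ hs
  -- the automorphism
  let A : FreeGroup X := FreeGroup.mk [a]
  let α : FreeGroup X ≃* FreeGroup X :=
    { toFun := wh Z A
      invFun := wh Z A⁻¹
      left_inv := wh_wh Z A a ha ha' A⁻¹ (Or.inl rfl) rfl
      right_inv := wh_wh Z A⁻¹ a ha ha' A (Or.inr rfl) (inv_inv _).symm
      map_mul' := map_mul _ }
  -- junction indicator before `z i`
  let m : ℕ → Bool := fun i => Z (nv (z (i + k))) || Z (z i)
  let M : ℕ → FreeGroup X := fun i => if m i = true then A else 1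
  have hm1 : ∀ i, m (i + 1) = (Z (nv (z i)) || Z (z (i + 1))) := by
    intro i
    simp only [m]
    rw [show i + 1 + k = i + (k + 1) by ring, hper]
  have hmper : ∀ i, m (i + (k + 1)) = m i := by
    intro i
    simp only [m]
    rw [show i + (k + 1) + k = i + k + (k + 1) by ring, hper, hper]
  have hJ' : ∀ i, (Z (nv (z (i + k))) = true → Z (z i) = true ∨ z i = a) ∧
      (Z (z i) = true → Z (nv (z (i + k))) = true ∨ nv (z (i + k)) = a) := by
    intro i
    have h := hJ (i + k)
    rw [show i + k + 1 = i + (k + 1) by ring, hper] at h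
    exact h
  let W : ℕ → List (X × Bool) := fun i =>
    if (z i = a ∧ m i = true) ∨ (z i = nv a ∧ m (i + 1) = true) then [] else [z i]
  have hWper : ∀ i, W (i + (k + 1)) = W i := by
    intro i
    simp only [W]
    rw [hper, hmper, show i + (k + 1) + 1 = i + 1 + (k + 1) by ring, hmper]
  have hWlen : ∀ i, (W i).length ≤ 1 := by
    intro i; simp only [W]; split_ifs <;> simp
  have hnva : nv a ≠ a := nv_ne a
  have key : ∀ i, wh Z A (FreeGroup.mk [z i]) = M i * FreeGroup.mk (W i) * (M (i + 1))⁻¹ := by
    intro i
    rw [wh_letter]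
    by_cases h1 : z i = a
    · -- `z i = a`
      have hm : m (i + 1) = false := by
        rw [hm1, h1, ha', Bool.false_or]
        by_contra hc
        rw [Bool.not_eq_false] at hc
        rcases (hJ i).2 hc with h | h
        · rw [h1, ha'] at h; exact Bool.noConfusion h
        · rw [h1] at h; exact hnva h
      simp only [M, W, pz]
      rw [h1, ha, ha', hm]
      cases m i <;> simp [A]
    · by_cases h2 : z i = nv a
      · have hm : m i = false := by
          simp only [m]
          rw [h2, ha', Bool.or_false]
          by_contra hc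
          rw [Bool.not_eq_false] at hc
          rcases (hJ' i).1 hc with h | h
          · rw [h2, ha'] at h; exact Bool.noConfusion h
          · exact h1 h
        simp only [M, W, pz]
        rw [h2, nv_nv, ha, ha', hm]
        have e : FreeGroup.mk [nv a] = A⁻¹ := mk_nv a
        cases m (i + 1)
        · simp
        · simp [e]
          rfl
      · have hmi : m i = Z (z i) := by
          simp only [m]
          cases hc : Z (nv (z (i + k))) with
          | false => simp
          | true =>
            rcases (hJ' i).1 hc with h | h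
            · rw [h]; rfl
            · exact absurd h h1
        have hmi1 : m (i + 1) = Z (nv (z i)) := by
          rw [hm1]
          cases hc : Z (z (i + 1)) with
          | false => simp
          | true =>
            rcases (hJ i).2 hc with h | h
            · rw [h]; rfl
            · exact absurd (by rw [← h, nv_nv]) h2
        simp only [M, W, pz]
        rw [if_neg (by tauto : ¬ ((z i = a ∧ m i = true) ∨ (z i = nv a ∧ m (i + 1) = true))), hmi, hmi1]
  have hprod : ∀ n, wh Z A (FreeGroup.mk ((List.range n).map z)) =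
      M 0 * FreeGroup.mk ((List.range n).flatMap W) * (M n)⁻¹ := by
    intro n
    induction n with
    | zero =>
      have e : (FreeGroup.mk ([] : List (X × Bool))) = 1 := rfl
      simp [e]
    | succ n ih =>
      rw [List.range_succ, List.map_append, List.flatMap_append, ← FreeGroup.mul_mk,
        ← FreeGroup.mul_mk, map_mul, ih]
      simp only [List.map_cons, List.map_nil, List.flatMap_cons, List.flatMap_nil,
        List.append_nil]
      rw [key]
      group
  have hL : (List.range (k + 1)).map z = L := by
    apply List.ext_getElem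
    · simp [hk]
    · intro i h1 h2
      simp only [List.getElem_map, List.getElem_range, z]
      congr 1
      exact Nat.mod_eq_of_lt h2
  obtain ⟨j, hj⟩ : ∃ j, W j = [] := by
    obtain ⟨i, h | h⟩ := hS
    · refine ⟨i, ?_⟩
      simp only [W]
      rw [if_pos]
      right
      refine ⟨by rw [← h.1, nv_nv], ?_⟩
      rw [hm1, h.2, Bool.or_true]
    · refine ⟨i + 1, ?_⟩
      simp only [W]
      rw [if_pos]
      left
      refine ⟨h.2, ?_⟩
      rw [hm1, h.1, Bool.true_or]
  have hWper' : ∀ n i, W (i + n * (k + 1)) = W i := by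
    intro n
    induction n with
    | zero => intro i; simp
    | succ n ih => intro i; rw [show i + (n + 1) * (k + 1) = i + n * (k + 1) + (k + 1) by ring, hWper, ih]
  have hj' : W (j % (k + 1)) = [] := by
    have h := hWper' (j / (k + 1)) (j % (k + 1))
    rw [Nat.mod_add_div' j (k + 1)] at h
    rw [← h, hj]
  refine ⟨α, M 0, (List.range (k + 1)).flatMap W, ?_, ?_⟩
  · rw [hk]
    exact length_flatMap_lt W hWlen (k + 1) (j % (k + 1)) (Nat.mod_lt _ (Nat.succ_pos k)) hj'
  · have h := hprod (k + 1)
    rw [hL] at h
    have hM : M (k + 1) = M 0 := by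
      simp only [M]
      have := hmper 0
      rw [zero_add] at this
      rw [this]
    rw [hM] at h
    exact h

end Pool.Agent.Helper166_PQ
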