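import Mathlib
import Pool.Agent.Helper166_PQ.Defs
import Pool.Agent.Helper166_PQ.CutEA
import Pool.Agent.Helper166_PQ.White

/-!
# Primitivity from an almost invariant set
-/

set_option autoImplicit false

namespace Pool.Agent.Helper166_PQ

/-- the hypotheses, in one structure -/
structure P1_AI {F : Type} [Group F] (w : F) (E : Set F) : Prop where
  fin : ∀ g : F, {h : F | ¬ (h ∈ E ↔ h * g ∈ E)}.Finite
  one : (1 : F) ∈ E
  inv : w⁻¹ ∉ E
  step : ∀ h : F, h ≠ w⁻¹ → (h ∈ E ↔ h * w ∈ E)

lemma P1_AI.comap {F G : Type} [Group F] [Group G] (i : G →* F) (hi : Function.Injective i)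
    {w : G} {E : Set F} (h : P1_AI (i w) E) : P1_AI w (i ⁻¹' E) where
  fin g := by
    have := (h.fin (i g)).preimage (f := i) hi.injOn
    refine this.subset ?_
    intro x hx
    simpa using hx
  one := by simpa using h.one
  inv := by
    have := h.inv
    rw [← map_inv] at this
    exact this
  step x hx := by
    have hne : i x ≠ (i w)⁻¹ := by
      rw [← map_inv]
      exact fun hc => hx (hi hc)
    have := h.step (i x) hne
    rw [← map_mul] at this
    exact this

lemma P1_AI.map {F G : Type} [Group F] [Group G] (α : F ≃* G) {w : F} {E : Set F}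
    (h : P1_AI w E) : P1_AI (α w) ((α.symm : G →* F) ⁻¹' E) := by
  refine P1_AI.comap (α.symm : G →* F) α.symm.injective ?_
  simpa using h

lemma P1_prim_of_map {F G : Type} [Group F] [Group G] (α : F ≃* G) {w : F}
    (h : IsPrimitive (α w)) : IsPrimitive w := by
  obtain ⟨ι, b, j, hj⟩ := h
  refine ⟨ι, b.map α.symm, j, ?_⟩
  rw [FreeGroupBasis.map_apply, hj]
  simp

lemma P1_prim_of (X : Type) (x : X) : IsPrimitive (FreeGroup.of x) :=
  ⟨X, FreeGroupBasis.ofFreeGroup X, x, rfl⟩

/-- inverting all generators -/
noncomputable def P1_flip (X : Type) : FreeGroup X ≃* FreeGroup X :=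
  MonoidHom.toMulEquiv (FreeGroup.lift fun x => (FreeGroup.of x)⁻¹)
    (FreeGroup.lift fun x => (FreeGroup.of x)⁻¹)
    (by ext x; simp) (by ext x; simp)

lemma P1_prim_inv (X : Type) (x : X) : IsPrimitive (FreeGroup.of x)⁻¹ := by
  refine P1_prim_of_map (P1_flip X) ?_
  have : P1_flip X (FreeGroup.of x)⁻¹ = FreeGroup.of x := by
    simp [P1_flip]
  rw [this]
  exact P1_prim_of X x

/-- extending a basis by one letter -/
lemma P1_extend {X : Type} [DecidableEq X] (x : X) (w' : FreeGroup {y : X // y ≠ x})
    (h : IsPrimitive w') : IsPrimitive (FreeGroup.map Subtype.val w') := by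
  obtain ⟨ι, b, j, hj⟩ := h
  let f : FreeGroup X →* FreeGroup (Option ι) := FreeGroup.lift (fun z =>
    if h : z = x then FreeGroup.of none else FreeGroup.map some (b.repr (FreeGroup.of ⟨z, h⟩)))
  let g : FreeGroup (Option ι) →* FreeGroup X := FreeGroup.lift (fun o =>
    o.elim (FreeGroup.of x) (fun j => FreeGroup.map Subtype.val (b j)))
  have hg : ∀ v : FreeGroup ι, g (FreeGroup.map some v) =
      FreeGroup.map Subtype.val (b.repr.symm v) := by
    have : g.comp (FreeGroup.map some) =
        (FreeGroup.map Subtype.val).comp b.repr.symm.toMonoidHom := by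
      ext k
      simp only [MonoidHom.comp_apply, FreeGroup.map.of, g, FreeGroup.lift_apply_of,
        Option.elim_some]
      rfl
    intro v
    exact DFunLike.congr_fun this v
  have hf : ∀ v : FreeGroup {y : X // y ≠ x}, f (FreeGroup.map Subtype.val v) =
      FreeGroup.map some (b.repr v) := by
    have : f.comp (FreeGroup.map Subtype.val) =
        (FreeGroup.map some).comp b.repr.toMonoidHom := by
      ext k
      simp only [MonoidHom.comp_apply, FreeGroup.map.of, f, FreeGroup.lift_apply_of]
      rw [dif_neg k.2]
      rfl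
    intro v
    exact DFunLike.congr_fun this v
  have hgf : g.comp f = MonoidHom.id _ := by
    ext z
    simp only [MonoidHom.comp_apply, MonoidHom.id_apply]
    by_cases hz : z = x
    · subst hz
      simp [f, g]
    · have h1 : f (FreeGroup.of z) = FreeGroup.map some (b.repr (FreeGroup.of ⟨z, hz⟩)) := by
        simp [f, hz]
      rw [h1, hg, MulEquiv.symm_apply_apply, FreeGroup.map.of]
  have hfg : f.comp g = MonoidHom.id _ := by
    ext o
    simp only [MonoidHom.comp_apply, MonoidHom.id_apply]
    cases o with
    | none => simp [f, g]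
    | some k =>
      have h1 : g (FreeGroup.of (some k)) = FreeGroup.map Subtype.val (b k) := by
        simp [g]
      rw [h1, hf, FreeGroupBasis.repr_apply_coe, FreeGroup.map.of]
  let e : FreeGroup X ≃* FreeGroup (Option ι) := MonoidHom.toMulEquiv f g hgf hfg
  refine ⟨Option ι, FreeGroupBasis.ofRepr e, some j, ?_⟩
  change g (FreeGroup.of (some j)) = _
  have h1 : g (FreeGroup.of (some j)) = FreeGroup.map Subtype.val (b j) := by
    simp [g]
  rw [h1, hj]

lemma P1_nv_nv {X : Type} (z : X × Bool) : nv (nv z) = z := by
  simp [nv]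

lemma P1_nv_ne {X : Type} (z : X × Bool) : nv z ≠ z := by
  intro h
  have := congrArg Prod.snd h
  simp [nv] at this

/-- cyclically adjacent letters are not inverse to each other -/
lemma P1_adj {X : Type} {L : List (X × Bool)} (hL : FreeGroup.IsCyclicallyReduced L) (i : ℕ)
    (p q : X × Bool) (hp : p ∈ L[i % L.length]?) (hq : q ∈ L[(i + 1) % L.length]?) :
    q ≠ nv p := by
  rintro rfl
  rw [Option.mem_def] at hp hq
  obtain ⟨hi, hp'⟩ := List.getElem?_eq_some_iff.1 hp
  obtain ⟨hi', hq'⟩ := List.getElem?_eq_some_iff.1 hq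
  have hn : 0 < L.length := lt_of_le_of_lt (Nat.zero_le _) hi
  have key : p.1 = (nv p).1 → p.2 = (nv p).2 := by
    by_cases hlt : i % L.length + 1 < L.length
    · have hmod : (i + 1) % L.length = i % L.length + 1 := by
        rw [Nat.add_mod, Nat.mod_eq_of_lt (a := 1) (by omega), Nat.mod_eq_of_lt hlt]
      have hch := List.isChain_iff_getElem.1 hL.1 (i % L.length) (by omega)
      simp only [hmod] at hq'
      rw [hp', hq'] at hch
      exact hch
    · have hlast : i % L.length = L.length - 1 := by omega
      have hmod : (i + 1) % L.length = 0 := by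
        have : (i + 1) % L.length = (i % L.length + 1) % L.length := by
          rw [Nat.mod_add_mod]
        rw [this, hlast, Nat.sub_add_cancel hn, Nat.mod_self]
      refine hL.2 p ?_ (nv p) ?_
      · rw [Option.mem_def, List.getLast?_eq_getElem?, ← hlast]
        exact hp
      · rw [Option.mem_def, List.head?_eq_getElem?, ← hmod]
        exact hq
  have := key rfl
  simp [nv] at this

/-- the combinatorial heart: one can shorten, or `L` has length one -/
lemma P1_shorten {X : Type} [Fintype X] [DecidableEq X] (L : List (X × Bool))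
    (hL : FreeGroup.IsCyclicallyReduced L) (hne : L ≠ []) (hall : ∀ x : X, ∃ b, (x, b) ∈ L)
    (E : Set (FreeGroup X)) (hE : P1_AI (FreeGroup.mk L) E) :
    L.length = 1 ∨ ∃ (α : FreeGroup X ≃* FreeGroup X) (u : FreeGroup X) (L' : List (X × Bool)),
      L'.length < L.length ∧ α (FreeGroup.mk L) = u * FreeGroup.mk L' * u⁻¹ := by
  classical
  have hn : 0 < L.length := List.length_pos_iff.2 hne
  rcases cut_of_almostInvariant L hL hne E hE.fin hE.one hE.inv hE.step with h | ⟨y0, κ, hκ, hJ⟩
  · exact Or.inl h
  by_cases hlen : L.length = 1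
  · exact Or.inl hlen
  right
  set B : X × Bool → Bool := fun z => decide (z ≠ y0 ∧ κ z ≠ κ (nv y0)) with hB
  have hB_iff : ∀ z, B z = true ↔ z ≠ y0 ∧ κ z ≠ κ (nv y0) := fun z => by simp [hB]
  have hBne : ∃ z, B z = true := by
    obtain ⟨z, z', h1, h2, h3⟩ := hκ
    by_cases h4 : κ z = κ (nv y0)
    · exact ⟨z', (hB_iff z').2 ⟨h2, fun h5 => h3 (h4.trans h5.symm)⟩⟩
    · exact ⟨z, (hB_iff z).2 ⟨h1, h4⟩⟩
  have hB1 : B y0 = false := by
    rw [Bool.eq_false_iff, Ne, hB_iff]
    exact fun h => h.1 rfl
  have hB2 : B (nv y0) = false := by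
    rw [Bool.eq_false_iff, Ne, hB_iff]
    exact fun h => h.2 rfl
  have hBJ : ∀ i : ℕ, ∀ p ∈ L[i % L.length]?, ∀ q ∈ L[(i + 1) % L.length]?, nv p ≠ y0 → q ≠ y0 →
      (B (nv p) = true ↔ B q = true) := by
    intro i p hp q hq h1 h2
    have h3 := hJ i p hp q hq h1 h2
    rw [hB_iff, hB_iff, h3]
    constructor
    · exact fun h => ⟨h2, h.2⟩
    · exact fun h => ⟨h1, h.2⟩
  by_cases hcase : ∃ i : ℕ, ∃ p ∈ L[i % L.length]?, ∃ q ∈ L[(i + 1) % L.length]?,
      (nv p = y0 ∧ B q = true) ∨ (B (nv p) = true ∧ q = y0)
  · -- case 1
    refine whitehead_shorten L y0 B hB1 hB2 ?_ hcase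
    intro i p hp q hq
    constructor
    · intro h
      by_cases hq0 : q = y0
      · exact Or.inr hq0
      · left
        exact (hBJ i p hp q hq ((hB_iff _).1 h).1 hq0).1 h
    · intro h
      by_cases hp0 : nv p = y0
      · exact Or.inr hp0
      · left
        exact (hBJ i p hp q hq hp0 ((hB_iff _).1 h).1).2 h
  · -- case 2
    push Not at hcase
    have hBall : ∀ i : ℕ, ∀ p ∈ L[i % L.length]?, ∀ q ∈ L[(i + 1) % L.length]?,
        (B (nv p) = true ↔ B q = true) := by
      intro i p hp q hq
      obtain ⟨h1, h2⟩ := hcase i p hp q hq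
      constructor
      · intro h
        exact (hBJ i p hp q hq ((hB_iff _).1 h).1 (h2 h)).1 h
      · intro h
        have h3 : nv p ≠ y0 := fun h4 => h1 h4 h
        exact (hBJ i p hp q hq h3 ((hB_iff _).1 h).1).2 h
    by_cases hb : ∃ b, B b = true ∧ B (nv b) = false
    · obtain ⟨b, hb1, hb2⟩ := hb
      refine whitehead_shorten L b (fun z => B z && decide (z ≠ b)) (by simp)
        (by simp [hb2]) ?_ ?_
      · intro i p hp q hq
        have h1 := hBall i p hp q hq
        constructor
        · intro h
          simp only [Bool.and_eq_true, decide_eq_true_eq] at h ⊢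
          by_cases hqb : q = b
          · exact Or.inr hqb
          · exact Or.inl ⟨h1.1 h.1, hqb⟩
        · intro h
          simp only [Bool.and_eq_true, decide_eq_true_eq] at h ⊢
          by_cases hpb : nv p = b
          · exact Or.inr hpb
          · exact Or.inl ⟨h1.2 h.1, hpb⟩
      · obtain ⟨c, hc⟩ := hall b.1
        obtain ⟨k, hk, hkc⟩ := List.getElem_of_mem hc
        have hbc : (b.1, c) = b ∨ (b.1, c) = nv b := by
          rcases b with ⟨b1, b2⟩
          cases b2 <;> cases c <;> simp [nv]
        rcases hbc with hbc | hbc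
        · -- `z_k = b`, the junction before
          set i := k + L.length - 1 with hi
          have hi1 : (i + 1) % L.length = k := by
            have : i + 1 = k + L.length := by omega
            rw [this, Nat.add_mod_right, Nat.mod_eq_of_lt hk]
          have hi2 : i % L.length < L.length := Nat.mod_lt _ hn
          have hp : L[i % L.length] ∈ L[i % L.length]? := by
            rw [Option.mem_def, List.getElem?_eq_getElem hi2]
          have hq : b ∈ L[(i + 1) % L.length]? := by
            rw [Option.mem_def, hi1, List.getElem?_eq_getElem hk, hkc, hbc]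
          refine ⟨i, _, hp, b, hq, Or.inr ⟨?_, rfl⟩⟩
          simp only [Bool.and_eq_true, decide_eq_true_eq]
          refine ⟨(hBall i _ hp b hq).2 hb1, ?_⟩
          exact fun h => P1_adj hL i _ b hp hq h.symm
        · -- `z_k = nv b`, the junction after
          have hk' : k % L.length = k := Nat.mod_eq_of_lt hk
          have hi2 : (k + 1) % L.length < L.length := Nat.mod_lt _ hn
          have hp : nv b ∈ L[k % L.length]? := by
            rw [Option.mem_def, hk', List.getElem?_eq_getElem hk, hkc, hbc]
          have hq : L[(k + 1) % L.length] ∈ L[(k + 1) % L.length]? := by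
            rw [Option.mem_def, List.getElem?_eq_getElem hi2]
          refine ⟨k, nv b, hp, _, hq, Or.inl ⟨P1_nv_nv b, ?_⟩⟩
          simp only [Bool.and_eq_true, decide_eq_true_eq]
          have h1 := hBall k _ hp _ hq
          rw [P1_nv_nv] at h1
          refine ⟨h1.1 hb1, ?_⟩
          have h2 := P1_adj hL k _ _ hp hq
          rwa [P1_nv_nv] at h2
    · exfalso
      push Not at hb
      have hsymm : ∀ z, (B z = true ↔ B (nv z) = true) := by
        intro z
        constructor
        · intro h
          have := hb z h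
          simpa using this
        · intro h
          have := hb (nv z) h
          rw [P1_nv_nv] at this
          simpa using this
      have hconst : ∀ k : ℕ, ∀ p ∈ L[k % L.length]?, ∀ p0 ∈ L[0 % L.length]?,
          (B p = true ↔ B p0 = true) := by
        intro k
        induction k with
        | zero =>
          intro p hp p0 hp0
          rw [Option.mem_def] at hp hp0
          rw [hp] at hp0
          rw [Option.some.inj hp0]
        | succ k ih =>
          intro p hp p0 hp0
          have hk : k % L.length < L.length := Nat.mod_lt _ hn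
          have hpk : L[k % L.length] ∈ L[k % L.length]? := by
            rw [Option.mem_def, List.getElem?_eq_getElem hk]
          have h1 := hBall k _ hpk p hp
          rw [← h1, ← hsymm]
          exact ih _ hpk p0 hp0
      have hzero : 0 % L.length < L.length := Nat.mod_lt _ hn
      have hp0 : L[0 % L.length] ∈ L[0 % L.length]? := by
        rw [Option.mem_def, List.getElem?_eq_getElem hzero]
      have hmem : ∀ z ∈ L, (B z = true ↔ B L[0 % L.length] = true) := by
        intro z hz
        obtain ⟨k, hk, hkz⟩ := List.getElem_of_mem hz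
        refine hconst k z ?_ _ hp0
        rw [Option.mem_def, Nat.mod_eq_of_lt hk, List.getElem?_eq_getElem hk, hkz]
      have hevery : ∀ z : X × Bool, (B z = true ↔ B L[0 % L.length] = true) := by
        intro z
        obtain ⟨c, hc⟩ := hall z.1
        have hzc : (z.1, c) = z ∨ (z.1, c) = nv z := by
          rcases z with ⟨b1, b2⟩
          cases b2 <;> cases c <;> simp [nv]
        rcases hzc with h | h
        · rw [h] at hc
          exact hmem z hc
        · rw [h] at hc
          rw [hsymm]
          exact hmem _ hc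
      obtain ⟨z, hz⟩ := hBne
      have h1 := (hevery y0).2 ((hevery z).1 hz)
      rw [hB1] at h1
      exact Bool.false_ne_true h1

lemma P1_main (n : ℕ) : ∀ (X : Type) [Fintype X] [DecidableEq X] (w : FreeGroup X),
    Fintype.card X + w.norm ≤ n → ∀ E : Set (FreeGroup X), P1_AI w E → IsPrimitive w := by
  induction n with
  | zero =>
    intro X _ _ w hw E hE
    exfalso
    have h1 : w.norm = 0 := by omega
    rw [FreeGroup.norm_eq_zero] at h1
    subst h1
    apply hE.inv
    rw [inv_one]
    exact hE.one
  | succ n ih =>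
    intro X _ _ w hw E hE
    -- cyclic reduction
    set L := FreeGroup.reduceCyclically w.toWord with hLdef
    set c := FreeGroup.reduceCyclically.conjugator w.toWord with hcdef
    have hL : FreeGroup.IsCyclicallyReduced L :=
      FreeGroup.reduceCyclically.isCyclicallyReduced FreeGroup.isReduced_toWord
    have hcat := FreeGroup.reduceCyclically.conj_conjugator_reduceCyclically w.toWord
    rw [← hLdef, ← hcdef] at hcat
    have hlenL : L.length ≤ w.norm := by
      have := congrArg List.length hcat
      rw [List.length_append, List.length_append] at this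
      unfold FreeGroup.norm
      omega
    have hw_eq : w = FreeGroup.mk c * FreeGroup.mk L * (FreeGroup.mk c)⁻¹ := by
      rw [FreeGroup.inv_mk, FreeGroup.mul_mk, FreeGroup.mul_mk, hcat, FreeGroup.mk_toWord]
    -- it suffices to treat `mk L`
    refine P1_prim_of_map (MulAut.conj (FreeGroup.mk c)⁻¹) ?_
    have hE' := hE.map (MulAut.conj (FreeGroup.mk c)⁻¹)
    have hconj : MulAut.conj (FreeGroup.mk c)⁻¹ w = FreeGroup.mk L := by
      rw [MulAut.conj_apply, hw_eq]
      group
    rw [hconj] at hE' ⊢
    set E' := ((MulAut.conj (FreeGroup.mk c)⁻¹).symm : FreeGroup X →* FreeGroup X) ⁻¹' E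
    have hne : L ≠ [] := by
      intro h
      apply hE'.inv
      rw [h, ← FreeGroup.one_eq_mk, inv_one]
      exact hE'.one
    by_cases hall : ∀ x : X, ∃ b, (x, b) ∈ L
    · rcases P1_shorten L hL hne hall E' hE' with h | ⟨α, u, L', hlt, hα⟩
      · obtain ⟨⟨x, b⟩, hx⟩ := List.length_eq_one_iff.1 h
        rw [hx]
        cases b
        · have : FreeGroup.mk [(x, false)] = (FreeGroup.of x)⁻¹ := by
            rw [FreeGroup.of, FreeGroup.inv_mk]
            rfl
          rw [this]
          exact P1_prim_inv X x
        · exact P1_prim_of X x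
      · have hE2 := (hE'.map α).map (MulAut.conj u⁻¹)
        have hconj2 : MulAut.conj u⁻¹ (α (FreeGroup.mk L)) = FreeGroup.mk L' := by
          rw [MulAut.conj_apply, hα]
          group
        refine P1_prim_of_map α (P1_prim_of_map (MulAut.conj u⁻¹) ?_)
        rw [hconj2] at hE2 ⊢
        refine ih X (FreeGroup.mk L') ?_ _ hE2
        have := FreeGroup.norm_mk_le (L₁ := L')
        omega
    · push Not at hall
      obtain ⟨x, hx⟩ := hall
      -- all letters of `L` are different from `x`
      have hLx : ∀ z ∈ L, z.1 ≠ x := by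
        rintro ⟨z, b⟩ hz rfl
        exact hx b hz
      let L' : List ({y : X // y ≠ x} × Bool) :=
        L.attach.map (fun z => (⟨z.1.1, hLx z.1 z.2⟩, z.1.2))
      have hL' : L'.map (fun y => (y.1.1, y.2)) = L := by
        simp only [L', List.map_map]
        have : ((fun y : {y : X // y ≠ x} × Bool => (y.1.1, y.2)) ∘
            fun z : {z // z ∈ L} => ((⟨z.1.1, hLx z.1 z.2⟩ : {y : X // y ≠ x}), z.1.2)) =
            Subtype.val := by
          funext z
          rfl
        rw [this, List.attach_map_subtype_val]
      have hmk : FreeGroup.mk L = FreeGroup.map Subtype.val (FreeGroup.mk L') := by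
        rw [FreeGroup.map.mk, hL']
      rw [hmk] at hE' ⊢
      refine P1_extend x _ ?_
      refine ih {y : X // y ≠ x} (FreeGroup.mk L') ?_ _
        (hE'.comap (FreeGroup.map Subtype.val) (FreeGroup.map_injective Subtype.val_injective))
      have h1 : Fintype.card {y : X // y ≠ x} < Fintype.card X :=
        Fintype.card_subtype_lt (x := x) (by simp)
      have h2 := FreeGroup.norm_mk_le (L₁ := L')
      have h3 : L'.length = L.length := by simp [L']
      omega

/-- TARGET -/
theorem primitive_of_almostInvariant {X : Type} [Fintype X] [DecidableEq X] (w : FreeGroup X)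
    (E : Set (FreeGroup X))
    (hfin : ∀ g : FreeGroup X, {h : FreeGroup X | ¬ (h ∈ E ↔ h * g ∈ E)}.Finite)
    (h1 : (1 : FreeGroup X) ∈ E) (hw : w⁻¹ ∉ E)
    (hinv : ∀ h : FreeGroup X, h ≠ w⁻¹ → (h ∈ E ↔ h * w ∈ E)) : IsPrimitive w :=
  P1_main _ X w le_rfl E ⟨hfin, h1, hw, hinv⟩

end Pool.Agent.Helper166_PQ
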