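import Mathlib
import Pool.Agent.Helper166_PQ.Path3
import Pool.Agent.Helper166_PQ.Path5
import Pool.Agent.Helper166_PQ.Prim
import Pool.Agent.Helper166_PQ.Hopf
import Pool.Agent.Helper166_PQ.Aug

/-!
# Ideals from subgroups and subgroups from ideals
-/

set_option autoImplicit false
set_option linter.unusedSectionVars false

namespace Pool.Agent.Helper166_PQ

open Module

section Upper

/-- A subgroup in which `w` is not primitive gives a right ideal of the same rank in which `w - 1`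
is not primitive. -/
theorem ideal_of_subgroup {K : Type} [Field K] {F : Type} [Group F] (H : Subgroup F) (w : F)
    (hw : w ∈ H) {ι : Type} [Finite ι] (b : FreeGroupBasis ι H)
    (hnp : ¬ IsPrimitive (⟨w, hw⟩ : H)) :
    ∃ I : Submodule (MonoidAlgebra K F)ᵐᵒᵖ (MonoidAlgebra K F), I ≠ ⊤ ∧
      (MonoidAlgebra.single w (1 : K) - 1 : MonoidAlgebra K F) ∈ I ∧
      Nonempty (Basis ι (MonoidAlgebra K F)ᵐᵒᵖ I) ∧
      ¬ IsPrimitiveIn I (MonoidAlgebra.single w (1 : K) - 1) := by
  classical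
  obtain ⟨h1, h2, h3⟩ := aug_basis (K := K) H b
  obtain ⟨I, hI⟩ : ∃ I, I = rI (Set.range fun i : ι =>
    (MonoidAlgebra.single ((b i : H) : F) (1 : K) - 1 : MonoidAlgebra K F)) := ⟨_, rfl⟩
  rw [← hI] at h2 h3
  refine ⟨I, h3, h2 w hw, ⟨(Basis.span h1).map (LinearEquiv.ofEq _ _ hI.symm)⟩, ?_⟩
  rintro ⟨κ, c, k, hk⟩
  apply hnp
  -- the coordinate functional
  let φ : I →ₗ[(MonoidAlgebra K F)ᵐᵒᵖ] MonoidAlgebra K F :=
    { toFun := fun x => (c.coord k x).unop
      map_add' := fun x y => by rw [map_add, MulOpposite.unop_add]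
      map_smul' := fun s x => by
        rw [map_smul, RingHom.id_apply]
        rfl }
  have hφ : φ ⟨MonoidAlgebra.single ((⟨w, hw⟩ : H) : F) (1 : K) - 1, h2 w hw⟩ = 1 := by
    have h4 : (⟨MonoidAlgebra.single ((⟨w, hw⟩ : H) : F) (1 : K) - 1, h2 w hw⟩ : I) = c k :=
      Subtype.ext hk.symm
    rw [h4]
    show (c.coord k (c k)).unop = 1
    rw [Basis.coord_apply, Basis.repr_self, Finsupp.single_eq_same]
    rfl
  obtain ⟨E, hE1, hE2, hE3, hE4⟩ := exists_almostInvariant H I h2 φ ⟨w, hw⟩ hφ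
  have := Fintype.ofFinite ι
  have hAI : P1_AI (⟨w, hw⟩ : H) E := ⟨hE1, hE2, hE3, hE4⟩
  have hAI' := hAI.map b.repr
  exact P1_prim_of_map b.repr
    (primitive_of_almostInvariant _ _ hAI'.fin hAI'.one hAI'.inv hAI'.step)

end Upper

section Lower

variable {K : Type} [Field K] {X : Type} [Fintype X] [DecidableEq X]

/-- If `I` has rank `m` and `ω` is not in a basis, then `I` is not generated by `ω` and less than
`m - 1` further elements. -/
theorem le_of_GW {I : Submodule (MonoidAlgebra K (FreeGroup X))ᵐᵒᵖ (MonoidAlgebra K (FreeGroup X))}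
    {ι : Type} [Finite ι] (b : Basis ι (MonoidAlgebra K (FreeGroup X))ᵐᵒᵖ I)
    {ω : MonoidAlgebra K (FreeGroup X)} (hnp : ¬ IsPrimitiveIn I ω) (k : ℕ) (hk : GW ω I k) :
    Nat.card ι ≤ k := by
  classical
  have := Fintype.ofFinite ι
  by_contra hlt
  push Not at hlt
  obtain ⟨t, ht, hI⟩ := hk
  apply hnp
  let T : Finset (MonoidAlgebra K (FreeGroup X)) := insert ω t
  have hT : (T : Set (MonoidAlgebra K (FreeGroup X))) = insert ω (t : Set _) := Finset.coe_insert _ _
  have hTI : ∀ x ∈ T, x ∈ I := by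
    intro x hx
    rw [← hI, ← hT]
    exact subset_rI hx
  have hcard : Fintype.card T ≤ Fintype.card ι := by
    rw [Fintype.card_coe]
    have h1 : T.card ≤ t.card + 1 := Finset.card_insert_le _ _
    rw [Nat.card_eq_fintype_card] at hlt
    omega
  obtain ⟨f⟩ := Function.Embedding.nonempty_of_card_le hcard
  have hne : Nonempty T := ⟨⟨ω, Finset.mem_insert_self _ _⟩⟩
  have hsurj : Function.Surjective (Function.invFun f) := Function.invFun_surjective f.injective
  let c : ι → I := fun i => ⟨(Function.invFun f i).1, hTI _ (Function.invFun f i).2⟩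
  have hcim : ∀ x ∈ T, ∃ i, (c i : MonoidAlgebra K (FreeGroup X)) = x := by
    intro x hx
    obtain ⟨i, hi⟩ := hsurj ⟨x, hx⟩
    refine ⟨i, ?_⟩
    show (Function.invFun f i).1 = x
    rw [hi]
  have hspan : Submodule.span (MonoidAlgebra K (FreeGroup X))ᵐᵒᵖ (Set.range c) = ⊤ := by
    rw [eq_top_iff]
    rintro ⟨x, hx⟩ -
    have hx' : x ∈ rI (T : Set (MonoidAlgebra K (FreeGroup X))) := by rw [hT, hI]; exact hx
    have h2 : rI (T : Set (MonoidAlgebra K (FreeGroup X))) ≤
        (Submodule.span (MonoidAlgebra K (FreeGroup X))ᵐᵒᵖ (Set.range c)).map I.subtype := by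
      refine rI_le ?_
      intro y hy
      obtain ⟨i, hi⟩ := hcim y hy
      exact ⟨c i, Submodule.subset_span ⟨i, rfl⟩, hi⟩
    obtain ⟨y, hy, hyx⟩ := h2 hx'
    have : y = ⟨x, hx⟩ := Subtype.ext hyx
    rw [← this]
    exact hy
  have hli := linearIndependent_of_span_eq_top I b c hspan
  obtain ⟨i, hi⟩ := hcim ω (Finset.mem_insert_self _ _)
  refine ⟨ι, Basis.mk hli hspan.ge, i, ?_⟩
  rw [Basis.mk_apply]
  exact hi

/-- The lower bound for a cyclically reduced word. -/
theorem subgroup_of_ideal_cyc [Encodable X] (L : List (X × Bool)) (hL : L ≠ [])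
    (hred : FreeGroup.IsCyclicallyReduced L)
    (I : Submodule (MonoidAlgebra K (FreeGroup X))ᵐᵒᵖ (MonoidAlgebra K (FreeGroup X)))
    (htop : I ≠ ⊤)
    (hω : (MonoidAlgebra.single (FreeGroup.mk L) (1 : K) - 1 : MonoidAlgebra K (FreeGroup X)) ∈ I)
    {ι : Type} [Finite ι] (b : Basis ι (MonoidAlgebra K (FreeGroup X))ᵐᵒᵖ I)
    (hnp : ¬ IsPrimitiveIn I (MonoidAlgebra.single (FreeGroup.mk L) (1 : K) - 1)) :
    ∃ (H : Subgroup (FreeGroup X)) (hw : FreeGroup.mk L ∈ H),
      (∃ t : Finset H, t.card ≤ Nat.card ι ∧ Subgroup.closure (t : Set H) = ⊤) ∧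
      ¬ IsPrimitive (⟨FreeGroup.mk L, hw⟩ : H) := by
  classical
  have := Fintype.ofFinite ι
  obtain ⟨l, hl⟩ : ∃ l, l = L.length := ⟨_, rfl⟩
  have hl0 : 0 < l := by rw [hl]; exact List.length_pos_iff.2 hL
  let z : ℕ → X × Bool := fun i => L.getD i (L.head hL)
  have hzget : ∀ i (hi : i < L.length), z i = L[i] := by
    intro i hi
    exact List.getD_eq_getElem _ _ hi
  have hzL : (List.range l).map z = L := by
    apply List.ext_getElem
    · simp [hl]
    · intro i h1 h2
      rw [List.getElem_map, List.getElem_range, hzget i h2]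
  have hz : ∀ i < l, z ((i + 1) % l) ≠ nv (z i) := by
    intro i hi
    refine P1_adj hred i (z i) (z ((i + 1) % l)) ?_ ?_
    · rw [← hl, Nat.mod_eq_of_lt hi, hzget i (by omega), Option.mem_def]
      exact List.getElem?_eq_getElem _
    · have h1 : (i + 1) % l < L.length := by rw [← hl]; exact Nat.mod_lt _ hl0
      rw [← hl, hzget _ h1, Option.mem_def]
      exact List.getElem?_eq_getElem _
  have huu : uu z l = FreeGroup.mk L := by unfold uu; rw [hzL]
  let S : Finset (MonoidAlgebra K (FreeGroup X)) :=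
    Finset.univ.image fun i => (b i : MonoidAlgebra K (FreeGroup X))
  have hScard : S.card ≤ Nat.card ι := by
    refine Finset.card_image_le.trans ?_
    rw [Nat.card_eq_fintype_card]
    exact le_rfl
  have hSI : rI (S : Set (MonoidAlgebra K (FreeGroup X))) = I := by
    apply le_antisymm
    · refine rI_le ?_
      intro x hx
      obtain ⟨i, _, rfl⟩ := Finset.mem_image.1 (Finset.mem_coe.1 hx)
      exact (b i).2
    · intro x hx
      have h1 : (⟨x, hx⟩ : I) ∈ Submodule.span (MonoidAlgebra K (FreeGroup X))ᵐᵒᵖ (Set.range b) := by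
        rw [b.span_eq]; exact Submodule.mem_top
      have h2 : Submodule.span (MonoidAlgebra K (FreeGroup X))ᵐᵒᵖ (Set.range b) ≤
          (rI (S : Set (MonoidAlgebra K (FreeGroup X)))).comap I.subtype := by
        rw [Submodule.span_le]
        rintro _ ⟨i, rfl⟩
        exact subset_rI (Finset.mem_coe.2 (Finset.mem_image_of_mem _ (Finset.mem_univ i)))
      exact h2 h1
  obtain ⟨p₀, R₀, hV₀⟩ := initial z l hz hl0 (Nat.card ι) S hScard
    (by rw [huu, hSI]; exact hω) (by rw [hSI]; exact htop)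
    (by
      rw [huu, hSI]
      exact fun k hk => le_of_GW b hnp k hk)
  have hn2 : 2 * l % 2 = 0 := by omega
  have hpw : pth (fun j => (lamN (lbz z j) : FreeGroup X)) (2 * l) = FreeGroup.mk L := by
    rw [← huu]; exact pth_even z l
  have hcomp := compat_cyc (K := K) hn2 (lbz z) (hlbz z l hz)
    (fun j => (lamN (lbz z j) : FreeGroup X)) (lamN : ℕ → FreeGroup X) (fun _ _ => rfl)
  have hV₁ : Valid (cyc (2 * l) hn2 (lbz z) (hlbz z l hz))
      (MonoidAlgebra.single (pth (fun j => (lamN (lbz z j) : FreeGroup X)) (2 * l)) 1 - 1 :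
        MonoidAlgebra K (FreeGroup X))
      (brp K (2 * l) fun j => (lamN (lbz z j) : FreeGroup X)) (Nat.card ι) p₀ R₀ := by
    rw [hpw, ← huu]
    exact hV₀
  obtain ⟨p, R, hV, hopt⟩ := opt hcomp (Nat.card ι) p₀ R₀ hV₁
  obtain ⟨H, hw, hH, hnpr⟩ := final_step (K := K) (by omega : 0 < 2 * l) hn2 (lbz z) (hlbz z l hz)
    (lamN : ℕ → FreeGroup X) (Nat.card ι) p R hV hopt
  revert hw
  rw [hpw]
  intro hw hnpr
  exact ⟨H, hw, hH, hnpr⟩

end Lower

end Pool.Agent.Helper166_PQ
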