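import Mathlib
import Pool.Agent.Helper166_PQ.Main1

/-!
# Subgroups from ideals, for all words
-/

set_option autoImplicit false
set_option linter.unusedSectionVars false

namespace Pool.Agent.Helper166_PQ

open Module

section Conj

variable {K : Type} [Field K] {G : Type} [Group G]

/-- left multiplication by a group element -/
noncomputable def lmE (K : Type) [Field K] {G : Type} [Group G] (c : G) :
    MonoidAlgebra K G ≃ₗ[(MonoidAlgebra K G)ᵐᵒᵖ] MonoidAlgebra K G where
  toFun a := MonoidAlgebra.single c 1 * a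
  invFun a := MonoidAlgebra.single c⁻¹ 1 * a
  map_add' a b := mul_add _ _ _
  map_smul' s a := by
    show MonoidAlgebra.single c 1 * (a * s.unop) = (MonoidAlgebra.single c 1 * a) * s.unop
    rw [mul_assoc]
  left_inv a := by
    show MonoidAlgebra.single c⁻¹ 1 * (MonoidAlgebra.single c 1 * a) = a
    rw [← mul_assoc, MonoidAlgebra.single_mul_single, inv_mul_cancel, mul_one]
    exact one_mul a
  right_inv a := by
    show MonoidAlgebra.single c 1 * (MonoidAlgebra.single c⁻¹ 1 * a) = a
    rw [← mul_assoc, MonoidAlgebra.single_mul_single, mul_inv_cancel, mul_one]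
    exact one_mul a

theorem lmE_apply (c : G) (a : MonoidAlgebra K G) : lmE K c a = MonoidAlgebra.single c 1 * a := rfl

/-- a group element as a unit of the opposite ring -/
noncomputable def opu (K : Type) [Field K] {G : Type} [Group G] (c : G) :
    ((MonoidAlgebra K G)ᵐᵒᵖ)ˣ where
  val := MulOpposite.op (MonoidAlgebra.single c 1)
  inv := MulOpposite.op (MonoidAlgebra.single c⁻¹ 1)
  val_inv := by
    rw [← MulOpposite.op_mul, MonoidAlgebra.single_mul_single, inv_mul_cancel, mul_one]
    rfl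
  inv_val := by
    rw [← MulOpposite.op_mul, MonoidAlgebra.single_mul_single, mul_inv_cancel, mul_one]
    rfl

theorem conj_elt (c w : G) :
    lmE K c⁻¹ ((MonoidAlgebra.single (c * w * c⁻¹) (1 : K) - 1) * MonoidAlgebra.single c 1) =
      MonoidAlgebra.single w (1 : K) - 1 := by
  have h1 : (1 : MonoidAlgebra K G) = MonoidAlgebra.single 1 1 := rfl
  rw [lmE_apply, h1, sub_mul, MonoidAlgebra.single_mul_single, MonoidAlgebra.single_mul_single,
    mul_sub, MonoidAlgebra.single_mul_single, MonoidAlgebra.single_mul_single]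
  simp [mul_assoc]

theorem not_primitive_conj {I : Submodule (MonoidAlgebra K G)ᵐᵒᵖ (MonoidAlgebra K G)} (c w : G)
    (h : ¬ IsPrimitiveIn I (MonoidAlgebra.single (c * w * c⁻¹) (1 : K) - 1)) :
    ¬ IsPrimitiveIn (I.map (lmE K c⁻¹).toLinearMap) (MonoidAlgebra.single w (1 : K) - 1) := by
  rintro ⟨κ, d, k, hk⟩
  apply h
  let e := (lmE K c⁻¹).submoduleMap I
  refine ⟨κ, (d.map e.symm).unitsSMul fun _ => opu K c⁻¹, k, ?_⟩
  rw [Basis.unitsSMul_apply, Basis.map_apply]
  have h1 : lmE K c⁻¹ ((e.symm (d k) : I) : MonoidAlgebra K G) = MonoidAlgebra.single w (1 : K) - 1 := by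
    rw [← hk]
    exact congrArg Subtype.val (e.apply_symm_apply (d k))
  rw [← conj_elt c w] at h1
  have h2 := (lmE K c⁻¹).injective h1
  show ((e.symm (d k) : I) : MonoidAlgebra K G) * MonoidAlgebra.single c⁻¹ 1 = _
  rw [h2, mul_assoc, MonoidAlgebra.single_mul_single, mul_inv_cancel, mul_one]
  exact mul_one _

end Conj

section LowerAll

variable {K : Type} [Field K] {X : Type} [Fintype X] [DecidableEq X]

/-- The lower bound for all words. -/
theorem subgroup_of_ideal [Encodable X] (w : FreeGroup X) (hw1 : w ≠ 1)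
    (I : Submodule (MonoidAlgebra K (FreeGroup X))ᵐᵒᵖ (MonoidAlgebra K (FreeGroup X)))
    (htop : I ≠ ⊤)
    (hω : (MonoidAlgebra.single w (1 : K) - 1 : MonoidAlgebra K (FreeGroup X)) ∈ I)
    {ι : Type} [Finite ι] (b : Basis ι (MonoidAlgebra K (FreeGroup X))ᵐᵒᵖ I)
    (hnp : ¬ IsPrimitiveIn I (MonoidAlgebra.single w (1 : K) - 1)) :
    ∃ (H : Subgroup (FreeGroup X)) (hw : w ∈ H),
      (∃ t : Finset H, t.card ≤ Nat.card ι ∧ Subgroup.closure (t : Set H) = ⊤) ∧
      ¬ IsPrimitive (⟨w, hw⟩ : H) := by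
  classical
  obtain ⟨L, hLdef⟩ : ∃ L, L = FreeGroup.reduceCyclically w.toWord := ⟨_, rfl⟩
  obtain ⟨c, hc⟩ : ∃ c : FreeGroup X, c = FreeGroup.mk (FreeGroup.reduceCyclically.conjugator w.toWord) :=
    ⟨_, rfl⟩
  have hw : w = c * FreeGroup.mk L * c⁻¹ := by
    rw [hc, hLdef, FreeGroup.inv_mk, FreeGroup.mul_mk, FreeGroup.mul_mk,
      FreeGroup.reduceCyclically.conj_conjugator_reduceCyclically, FreeGroup.mk_toWord]
  have hred : FreeGroup.IsCyclicallyReduced L := by
    rw [hLdef]
    exact FreeGroup.reduceCyclically.isCyclicallyReduced FreeGroup.isReduced_toWord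
  have hL : L ≠ [] := by
    intro h
    apply hw1
    rw [hw, h]
    have : (FreeGroup.mk [] : FreeGroup X) = 1 := rfl
    rw [this]
    group
  rw [hw] at hω hnp
  obtain ⟨H', hw', ⟨t', ht', htc'⟩, hnp'⟩ := subgroup_of_ideal_cyc L hL hred
    (I.map (lmE K c⁻¹).toLinearMap) (by
      intro h
      apply htop
      rw [eq_top_iff]
      intro x _
      have h1 : lmE K c⁻¹ x ∈ I.map (lmE K c⁻¹).toLinearMap := by rw [h]; exact Submodule.mem_top
      obtain ⟨y, hy, hyx⟩ := h1
      have : y = x := (lmE K c⁻¹).injective hyx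
      rw [← this]
      exact hy)
    (by
      rw [← conj_elt (K := K) c (FreeGroup.mk L)]
      exact ⟨_, mul_mem_right' hω _, rfl⟩)
    (b.map ((lmE K c⁻¹).submoduleMap I)) (not_primitive_conj c _ hnp)
  let α : H' ≃* H'.map (MulAut.conj c).toMonoidHom := (MulAut.conj c).subgroupMap H'
  have hmem : w ∈ H'.map (MulAut.conj c).toMonoidHom := by
    refine ⟨FreeGroup.mk L, hw', ?_⟩
    rw [hw]
    rfl
  refine ⟨H'.map (MulAut.conj c).toMonoidHom, hmem, ⟨t'.image α, ?_, ?_⟩, ?_⟩
  · exact Finset.card_image_le.trans ht'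
  · rw [Finset.coe_image]
    have h1 := (α.toMonoidHom).map_closure (t' : Set H')
    rw [htc'] at h1
    have h2 : (⊤ : Subgroup H').map α.toMonoidHom = ⊤ :=
      Subgroup.map_top_of_surjective _ α.surjective
    rw [h2] at h1
    exact h1.symm
  · intro h
    apply hnp'
    refine P1_prim_of_map α ?_
    have : α ⟨FreeGroup.mk L, hw'⟩ = ⟨w, hmem⟩ := by
      apply Subtype.ext
      show c * FreeGroup.mk L * c⁻¹ = w
      exact hw.symm
    rw [this]
    exact h

end LowerAll

end Pool.Agent.Helper166_PQ
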